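import Pool.Agent.Helper94.AM.WindJ
import Pool.Agent.Helper85.EW.GL

/-!
# Arbitrary multiplicities (MP_d3128a_ag): the two windows, with one hidden constant
-/

set_option autoImplicit false

namespace Pool.Agent.Helper94.AM

open Finset Pool.Agent.Lead.Sh
open Pool.Agent.Helper18.UW (lg CoreC)

/-- the window theorems with the constant `K` -/
def WinK (K : ℝ) : Prop := ∀ (A : Finset ℕ) (m : ℕ → ℕ) (M d : ℕ) (t : ℝ), 1 ≤ M →
  (∀ k ∈ A, 1 ≤ m k ∧ m k ≤ M) → 1024 ≤ t → K * t ^ 3 * M ≤ d →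
  ((UU m A : ℝ) ≤ (1 - Real.exp (-t)) * (((d : ℝ) + 1) * (d + 2)) →
    Ind (triD 0 d) (rows m A)) ∧
  ((1 + Real.exp (-t)) * (((d : ℝ) + 1) * (d + 2)) ≤ (UU m A : ℝ) →
    Inj (triD 0 d) (rows m A)) ∧
  ((M : ℝ) ≤ Real.exp t →
    (UU m A ≤ (d + 1) * (d + 2) → Ind (triD 0 d) (rows m A)) ∧
    ((d + 1) * (d + 2) ≤ UU m A → Inj (triD 0 d) (rows m A)))

theorem winK (hU : UWI) : ∃ K : ℝ, 1 ≤ K ∧ WinK K := by
  refine ⟨2 ^ 423, one_le_pow₀ (by norm_num), ?_⟩
  intro A m M d t hM hA ht hd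
  have hMr : (0 : ℝ) ≤ M := Nat.cast_nonneg M
  have ht3 : (0 : ℝ) ≤ t ^ 3 := by positivity
  refine ⟨?_, ?_, ?_⟩
  · intro h
    apply hi hU M hM A m d t hA ht _ h
    refine le_trans ?_ hd
    apply mul_le_mul_of_nonneg_right _ hMr
    apply mul_le_mul_of_nonneg_right _ ht3
    exact pow_le_pow_right₀ (by norm_num) (by norm_num)
  · intro h
    exact hj hU M hM A m d t hA ht hd h
  · intro h
    apply hU A m M d hA hM
    have h1 := base_le hM ht (h.trans (Real.exp_le_exp.mpr (by linarith)))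
    have h2 : ((2 ^ 400 * lg M ^ 3 * M : ℕ) : ℝ) ≤ d := by
      refine h1.trans (le_trans ?_ hd)
      apply mul_le_mul_of_nonneg_right _ hMr
      apply mul_le_mul_of_nonneg_right _ ht3
      exact pow_le_pow_right₀ (by norm_num) (by norm_num)
    exact_mod_cast h2

/-! ### conclusions -/

theorem inj_card {D : Finset (ℕ × ℕ)} {R : Finset Row} (h : Inj D R) : D.card ≤ R.card := by
  classical
  obtain ⟨P, hP⟩ := h
  set M : Matrix ↥R ↥D ℂ := Matrix.of (fun r d =>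
    E (r : Row).2 (d : ℕ × ℕ) (P (r : Row).1).1 (P (r : Row).1).2) with hM
  have hinj : Function.Injective M.mulVecLin := by
    rw [injective_iff_map_eq_zero]
    intro l hl
    set l' : ℕ × ℕ → ℂ := fun r => if h : r ∈ D then l ⟨r, h⟩ else 0 with hl'
    have hl2 : ∀ r : ↥D, l' r = l r := by
      intro r
      simp only [hl']
      rw [dif_pos r.2]
    funext r
    rw [← hl2, Pi.zero_apply]
    refine hP l' ?_ r r.2
    intro d hd
    have h1 := congrFun hl ⟨d, hd⟩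
    rw [Matrix.mulVecLin_apply, Matrix.mulVec, dotProduct, Pi.zero_apply] at h1
    rw [← sum_coe_sort D, ← h1]
    apply sum_congr rfl
    intro r _
    rw [hl2, hM, Matrix.of_apply, mul_comm]
  have h2 := LinearMap.finrank_le_finrank_of_injective hinj
  rw [Module.finrank_fintype_fun_eq_card, Module.finrank_fintype_fun_eq_card,
    Fintype.card_coe, Fintype.card_coe] at h2
  exact h2

/-- the conclusion in terms of matrices -/
def Fill (s : ℕ) (m : ℕ → ℕ) (d : ℕ) : Prop :=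
  (∑ i ∈ range s, Nat.choose (m i + 1) 2 ≤ Nat.choose (d + 2) 2 ∧
      Ind (triD 0 d) (rows m (range s))) ∨
    (Nat.choose (d + 2) 2 ≤ ∑ i ∈ range s, Nat.choose (m i + 1) 2 ∧
      Inj (triD 0 d) (rows m (range s)))

lemma fill_ind {s : ℕ} {m : ℕ → ℕ} {d : ℕ} (h : Ind (triD 0 d) (rows m (range s))) :
    Fill s m d := by
  left
  refine ⟨?_, h⟩
  have h1 := Pool.Agent.Helper85.EW.ind_card h
  rw [card_rows, card_triD] at h1
  exact h1

lemma fill_inj {s : ℕ} {m : ℕ → ℕ} {d : ℕ} (h : Inj (triD 0 d) (rows m (range s))) :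
    Fill s m d := by
  right
  refine ⟨?_, h⟩
  have h1 := inj_card h
  rw [card_rows, card_triD] at h1
  exact h1

/-- the points with positive multiplicities -/
lemma rows_supp (m : ℕ → ℕ) (s : Finset ℕ) :
    rows m (s.filter (fun k => 1 ≤ m k)) = rows m s := by
  ext r
  rw [mem_rows, mem_rows, mem_filter]
  constructor
  · rintro ⟨h1, h2⟩
    exact ⟨h1.1, h2⟩
  · rintro ⟨h1, h2⟩
    exact ⟨⟨h1, by omega⟩, h2⟩

lemma UU_supp (m : ℕ → ℕ) (s : Finset ℕ) :
    UU m (s.filter (fun k => 1 ≤ m k)) = UU m s := by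
  unfold UU
  apply sum_subset (filter_subset _ _)
  intro k hk hk'
  have : m k = 0 := by
    by_contra h
    exact hk' (mem_filter.mpr ⟨hk, by omega⟩)
  rw [this, zero_mul]

/-- all multiplicities vanish -/
lemma fill_zero {s : ℕ} {m : ℕ → ℕ} {d : ℕ} (h : ∀ i, m i = 0) : Fill s m d := by
  apply fill_ind
  have : rows m (range s) = ∅ := by
    rw [eq_empty_iff_forall_notMem]
    intro r hr
    rw [mem_rows, h] at hr
    omega
  rw [this]
  exact ind_empty _

/-! ### powers -/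

lemma cube_cbrt {x : ℝ} (hx : 0 ≤ x) : (x ^ (1 / 3 : ℝ)) ^ 3 = x := by
  rw [← Real.rpow_natCast, ← Real.rpow_mul hx]
  norm_num

lemma cube_23 {x : ℝ} (hx : 0 ≤ x) : (x ^ (2 / 3 : ℝ)) ^ 3 = x ^ 2 := by
  rw [← Real.rpow_natCast, ← Real.rpow_mul hx]
  norm_num

lemma le_of_cube {a b : ℝ} (hb : 0 ≤ b) (h : a ^ 3 ≤ b ^ 3) : a ≤ b := by
  by_contra hc
  push Not at hc
  have := pow_lt_pow_left₀ hc hb (show (3 : ℕ) ≠ 0 by norm_num)
  linarith

end Pool.Agent.Helper94.AM
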