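import Pool.Agent.Helper94.AM.Final
import Pool.Agent.Helper94.AM.WinC

/-!
# Arbitrary multiplicities (MP_d3128a_ag): equal multiplicities, better exponents
-/

set_option autoImplicit false

namespace Pool.Agent.Helper94.AM

open Finset Pool.Agent.Lead.Sh
open Pool.Agent.Helper43.Hw (NS)

/-- equal multiplicities -/
theorem genE (hEW : Full) : ∃ c C : ℝ, 0 < c ∧ 0 < C ∧ ∀ (s M d : ℕ) (N R x y : ℝ), 1 ≤ M →
    N = (s : ℝ) * (M * (M + 1)) → R = d + √N → x = R / M → y = x ^ (2 / 3 : ℝ) → C * M ≤ R →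
    ((M : ℝ) ≤ Real.exp (c * y) ∨
      Real.exp (-(c * y)) * R ^ 2 ≤ |((d : ℝ) + 1) * (d + 2) - N|) → NS s M d := by
  obtain ⟨c0, hc0, n0, hA⟩ := mainA hEW
  set C : ℝ := 50 * n0 + 25600 / c0 ^ 3 + 1000 with hC
  have hn0 : (0 : ℝ) ≤ n0 := Nat.cast_nonneg n0
  have hc3 : 0 < c0 ^ 3 := by positivity
  have hq0 : 0 ≤ 25600 / c0 ^ 3 := by positivity
  have hC1 : 1000 ≤ C := by rw [hC]; linarith
  have hCn : 50 * n0 ≤ C := by rw [hC]; linarith
  have hCc : 25600 / c0 ^ 3 ≤ C := by rw [hC]; linarith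
  have hC0 : 0 < C := by linarith
  clear_value C
  refine ⟨c0 / 16, C, by positivity, hC0, ?_⟩
  intro s M d N R x y hM hN hR hx hy hCM h
  have hMr : (1 : ℝ) ≤ M := by exact_mod_cast hM
  have hM0 : (0 : ℝ) < M := by linarith
  have hd0 : (0 : ℝ) ≤ d := Nat.cast_nonneg d
  have hs0 : (0 : ℝ) ≤ s := Nat.cast_nonneg s
  have hN0 : 0 ≤ N := by rw [hN]; positivity
  set T : ℝ := √N with hT
  have hT0 : 0 ≤ T := Real.sqrt_nonneg N
  have hTT : T * T = N := Real.mul_self_sqrt hN0
  have hN2 : N ≤ 2 * s * M ^ 2 := by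
    rw [hN]
    have : (M : ℝ) * (M + 1) ≤ 2 * M ^ 2 := by nlinarith only [hMr]
    nlinarith only [mul_le_mul_of_nonneg_left this hs0]
  have hN3 : s * (M : ℝ) ^ 2 ≤ N := by
    rw [hN]
    have : (M : ℝ) ^ 2 ≤ M * (M + 1) := by nlinarith only [hM0]
    exact mul_le_mul_of_nonneg_left this hs0
  have hRC : 1000 ≤ R := by
    refine le_trans ?_ hCM
    nlinarith only [hC1, hMr]
  rcases le_or_gt (4 * T) d with hcase | hcase
  · -- few points
    have hRd : R ≤ 5 / 4 * d := by rw [hR]; linarith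
    have hdM : 4 / 5 * (C * M) ≤ d := by linarith
    set n' : ℕ := ⌊(d : ℝ) ^ 2 / (8 * M ^ 2)⌋₊ with hn'
    have hM2 : 0 < 8 * (M : ℝ) ^ 2 := by positivity
    have hd2 : 0 ≤ (d : ℝ) ^ 2 / (8 * M ^ 2) := by positivity
    have hn'1 : (n' : ℝ) ≤ (d : ℝ) ^ 2 / (8 * M ^ 2) := Nat.floor_le hd2
    rw [le_div_iff₀ hM2] at hn'1
    have hsn : s ≤ n' := by
      apply Nat.le_floor
      rw [le_div_iff₀ hM2]
      have e1 : T * T ≤ (d / 4) * (d / 4) := mul_le_mul (by linarith) (by linarith) hT0 (by linarith)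
      nlinarith only [e1, hTT, hN3, mul_self_nonneg (d : ℝ)]
    have hnn : n0 ≤ n' := by
      apply Nat.le_floor
      rw [le_div_iff₀ hM2]
      have e1 : (4 / 5 * (C * M)) ^ 2 ≤ (d : ℝ) ^ 2 := pow_le_pow_left₀ (by positivity) hdM 2
      have e2 : (n0 : ℝ) ≤ C * C / 50 := by nlinarith only [hCn, hC1, hn0, hC0]
      have e3 : (n0 : ℝ) * (8 * M ^ 2) ≤ (C * C / 50) * (8 * M ^ 2) :=
        mul_le_mul_of_nonneg_right e2 hM2.le
      have e4 : (C * C / 50) * (8 * (M : ℝ) ^ 2) = 4 / 25 * (C * M) ^ 2 := by ring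
      have e5 : (4 / 5 * (C * M)) ^ 2 = 16 / 25 * (C * M) ^ 2 := by ring
      rw [e4] at e3
      rw [e5] at e1
      have e6 : 0 ≤ (C * M) ^ 2 := sq_nonneg _
      linarith
    have hroot : √(n' : ℝ) * M ≤ d / 2 := by
      have e1 : (√(n' : ℝ) * M) ^ 2 ≤ (d / 2 : ℝ) ^ 2 := by
        rw [mul_pow, Real.sq_sqrt (Nat.cast_nonneg n')]
        nlinarith only [hn'1, sq_nonneg (d : ℝ)]
      exact (sq_le_sq₀ (by positivity) (by positivity)).mp e1
    have hns : NS n' M d := by
      apply hA n' hnn M d hM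
      right
      have e1 : Real.exp (-(c0 * (n' : ℝ) ^ (1 / 3 : ℝ))) ≤ 1 := by
        apply Real.exp_le_one_iff.mpr
        have : 0 ≤ c0 * (n' : ℝ) ^ (1 / 3 : ℝ) := by positivity
        linarith
      have e2 : 0 ≤ √(n' : ℝ) * M := by positivity
      calc Real.exp (-(c0 * (n' : ℝ) ^ (1 / 3 : ℝ))) * (√(n' : ℝ) * M)
          ≤ 1 * (√(n' : ℝ) * M) := mul_le_mul_of_nonneg_right e1 e2
        _ ≤ (d : ℝ) - √(n' : ℝ) * M := by linarith
        _ ≤ _ := le_abs_self _
    have hind : Ind (triD 0 d) (rows (fun _ => M) (range n')) := by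
      apply ind_of_ns hns
      rw [choose_le_iff]
      have e1 : (n' : ℝ) * (M * (M + 1)) ≤ (d + 1) * (d + 2) := by
        have e2 : (M : ℝ) * (M + 1) ≤ 2 * M ^ 2 := by nlinarith only [hMr]
        have e3 : (n' : ℝ) * (M * (M + 1)) ≤ n' * (2 * M ^ 2) :=
          mul_le_mul_of_nonneg_left e2 (Nat.cast_nonneg n')
        nlinarith only [e3, hn'1, hd0, sq_nonneg (d : ℝ)]
      exact_mod_cast e1
    have hind2 : Ind (triD 0 d) (rows (fun _ => M) (range s)) := by
      apply hind.mono subset_rfl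
      intro r hr
      rw [mem_rows, mem_range] at hr ⊢
      exact ⟨lt_of_lt_of_le hr.1 hsn, hr.2⟩
    apply Pool.Agent.Helper46.EW.ns_of_fill
    left
    refine ⟨?_, hind2⟩
    rw [choose_le_iff]
    have e1 : (s : ℝ) * (M * (M + 1)) ≤ (d + 1) * (d + 2) := by
      rw [← hN, ← hTT]
      have e2 : T * T ≤ (d / 4) * (d / 4) := mul_le_mul (by linarith) (by linarith) hT0 (by linarith)
      nlinarith only [e2, hd0]
    exact_mod_cast e1
  · -- many points
    have hR5 : R ≤ 5 * T := by rw [hR]; linarith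
    have hCT : C * M ≤ 5 * T := hCM.trans hR5
    have hsC : C * C / 50 ≤ s := by
      have e1 : (C * M) * (C * M) ≤ (5 * T) * (5 * T) :=
        mul_le_mul hCT hCT (by positivity) (by linarith)
      have e2 : (C * C / 50) * (M : ℝ) ^ 2 ≤ s * M ^ 2 := by nlinarith only [e1, hTT, hN2]
      exact le_of_mul_le_mul_right e2 (by positivity)
    have hsn : n0 ≤ s := by
      have : (n0 : ℝ) ≤ s := by
        refine le_trans ?_ hsC
        nlinarith only [hCn, hC1, hn0, hC0]
      exact_mod_cast this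
    obtain ⟨Y, hY⟩ : ∃ Y : ℝ, Y = (s : ℝ) ^ (1 / 3 : ℝ) := ⟨_, rfl⟩
    have hY0 : 0 ≤ Y := by rw [hY]; exact Real.rpow_nonneg hs0 _
    have hY3 : Y ^ 3 = s := by rw [hY]; exact cube_cbrt hs0
    have hcY : 8 ≤ c0 * Y := by
      apply le_of_cube (by positivity)
      rw [mul_pow, hY3]
      have e1 : 25600 ≤ C * c0 ^ 3 := by
        rw [div_le_iff₀ hc3] at hCc
        exact hCc
      have e2 : c0 ^ 3 * (C * C / 50) ≤ c0 ^ 3 * s := mul_le_mul_of_nonneg_left hsC hc3.le
      nlinarith only [e1, e2, hC1, mul_le_mul_of_nonneg_right e1 hC0.le]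
    have hx0 : 0 ≤ x := by rw [hx]; positivity
    have hy3 : y ^ 3 = x ^ 2 := by rw [hy]; exact cube_23 hx0
    have hyY : y ≤ 4 * Y := by
      apply le_of_cube (by positivity)
      rw [hy3, mul_pow, hY3]
      have e1 : x * M ≤ 5 * T := by
        rw [hx, div_mul_cancel₀ _ hM0.ne']
        exact hR5
      have e2 : (x * M) ^ 2 ≤ (5 * T) ^ 2 := pow_le_pow_left₀ (by positivity) e1 2
      have e3 : x ^ 2 * (M : ℝ) ^ 2 ≤ (4 ^ 3 * s) * M ^ 2 := by nlinarith only [e2, hTT, hN2, mul_nonneg hs0 (sq_nonneg (M : ℝ))]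
      exact le_of_mul_le_mul_right e3 (by positivity)
    have hcy : c0 / 16 * y ≤ c0 * Y / 4 := by
      have := mul_le_mul_of_nonneg_left hyY (show 0 ≤ c0 / 16 by positivity)
      linarith
    have hA2 := hA s hsn M d hM
    rw [← hY] at hA2
    by_cases hMs : (M : ℝ) ≤ Real.exp (c0 * Y)
    · exact hA2 (Or.inl hMs)
    push Not at hMs
    rcases h with h1 | h1
    · exfalso
      have e1 : Real.exp (c0 / 16 * y) ≤ Real.exp (c0 * Y) := Real.exp_le_exp.mpr (by linarith)
      linarith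
    · apply hA2
      right
      obtain ⟨u, hu⟩ : ∃ u : ℝ, u = Real.exp (-(c0 * Y / 4)) := ⟨_, rfl⟩
      have hu0 : 0 < u := by rw [hu]; exact Real.exp_pos _
      have hu1 : u ≤ 1 / 3 := by
        have e1 : (3 : ℝ) ≤ Real.exp (c0 * Y / 4) := by
          have := Real.add_one_le_exp (c0 * Y / 4)
          linarith
        rw [hu, Real.exp_neg, ← one_div]
        exact one_div_le_one_div_of_le (by norm_num) e1
      have hu4 : Real.exp (-(c0 * Y)) = u ^ 4 := by
        rw [hu, ← Real.exp_nat_mul]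
        congr 1
        push_cast
        ring
      have hM4 : 1 ≤ M * u ^ 4 := by
        rw [← hu4]
        have e1 : Real.exp (c0 * Y) * Real.exp (-(c0 * Y)) = 1 := by
          rw [← Real.exp_add]
          simp
        have := mul_le_mul_of_nonneg_right hMs.le (Real.exp_pos (-(c0 * Y))).le
        linarith
      have huy : u ≤ Real.exp (-(c0 / 16 * y)) := by
        rw [hu]
        exact Real.exp_le_exp.mpr (by linarith)
      rw [hu4]
      obtain ⟨q, hq⟩ : ∃ q : ℝ, q = √(s : ℝ) * M := ⟨_, rfl⟩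
      have hq0 : 0 ≤ q := by rw [hq]; positivity
      have hqq : q * q = s * M ^ 2 := by
        rw [hq]
        have := Real.mul_self_sqrt hs0
        calc √(s : ℝ) * M * (√(s : ℝ) * M) = (√(s : ℝ) * √(s : ℝ)) * M ^ 2 := by ring
          _ = _ := by rw [this]
      rw [← hq]
      have hqT : q ≤ T := by
        by_contra hcon
        push Not at hcon
        have : T * T < q * q := mul_self_lt_mul_self hT0 hcon
        linarith
      have hNq : N = q * q + s * M := by rw [hqq, hN]; ring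
      have hdq : d + q ≤ R := by rw [hR]; linarith
      have hR0 : 0 < R := by linarith
      have e1 : u * R ^ 2 ≤ |((d : ℝ) + 1) * (d + 2) - N| :=
        le_trans (mul_le_mul_of_nonneg_right huy (by positivity)) h1
      have e2 : |((d : ℝ) + 1) * (d + 2) - N| ≤ |(d : ℝ) - q| * R + (3 * d + 2) + s * M := by
        have e3 : ((d : ℝ) + 1) * (d + 2) - N = (d - q) * (d + q) + ((3 * d + 2) + -(s * M)) := by
          rw [hNq]; ring
        rw [e3]
        have e4 : |((d : ℝ) - q) * (d + q)| ≤ |(d : ℝ) - q| * R := by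
          rw [abs_mul, abs_of_nonneg (show 0 ≤ (d : ℝ) + q by linarith)]
          exact mul_le_mul_of_nonneg_left hdq (abs_nonneg _)
        have e5 : |(3 * (d : ℝ) + 2) + -(s * M)| ≤ (3 * d + 2) + s * M := by
          refine (abs_add_le _ _).trans ?_
          rw [abs_neg, abs_of_nonneg (show 0 ≤ 3 * (d : ℝ) + 2 by linarith),
            abs_of_nonneg (show 0 ≤ (s : ℝ) * M by positivity)]
        refine (abs_add_le _ _).trans ?_
        linarith
      have e6 : s * (M : ℝ) ≤ u ^ 4 * R ^ 2 := by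
        have e7 : s * (M : ℝ) ≤ s * M * (M * u ^ 4) := le_mul_of_one_le_right (by positivity) hM4
        have e8 : s * (M : ℝ) * (M * u ^ 4) = u ^ 4 * (s * M ^ 2) := by ring
        have e9 : s * (M : ℝ) ^ 2 ≤ R ^ 2 := by
          rw [← hqq]
          have : q ≤ R := by linarith
          nlinarith only [this, hq0, hR0]
        rw [e8] at e7
        exact e7.trans (mul_le_mul_of_nonneg_left e9 (by positivity))
      have e10 : 3 * (d : ℝ) + 2 ≤ u ^ 4 * R ^ 2 := by
        have e11 : 3 * (d : ℝ) + 2 ≤ 5 * R := by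
          have : (d : ℝ) ≤ R := by rw [hR]; linarith
          linarith
        have e12 : 1000 * M ≤ R := by
          refine le_trans ?_ hCM
          exact mul_le_mul_of_nonneg_right hC1 hM0.le
        have e13 : 5 * R ≤ 5 * R * (M * u ^ 4) := le_mul_of_one_le_right (by linarith) hM4
        have e14 : 5 * R * (M * u ^ 4) = u ^ 4 * (R * (5 * M)) := by ring
        have e15 : R * (5 * M) ≤ R ^ 2 := by nlinarith only [e12, hR0, mul_pos hR0 hM0]
        rw [e14] at e13
        exact (e11.trans e13).trans (mul_le_mul_of_nonneg_left e15 (by positivity))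
      have e16 : u ^ 4 ≤ u / 27 := by
        have e17 : u ^ 3 ≤ (1 / 3) ^ 3 := pow_le_pow_left₀ hu0.le hu1 3
        have e18 : u ^ 4 = u * u ^ 3 := by ring
        rw [e18]
        have e19 := mul_le_mul_of_nonneg_left e17 hu0.le
        linarith only [e19]
      have e19 : u ^ 4 * R ^ 2 ≤ u / 27 * R ^ 2 := mul_le_mul_of_nonneg_right e16 (by positivity)
      have e20 : u / 2 * R * R ≤ |(d : ℝ) - q| * R := by
        have : u / 2 * R * R = u * R ^ 2 / 2 := by ring
        rw [this]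
        have e21 : u / 27 * R ^ 2 = u * R ^ 2 / 27 := by ring
        rw [e21] at e19
        have e22 : 0 ≤ u * R ^ 2 := by positivity
        linarith
      have e23 : u / 2 * R ≤ |(d : ℝ) - q| := le_of_mul_le_mul_right e20 hR0
      refine le_trans ?_ e23
      have e24 : q ≤ R := by linarith
      calc u ^ 4 * q ≤ (u / 27) * R := mul_le_mul e16 e24 hq0 (by positivity)
        _ ≤ u / 2 * R := by
          apply mul_le_mul_of_nonneg_right _ hR0.le
          linarith

end Pool.Agent.Helper94.AM
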