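import Pool.Agent.Helper94.AM.WinC

/-!
# Arbitrary multiplicities (MP_d3128a_ag): the inequality of Nagata with weights
-/

set_option autoImplicit false

namespace Pool.Agent.Helper94.AM

open Finset Pool.Agent.Lead.Sh

/-- the inequality of Nagata with weights -/
theorem genW {K : ℝ} (hK1 : 1 ≤ K) (hK : WinK K) (s : ℕ) (w : ℕ → ℝ) (m : ℕ → ℕ) (d : ℕ)
    (hw : ∀ i < s, 0 ≤ w i ∧ w i ≤ 1) (ℓ y : ℝ) (hℓ : ℓ = √(∑ i ∈ range s, w i ^ 2))
    (hy : y = ℓ ^ (1 / 3 : ℝ)) (hC : 2 ^ 31 * K ≤ ℓ)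
    (h : (1 + Real.exp (-(1 / (6 * K) * y))) * ℓ * d < ∑ i ∈ range s, w i * m i) :
    Inj (triD 0 d) (rows m (range s)) := by
  classical
  set A : Finset ℕ := (range s).filter (fun i => 0 < w i) with hA
  have hAs : A ⊆ range s := filter_subset _ _
  have hsq0 : 0 ≤ ∑ i ∈ range s, w i ^ 2 := sum_nonneg (fun i _ => sq_nonneg _)
  have hℓ2 : ℓ * ℓ = ∑ i ∈ range s, w i ^ 2 := by rw [hℓ]; exact Real.mul_self_sqrt hsq0
  have hC2 : 2147483648 * K ≤ ℓ := by
    refine le_trans (le_of_eq ?_) hC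
    ring
  have hℓb : 2147483648 ≤ ℓ := by linarith
  have hd0 : (0 : ℝ) ≤ d := Nat.cast_nonneg d
  have hs0 : (0 : ℝ) ≤ s := Nat.cast_nonneg s
  obtain ⟨t, ht0, ht3⟩ : ∃ t : ℝ, 0 ≤ t ∧ t ^ 3 = ℓ / (2 * K) :=
    ⟨(ℓ / (2 * K)) ^ (1 / 3 : ℝ), Real.rpow_nonneg (by positivity) _,
      cube_cbrt (by positivity)⟩
  have hKt : K * t ^ 3 = ℓ / 2 := by
    rw [ht3]
    field_simp
  have ht : 1024 ≤ t := by
    apply le_of_cube ht0
    rw [ht3, le_div_iff₀ (by linarith)]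
    linarith
  have hy3 : y ^ 3 = ℓ := by rw [hy]; exact cube_cbrt (by linarith)
  have hyt : y ≤ 2 * K * t := by
    apply le_of_cube (by positivity)
    rw [hy3]
    have e : (2 * K * t) ^ 3 = 8 * K ^ 3 * t ^ 3 := by ring
    have e2 : ℓ = 2 * K * t ^ 3 := by linarith
    rw [e]
    calc ℓ = 2 * K * t ^ 3 := e2
      _ ≤ 8 * K ^ 3 * t ^ 3 := by
        apply mul_le_mul_of_nonneg_right _ (by positivity)
        have : K ≤ K ^ 3 := by
          calc K = K ^ 1 := (pow_one K).symm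
            _ ≤ K ^ 3 := pow_le_pow_right₀ hK1 (by norm_num)
        linarith
  have hcy : 1 / (6 * K) * y ≤ t / 3 := by
    calc 1 / (6 * K) * y ≤ 1 / (6 * K) * (2 * K * t) :=
          mul_le_mul_of_nonneg_left hyt (by positivity)
      _ = t / 3 := by
          field_simp
          norm_num
  have hy0 : 0 ≤ y := by rw [hy]; exact Real.rpow_nonneg (by linarith) _
  set ε : ℝ := Real.exp (-(1 / (6 * K) * y)) with hε
  have hε0 : 0 < ε := Real.exp_pos _
  have hε1 : ε ≤ 1 := by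
    rw [hε]
    apply Real.exp_le_one_iff.mpr
    have : 0 ≤ 1 / (6 * K) * y := by positivity
    linarith
  have het : Real.exp (-t) ≤ ε / 4 := by
    have e1 : Real.exp (-t) = Real.exp (-(t / 3)) * Real.exp (-(2 * t / 3)) := by
      rw [← Real.exp_add]
      congr 1
      ring
    have e2 : Real.exp (-(2 * t / 3)) ≤ 1 / 4 := by
      have e4 : (4 : ℝ) ≤ Real.exp (2 * t / 3) := by
        have := Real.add_one_le_exp (2 * t / 3)
        linarith
      rw [Real.exp_neg, ← one_div]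
      exact one_div_le_one_div_of_le (by norm_num) e4
    have e3 : Real.exp (-(t / 3)) ≤ ε := Real.exp_le_exp.mpr (by linarith)
    rw [e1]
    calc Real.exp (-(t / 3)) * Real.exp (-(2 * t / 3)) ≤ ε * (1 / 4) :=
          mul_le_mul e3 e2 (Real.exp_pos _).le hε0.le
      _ = ε / 4 := by ring
  -- the multiple
  obtain ⟨k, hk1, hk⟩ : ∃ k : ℕ, 1 ≤ k ∧ 5 * s + 2 * ℓ ≤ k * (ε * (ℓ * ℓ)) := by
    refine ⟨⌈(5 * s + 2 * ℓ) / (ε * (ℓ * ℓ))⌉₊ + 1, by omega, ?_⟩
    have e1 : 0 < ε * (ℓ * ℓ) := by positivity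
    have e2 := Nat.le_ceil ((5 * s + 2 * ℓ) / (ε * (ℓ * ℓ)))
    rw [div_le_iff₀ e1] at e2
    push_cast
    linarith
  have hkr : (1 : ℝ) ≤ k := by exact_mod_cast hk1
  have hk0 : (0 : ℝ) < k := by linarith
  set m0 : ℕ → ℕ := fun i => ⌈(k : ℝ) * w i⌉₊ with hm0
  have hm0a : ∀ i, (k : ℝ) * w i ≤ m0 i := fun i => Nat.le_ceil _
  have hm0b : ∀ i ∈ range s, (m0 i : ℝ) ≤ k * w i + 1 := by
    intro i hi
    have h1 := hw i (mem_range.mp hi)
    exact (Nat.ceil_lt_add_one (mul_nonneg hk0.le h1.1)).le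
  have hAm : ∀ i ∈ A, 1 ≤ m0 i ∧ m0 i ≤ k := by
    intro i hi
    rw [hA, mem_filter, mem_range] at hi
    constructor
    · exact Nat.one_le_ceil_iff.mpr (mul_pos hk0 hi.2)
    · apply Nat.ceil_le.mpr
      have := (hw i hi.1).2
      nlinarith
  -- the number of conditions
  set p : ℝ := k * ℓ with hp
  have hp0 : 2147483648 ≤ p := by
    rw [hp]
    nlinarith
  have hUU : (UU m0 A : ℝ) ≤ p * p + 5 * k * s := by
    have e1 : (UU m0 A : ℝ) ≤ ∑ i ∈ range s, ((k : ℝ) ^ 2 * w i ^ 2 + 5 * k) := by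
      unfold UU
      push_cast
      refine le_trans (sum_le_sum (f := fun i => (m0 i : ℝ) * ((m0 i : ℝ) + 1))
        (g := fun i => (k : ℝ) ^ 2 * w i ^ 2 + 5 * k) ?_)
        (sum_le_sum_of_subset_of_nonneg hAs (fun i _ _ => by positivity))
      intro i hi
      have h1 := hm0b i (hAs hi)
      have h2 := hw i (mem_range.mp (hAs hi))
      have h3 : (0 : ℝ) ≤ m0 i := Nat.cast_nonneg _
      have h4 : 0 ≤ (k : ℝ) * w i := mul_nonneg hk0.le h2.1
      have h5 : (k : ℝ) * w i ≤ k := by nlinarith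
      calc (m0 i : ℝ) * (m0 i + 1) ≤ (k * w i + 1) * (k * w i + 1 + 1) := by
            apply mul_le_mul h1 (by linarith) (by linarith) (by linarith)
        _ = (k : ℝ) ^ 2 * w i ^ 2 + 3 * (k * w i) + 2 := by ring
        _ ≤ (k : ℝ) ^ 2 * w i ^ 2 + 5 * k := by linarith
    refine e1.trans (le_of_eq ?_)
    rw [sum_add_distrib, ← mul_sum, ← hℓ2, sum_const, card_range, nsmul_eq_mul, hp]
    ring
  -- the degree
  set z : ℝ := p * (1 + ε) with hz
  have hpz : p ≤ z := by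
    rw [hz]
    nlinarith
  set u : ℕ := ⌊z⌋₊ with hu
  have hu1 : (u : ℝ) ≤ z := Nat.floor_le (by linarith)
  have hu2 : z < u + 1 := Nat.lt_floor_add_one _
  have hu3 : 1 ≤ u := by
    have : (1 : ℝ) ≤ u := by linarith
    exact_mod_cast this
  have hucast : ((u - 1 : ℕ) : ℝ) = (u : ℝ) - 1 := by
    rw [Nat.cast_sub hu3, Nat.cast_one]
  obtain ⟨w1, _, _⟩ := hK A m0 k (u - 1) t hk1 hAm ht (by
    rw [hucast]
    have : K * t ^ 3 * k = p / 2 := by rw [hKt, hp]; ring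
    rw [this]
    linarith)
  rw [hucast] at w1
  have hInd : Ind (triD 0 (u - 1)) (rows m0 A) := by
    apply w1
    have e1 : ((u : ℝ) - 1 + 1) * (u - 1 + 2) = u * (u + 1) := by ring
    rw [e1]
    have e2 : z * z - z ≤ u * (u + 1) := by
      have e3 : (z - 1) * z ≤ u * (u + 1) := by
        apply mul_le_mul (by linarith) hu2.le (by linarith) (by linarith)
      linarith
    have e4 : 0 ≤ z * z - z := by nlinarith
    have e5 : (1 - ε / 4) * (z * z - z) ≤ (1 - Real.exp (-t)) * (u * (u + 1)) :=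
      mul_le_mul (by linarith) e2 e4 (by linarith)
    refine le_trans ?_ e5
    have e6 : p * p + 5 * k * s ≤ p * p * (1 + ε) - 2 * p := by
      have e7 : (k : ℝ) * (5 * s + 2 * ℓ) ≤ k * (k * (ε * (ℓ * ℓ))) :=
        mul_le_mul_of_nonneg_left hk hk0.le
      have e8 : (k : ℝ) * (k * (ε * (ℓ * ℓ))) = ε * (p * p) := by rw [hp]; ring
      rw [e8] at e7
      have e9 : (k : ℝ) * (5 * s + 2 * ℓ) = 5 * k * s + 2 * p := by rw [hp]; ring
      rw [e9] at e7
      linarith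
    refine (hUU.trans e6).trans ?_
    have e10 : (1 - ε / 4) * (z * z - z) = p * p * ((1 - ε / 4) * (1 + ε) ^ 2) -
        p * ((1 - ε / 4) * (1 + ε)) := by
      rw [hz]; ring
    rw [e10]
    have e11 : 1 + ε ≤ (1 - ε / 4) * (1 + ε) ^ 2 := by nlinarith [mul_pos hε0 hε0]
    have e12 : (1 - ε / 4) * (1 + ε) ≤ 2 := by nlinarith
    have e13 : p * p * (1 + ε) ≤ p * p * ((1 - ε / 4) * (1 + ε) ^ 2) :=
      mul_le_mul_of_nonneg_left e11 (by positivity)
    have e14 : p * ((1 - ε / 4) * (1 + ε)) ≤ p * 2 :=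
      mul_le_mul_of_nonneg_left e12 (by linarith)
    linarith
  have hInj : Inj (triD 0 d) (rows m A) := by
    apply inj_bez hu3 hInd (fun i hi => (hAm i hi).1)
    have e1 : ∑ i ∈ A, (k : ℝ) * (w i * m i) = k * ∑ i ∈ range s, w i * m i := by
      rw [mul_sum]
      apply sum_subset hAs
      intro i hi hi'
      have : w i = 0 := by
        have h1 := hw i (mem_range.mp hi)
        by_contra h2
        exact hi' (mem_filter.mpr ⟨hi, lt_of_le_of_ne h1.1 (Ne.symm h2)⟩)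
      rw [this]
      ring
    have e2 : ∑ i ∈ A, (k : ℝ) * (w i * m i) ≤ ∑ i ∈ A, (m0 i : ℝ) * m i := by
      apply sum_le_sum
      intro i _
      have h1 := mul_le_mul_of_nonneg_right (hm0a i) (Nat.cast_nonneg (α := ℝ) (m i))
      linarith
    have e3 : (u : ℝ) * d < ∑ i ∈ A, (m0 i : ℝ) * m i := by
      calc (u : ℝ) * d ≤ z * d := mul_le_mul_of_nonneg_right hu1 hd0
        _ = k * ((1 + ε) * ℓ * d) := by rw [hz, hp]; ring
        _ < k * ∑ i ∈ range s, w i * m i := mul_lt_mul_of_pos_left h hk0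
        _ = ∑ i ∈ A, (k : ℝ) * (w i * m i) := e1.symm
        _ ≤ _ := e2
    exact_mod_cast e3
  apply hInj.mono subset_rfl
  intro r hr
  rw [mem_rows] at hr ⊢
  exact ⟨hAs hr.1, hr.2⟩

end Pool.Agent.Helper94.AM
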