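import Pool.Agent.Helper94.AM.FinA
import Pool.Agent.Helper94.AM.FinE
import Pool.Agent.Helper94.AM.FinW

/-!
# Arbitrary multiplicities (MP_d3128a_ag): assembly
-/

set_option autoImplicit false

namespace Pool.Agent.Helper94.AM

open Finset Pool.Agent.Lead.Sh
open Pool.Agent.Helper43.Hw (NS)

/-- the system is non-special -/
def NSm (s : ℕ) (m : ℕ → ℕ) (d : ℕ) : Prop :=
  ∃ G : MvPolynomial (Fin s × Fin 3) ℂ, G ≠ 0 ∧
    ∀ P : Fin s → Fin 3 → ℂ, (∀ i, P i ≠ 0) →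
      MvPolynomial.eval (fun ij : Fin s × Fin 3 => P ij.1 ij.2) G ≠ 0 →
      (Module.finrank ℂ
        (↥(MvPolynomial.homogeneousSubmodule (Fin 3) ℂ d ⊓
          ⨅ i : Fin s, Submodule.restrictScalars ℂ
            ((Ideal.span {g : MvPolynomial (Fin 3) ℂ |
                g.IsHomogeneous 1 ∧ MvPolynomial.eval (P i) g = 0}) ^ (m (i : ℕ))
              : Ideal (MvPolynomial (Fin 3) ℂ)))) : ℤ)
        = max ((Nat.choose (d + 2) 2 : ℤ) -
            ∑ i : Fin s, (Nat.choose (m (i : ℕ) + 1) 2 : ℤ)) 0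

lemma nsm_of_fill {s : ℕ} {m : ℕ → ℕ} {d : ℕ} (h : Fill s m d) : NSm s m d :=
  Pool.Agent.Lead.Rw.concl s m d h

lemma nsm_of_ns {s M d : ℕ} {m : ℕ → ℕ} (hm : ∀ i < s, m i = M) (h : NS s M d) : NSm s m d := by
  obtain ⟨G, hG, h2⟩ := h
  refine ⟨G, hG, ?_⟩
  intro P hP hPG
  have h3 := h2 P hP hPG
  have e : (fun i : Fin s => Submodule.restrictScalars ℂ
            ((Ideal.span {g : MvPolynomial (Fin 3) ℂ |
                g.IsHomogeneous 1 ∧ MvPolynomial.eval (P i) g = 0}) ^ (m (i : ℕ))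
              : Ideal (MvPolynomial (Fin 3) ℂ))) =
      (fun i : Fin s => Submodule.restrictScalars ℂ
            ((Ideal.span {g : MvPolynomial (Fin 3) ℂ |
                g.IsHomogeneous 1 ∧ MvPolynomial.eval (P i) g = 0}) ^ M
              : Ideal (MvPolynomial (Fin 3) ℂ))) := by
    funext i
    rw [hm i i.2]
  have e2 : ∑ i : Fin s, (Nat.choose (m (i : ℕ) + 1) 2 : ℤ) = s * (Nat.choose (M + 1) 2 : ℤ) := by
    have : ∀ i ∈ (univ : Finset (Fin s)),
        (Nat.choose (m (i : ℕ) + 1) 2 : ℤ) = (Nat.choose (M + 1) 2 : ℤ) := by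
      intro i _
      rw [hm i i.2]
    rw [sum_congr rfl this, sum_const, card_univ, Fintype.card_fin, nsmul_eq_mul]
  rw [e, e2]
  exact h3

/-- the two hypotheses -/
def HypA (c C : ℝ) (s : ℕ) (m : ℕ → ℕ) (d : ℕ) : Prop :=
  ∃ N R θ : ℝ, N = ∑ i ∈ range s, (m i : ℝ) * (m i + 1) ∧ R = d + √N ∧ C * m 0 ≤ R ∧
    (θ = (R / m 0) ^ (1 / 3 : ℝ) ∨ (∀ i < s, m i = m 0) ∧ θ = (R / m 0) ^ (2 / 3 : ℝ)) ∧
    ((m 0 : ℝ) ≤ Real.exp (c * θ) ∨
      Real.exp (-(c * θ)) * R ^ 2 ≤ |((d : ℝ) + 1) * (d + 2) - N|)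

/-- the two hypotheses -/
def HypB (c C : ℝ) (s : ℕ) (m : ℕ → ℕ) (d : ℕ) : Prop :=
  ∃ (w : ℕ → ℝ) (ℓ θ : ℝ), (∀ i < s, 0 ≤ w i ∧ w i ≤ 1) ∧ ℓ = √(∑ i ∈ range s, w i ^ 2) ∧ C ≤ ℓ ∧
    (θ = ℓ ^ (1 / 3 : ℝ) ∨ (∀ i < s, w i = w 0) ∧ θ = ℓ ^ (2 / 3 : ℝ)) ∧
    (1 + Real.exp (-(c * θ))) * ℓ * d < ∑ i ∈ range s, w i * m i

theorem mainC (hU : UWI) (hEW : Full) : ∃ c C : ℝ, 0 < c ∧ 0 < C ∧
    ∀ (s : ℕ) (m : ℕ → ℕ) (d : ℕ), Antitone m → (∀ i, s ≤ i → m i = 0) →
      (HypA c C s m d ∨ HypB c C s m d) → NSm s m d := by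
  obtain ⟨K, hK1, hK⟩ := winK hU
  obtain ⟨c1, C1, hc1, hC1, hE⟩ := genE hEW
  obtain ⟨c2, hc2, n0, hB⟩ := mainB hEW
  have hK0 : 0 < K := by linarith
  obtain ⟨c0, hc0⟩ : ∃ c0 : ℝ, c0 = 1 / (6 * K) := ⟨_, rfl⟩
  obtain ⟨C0, hC0⟩ : ∃ C0 : ℝ, C0 = 2 ^ 32 * K := ⟨_, rfl⟩
  have hc0p : 0 < c0 := by rw [hc0]; positivity
  have hC0p : 1 ≤ C0 := by
    rw [hC0]
    have : (1 : ℝ) ≤ 2 ^ 32 := one_le_pow₀ (by norm_num)
    exact one_le_mul_of_one_le_of_one_le this hK1
  have hC0' : 2 ^ 31 * K ≤ C0 := by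
    rw [hC0]
    apply mul_le_mul_of_nonneg_right _ hK0.le
    exact pow_le_pow_right₀ (by norm_num) (by norm_num)
  obtain ⟨c, hcp, k0, k1, k2⟩ : ∃ c : ℝ, 0 < c ∧ c ≤ c0 ∧ c ≤ c1 ∧ c ≤ c2 :=
    ⟨min c0 (min c1 c2), lt_min hc0p (lt_min hc1 hc2), min_le_left _ _,
      (min_le_right _ _).trans (min_le_left _ _), (min_le_right _ _).trans (min_le_right _ _)⟩
  obtain ⟨C, j0, j1, j2⟩ : ∃ C : ℝ, C0 ≤ C ∧ C1 ≤ C ∧ (n0 : ℝ) ≤ C :=
    ⟨max C0 (max C1 n0), le_max_left _ _, (le_max_left _ _).trans (le_max_right _ _),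
      (le_max_right _ _).trans (le_max_right _ _)⟩
  refine ⟨c, C, hcp, by linarith, ?_⟩
  intro s m d hm hz h
  rcases h with ⟨N, R, θ, hN, hR, hCR, hθ, hh⟩ | ⟨w, ℓ, θ, hw, hℓ, hCℓ, hθ, hh⟩
  · have hm0 : (0 : ℝ) ≤ m 0 := Nat.cast_nonneg _
    have hR0 : 0 ≤ R := by
      have : 0 ≤ √N := Real.sqrt_nonneg N
      have : (0 : ℝ) ≤ d := Nat.cast_nonneg d
      linarith
    have hx0 : 0 ≤ R / m 0 := div_nonneg hR0 hm0
    rcases hθ with hθ | ⟨heq, hθ⟩
    · have hθ0 : 0 ≤ θ := by rw [hθ]; exact Real.rpow_nonneg hx0 _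
      have hcθ : c * θ ≤ c0 * θ := mul_le_mul_of_nonneg_right k0 hθ0
      apply nsm_of_fill
      apply genA hK1 hK s m d hm N R (R / m 0) θ _ hR rfl hθ
      · rw [← hC0]
        exact (mul_le_mul_of_nonneg_right j0 hm0).trans hCR
      · rw [← hc0]
        rcases hh with hh | hh
        · left
          exact hh.trans (Real.exp_le_exp.mpr hcθ)
        · right
          refine le_trans ?_ hh
          apply mul_le_mul_of_nonneg_right _ (by positivity)
          exact Real.exp_le_exp.mpr (by linarith)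
      · rw [hN]
        unfold UU
        push_cast
        rfl
    · rcases Nat.eq_zero_or_pos (m 0) with h0 | hM
      · apply nsm_of_fill
        apply fill_zero
        intro i
        have := hm (Nat.zero_le i)
        omega
      · have hθ0 : 0 ≤ θ := by rw [hθ]; exact Real.rpow_nonneg hx0 _
        have hcθ : c * θ ≤ c1 * θ := mul_le_mul_of_nonneg_right k1 hθ0
        apply nsm_of_ns heq
        apply hE s (m 0) d N R (R / m 0) θ hM _ hR rfl hθ
        · exact (mul_le_mul_of_nonneg_right j1 hm0).trans hCR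
        · rcases hh with hh | hh
          · left
            exact hh.trans (Real.exp_le_exp.mpr hcθ)
          · right
            refine le_trans ?_ hh
            apply mul_le_mul_of_nonneg_right _ (by positivity)
            exact Real.exp_le_exp.mpr (by linarith)
        · rw [hN]
          have : ∀ i ∈ range s, (m i : ℝ) * (m i + 1) = (m 0 : ℝ) * (m 0 + 1) := by
            intro i hi
            rw [heq i (mem_range.mp hi)]
          rw [sum_congr rfl this, sum_const, card_range, nsmul_eq_mul]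
  · apply nsm_of_fill
    apply fill_inj
    have hℓ1 : 1 ≤ ℓ := by linarith
    have hd0 : (0 : ℝ) ≤ d := Nat.cast_nonneg d
    have hsq0 : 0 ≤ ∑ i ∈ range s, w i ^ 2 := sum_nonneg (fun i _ => sq_nonneg _)
    have hℓ2 : ℓ * ℓ = ∑ i ∈ range s, w i ^ 2 := by rw [hℓ]; exact Real.mul_self_sqrt hsq0
    rcases hθ with hθ | ⟨heq, hθ⟩
    · have hθ0 : 0 ≤ θ := by rw [hθ]; exact Real.rpow_nonneg (by linarith) _
      have hcθ : c * θ ≤ c0 * θ := mul_le_mul_of_nonneg_right k0 hθ0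
      apply genW hK1 hK s w m d hw ℓ θ hℓ hθ
      · linarith
      · rw [← hc0]
        refine lt_of_le_of_lt ?_ hh
        apply mul_le_mul_of_nonneg_right _ hd0
        apply mul_le_mul_of_nonneg_right _ (by linarith)
        have : Real.exp (-(c0 * θ)) ≤ Real.exp (-(c * θ)) := Real.exp_le_exp.mpr (by linarith)
        linarith
    · have hs1 : 1 ≤ s := by
        by_contra hcon
        have : s = 0 := by omega
        rw [this, sum_range_zero] at hℓ2
        nlinarith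
      obtain ⟨a, ha⟩ : ∃ a : ℝ, a = w 0 := ⟨_, rfl⟩
      rw [← ha] at heq
      have hs0 : (0 : ℝ) ≤ s := Nat.cast_nonneg s
      have ha01 : 0 ≤ a ∧ a ≤ 1 := by
        have := hw 0 (by omega)
        rw [← ha] at this
        exact this
      have hℓs : ℓ * ℓ = s * a ^ 2 := by
        rw [hℓ2]
        have : ∀ i ∈ range s, w i ^ 2 = a ^ 2 := by
          intro i hi
          rw [heq i (mem_range.mp hi)]
        rw [sum_congr rfl this, sum_const, card_range, nsmul_eq_mul]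
      have ha0 : 0 < a := by
        rcases lt_or_eq_of_le ha01.1 with h1 | h1
        · exact h1
        · rw [← h1] at hℓs
          nlinarith
      have ha2 : a ^ 2 ≤ 1 := by nlinarith [ha01.2]
      have hℓs2 : ℓ * ℓ ≤ s := by
        rw [hℓs]
        nlinarith
      have hsn : n0 ≤ s := by
        have : (n0 : ℝ) ≤ s := by nlinarith
        exact_mod_cast this
      have hroot : ℓ = √(s : ℝ) * a := by
        have h1 : (√(s : ℝ) * a) ^ 2 = ℓ ^ 2 := by
          rw [mul_pow, Real.sq_sqrt hs0, pow_two ℓ, hℓs]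
        have h2 : 0 ≤ √(s : ℝ) * a := by positivity
        exact ((sq_eq_sq₀ h2 (by linarith)).mp h1).symm
      apply hB s hsn m d
      obtain ⟨Y, hY⟩ : ∃ Y : ℝ, Y = (s : ℝ) ^ (1 / 3 : ℝ) := ⟨_, rfl⟩
      have hY0 : 0 ≤ Y := by rw [hY]; exact Real.rpow_nonneg hs0 _
      have hY3 : Y ^ 3 = s := by rw [hY]; exact cube_cbrt hs0
      have hθY : θ ≤ Y := by
        apply le_of_cube hY0
        rw [hY3, hθ, cube_23 (by linarith), pow_two]
        exact hℓs2
      rw [← hY]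
      have hθ0 : 0 ≤ θ := by rw [hθ]; exact Real.rpow_nonneg (by linarith) _
      have hcθ : c * θ ≤ c2 * Y := mul_le_mul k2 hθY hθ0 hc2.le
      have e1 : Real.exp (-(c2 * Y)) ≤ Real.exp (-(c * θ)) := Real.exp_le_exp.mpr (by linarith)
      have e2 : ∑ i ∈ range s, w i * m i = a * ∑ i ∈ range s, (m i : ℝ) := by
        rw [mul_sum]
        apply sum_congr rfl
        intro i hi
        rw [heq i (mem_range.mp hi)]
      rw [e2, hroot] at hh
      have e3 : a * ((1 + Real.exp (-(c * θ))) * √(s : ℝ) * d) <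
          a * ∑ i ∈ range s, (m i : ℝ) := by
        refine lt_of_le_of_lt (le_of_eq ?_) hh
        ring
      have e4 := lt_of_mul_lt_mul_left e3 ha0.le
      refine lt_of_le_of_lt ?_ e4
      apply mul_le_mul_of_nonneg_right _ hd0
      apply mul_le_mul_of_nonneg_right _ (Real.sqrt_nonneg _)
      linarith

end Pool.Agent.Helper94.AM
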