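import Pool.Agent.Lead.ShMain

/-!
# All multiplicities (MP_d3128a_ag): adding a system with independent conditions

`Sur P s m d`: the polynomials of degree at most `d` in two variables take all jets of order `m k` at the
points `P k`, `k ∈ s`. Main lemma: `Sur m₀ (D - 1)` and `Sur m d`, `D ≤ d + 2`, imply
`Sur (m + m₀) (d + D)`.
-/

set_option autoImplicit false

namespace Pool.Agent.Helper94.AM

open Finset Pool.Agent.Lead.Sh

/-- polynomials in two variables -/
abbrev R2 := MvPolynomial (Fin 2) ℂ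

/-- translation -/
noncomputable def tau (p : ℂ × ℂ) : R2 →ₐ[ℂ] R2 :=
  MvPolynomial.aeval (fun i : Fin 2 => MvPolynomial.X i + MvPolynomial.C (if i = 0 then p.1 else p.2))

/-- the polynomials vanishing to order `n` at `p` -/
noncomputable def Jp (p : ℂ × ℂ) (n : ℕ) : Ideal R2 :=
  ((MvPolynomial.idealOfVars (Fin 2) ℂ) ^ n).comap (tau p)

/-- all jets are taken by polynomials of degree at most `d` -/
def Sur (P : ℕ → ℂ × ℂ) (s : Finset ℕ) (m : ℕ → ℕ) (d : ℕ) : Prop :=
  ∀ g : ℕ → R2, ∃ f : R2, f.totalDegree ≤ d ∧ ∀ k ∈ s, f - g k ∈ Jp (P k) (m k)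

lemma mem_Jp (p : ℂ × ℂ) (n : ℕ) (f : R2) :
    f ∈ Jp p n ↔ ∀ u : Fin 2 →₀ ℕ, Finsupp.degree u < n → MvPolynomial.coeff u (tau p f) = 0 := by
  unfold Jp
  rw [Ideal.mem_comap, MvPolynomial.mem_pow_idealOfVars_iff']

lemma Jp_mul {p : ℂ × ℂ} {a b : ℕ} {f g : R2} (hf : f ∈ Jp p a) (hg : g ∈ Jp p b) :
    f * g ∈ Jp p (a + b) := by
  unfold Jp at *
  rw [Ideal.mem_comap] at *
  rw [map_mul, pow_add]
  exact Ideal.mul_mem_mul hf hg

lemma Jp_anti {p : ℂ × ℂ} {a b : ℕ} (h : a ≤ b) : Jp p b ≤ Jp p a := by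
  unfold Jp
  exact Ideal.comap_mono (Ideal.pow_le_pow_right h)

lemma Jp_zero (p : ℂ × ℂ) : Jp p 0 = ⊤ := by
  unfold Jp
  rw [pow_zero, Ideal.one_eq_top, Ideal.comap_top]

lemma pow_le_Jp (p : ℂ × ℂ) (n : ℕ) : (Jp p 1) ^ n ≤ Jp p n := by
  unfold Jp
  rw [pow_one]
  exact Ideal.le_comap_pow _ n

lemma lin_mem (p : ℂ × ℂ) (a b : ℂ) :
    MvPolynomial.C a * (MvPolynomial.X 0 - MvPolynomial.C p.1) +
      MvPolynomial.C b * (MvPolynomial.X 1 - MvPolynomial.C p.2) ∈ Jp p 1 := by
  unfold Jp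
  rw [Ideal.mem_comap, pow_one]
  have h0 : tau p (MvPolynomial.X 0 - MvPolynomial.C p.1) = MvPolynomial.X 0 := by
    unfold tau
    rw [map_sub, MvPolynomial.aeval_X, MvPolynomial.aeval_C]
    simp [MvPolynomial.algebraMap_eq]
  have h1 : tau p (MvPolynomial.X 1 - MvPolynomial.C p.2) = MvPolynomial.X 1 := by
    unfold tau
    rw [map_sub, MvPolynomial.aeval_X, MvPolynomial.aeval_C]
    simp [MvPolynomial.algebraMap_eq]
  rw [map_add, map_mul, map_mul, h0, h1]
  apply Ideal.add_mem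
  · exact Ideal.mul_mem_left _ _ (Ideal.subset_span ⟨0, rfl⟩)
  · exact Ideal.mul_mem_left _ _ (Ideal.subset_span ⟨1, rfl⟩)

lemma coprime1 {p q : ℂ × ℂ} (h : p ≠ q) : IsCoprime (Jp p 1) (Jp q 1) := by
  rw [Ideal.isCoprime_iff_exists]
  by_cases h1 : p.1 = q.1
  · have h2 : p.2 ≠ q.2 := fun h3 => h (Prod.ext h1 h3)
    have h3 : q.2 - p.2 ≠ 0 := sub_ne_zero.mpr h2.symm
    refine ⟨_, lin_mem p 0 ((q.2 - p.2)⁻¹), _, lin_mem q 0 (-(q.2 - p.2)⁻¹), ?_⟩
    have e : MvPolynomial.C (σ := Fin 2) ((q.2 - p.2)⁻¹) *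
        (MvPolynomial.C q.2 - MvPolynomial.C p.2) = 1 := by
      rw [← map_sub, ← map_mul, inv_mul_cancel₀ h3, map_one]
    rw [map_neg, ← e]
    simp only [map_zero, zero_mul, zero_add]
    ring
  · have h3 : q.1 - p.1 ≠ 0 := sub_ne_zero.mpr (fun h4 => h1 h4.symm)
    refine ⟨_, lin_mem p ((q.1 - p.1)⁻¹) 0, _, lin_mem q (-(q.1 - p.1)⁻¹) 0, ?_⟩
    have e : MvPolynomial.C (σ := Fin 2) ((q.1 - p.1)⁻¹) *
        (MvPolynomial.C q.1 - MvPolynomial.C p.1) = 1 := by
      rw [← map_sub, ← map_mul, inv_mul_cancel₀ h3, map_one]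
    rw [map_neg, ← e]
    simp only [map_zero, zero_mul, add_zero]
    ring

lemma coprime {p q : ℂ × ℂ} (h : p ≠ q) (a b : ℕ) : IsCoprime (Jp p a) (Jp q b) := by
  have h1 : IsCoprime ((Jp p 1) ^ a) ((Jp q 1) ^ b) := (coprime1 h).pow
  rw [Ideal.isCoprime_iff_sup_eq] at h1 ⊢
  rw [eq_top_iff, ← h1]
  exact sup_le_sup (pow_le_Jp p a) (pow_le_Jp q b)

/-- Chinese remainder theorem -/
lemma crt (P : ℕ → ℂ × ℂ) (s : Finset ℕ) (hP : Set.InjOn P (s : Set ℕ)) (M : ℕ → ℕ) (g : ℕ → R2) :
    ∃ w : R2, ∀ k ∈ s, w - g k ∈ Jp (P k) (M k) := by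
  have h := Ideal.exists_forall_sub_mem_ideal (ι := ↥s) (I := fun k => Jp (P k) (M k)) (by
    intro k l hkl
    apply coprime
    intro h
    exact hkl (Subtype.ext (hP k.2 l.2 h))) (fun k => g k)
  obtain ⟨w, hw⟩ := h
  exact ⟨w, fun k hk => hw ⟨k, hk⟩⟩

/-- reduction of one degree -/
lemma red1 (D : ℕ) (hD : 1 ≤ D) (a b : R2)
    (ha : (a - MvPolynomial.X 0 ^ D).totalDegree ≤ D - 1)
    (hb : (b - MvPolynomial.X 1 ^ D).totalDegree ≤ D - 1) (N : ℕ) (hN : 2 * D - 1 ≤ N) (w : R2)
    (hw : w.totalDegree ≤ N) :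
    ∃ A B : R2, A.totalDegree ≤ N - D ∧ B.totalDegree ≤ N - D ∧
      (w - (a * A + b * B)).totalDegree ≤ N - 1 := by
  classical
  have key : ∀ u ∈ w.support, ∃ A B : R2, A.totalDegree ≤ N - D ∧ B.totalDegree ≤ N - D ∧
      (MvPolynomial.monomial u (MvPolynomial.coeff u w) - (a * A + b * B)).totalDegree ≤ N - 1 := by
    intro u hu
    have hdeg : Finsupp.degree u ≤ N := by
      refine le_trans ?_ hw
      rw [MvPolynomial.totalDegree]
      exact Finset.le_sup (f := fun s : Fin 2 →₀ ℕ => s.sum fun _ e => e) hu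
    have hdeg2 : Finsupp.degree u = u 0 + u 1 := by
      rw [Finsupp.degree_eq_sum, Fin.sum_univ_two]
    set c := MvPolynomial.coeff u w with hc
    by_cases h1 : Finsupp.degree u ≤ N - 1
    · refine ⟨0, 0, by simp, by simp, ?_⟩
      rw [mul_zero, mul_zero, add_zero, sub_zero]
      exact le_trans (MvPolynomial.totalDegree_monomial_le u c) h1
    · have h2 : D ≤ u 0 ∨ D ≤ u 1 := by omega
      rcases h2 with h2 | h2
      · set v : Fin 2 →₀ ℕ := u - Finsupp.single 0 D with hv
        have huv : u = Finsupp.single 0 D + v := by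
          rw [hv, add_tsub_cancel_of_le]
          rw [Finsupp.single_le_iff]
          exact h2
        have hvdeg : Finsupp.degree v + D = Finsupp.degree u := by
          rw [huv, map_add, Finsupp.degree_single, add_comm]
        refine ⟨MvPolynomial.monomial v c, 0, ?_, by simp, ?_⟩
        · refine le_trans (MvPolynomial.totalDegree_monomial_le v c) ?_
          show Finsupp.degree v ≤ N - D
          omega
        · have e : MvPolynomial.monomial u c - (a * MvPolynomial.monomial v c + b * 0) =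
              -((a - MvPolynomial.X 0 ^ D) * MvPolynomial.monomial v c) := by
            rw [MvPolynomial.X_pow_eq_monomial, sub_mul, MvPolynomial.monomial_mul, one_mul, ← huv]
            ring
          rw [e, MvPolynomial.totalDegree_neg]
          refine le_trans (MvPolynomial.totalDegree_mul _ _) ?_
          have h3 : (MvPolynomial.monomial v c).totalDegree ≤ Finsupp.degree v :=
            MvPolynomial.totalDegree_monomial_le v c
          omega
      · set v : Fin 2 →₀ ℕ := u - Finsupp.single 1 D with hv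
        have huv : u = Finsupp.single 1 D + v := by
          rw [hv, add_tsub_cancel_of_le]
          rw [Finsupp.single_le_iff]
          exact h2
        have hvdeg : Finsupp.degree v + D = Finsupp.degree u := by
          rw [huv, map_add, Finsupp.degree_single, add_comm]
        refine ⟨0, MvPolynomial.monomial v c, by simp, ?_, ?_⟩
        · refine le_trans (MvPolynomial.totalDegree_monomial_le v c) ?_
          show Finsupp.degree v ≤ N - D
          omega
        · have e : MvPolynomial.monomial u c - (a * 0 + b * MvPolynomial.monomial v c) =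
              -((b - MvPolynomial.X 1 ^ D) * MvPolynomial.monomial v c) := by
            rw [MvPolynomial.X_pow_eq_monomial, sub_mul, MvPolynomial.monomial_mul, one_mul, ← huv]
            ring
          rw [e, MvPolynomial.totalDegree_neg]
          refine le_trans (MvPolynomial.totalDegree_mul _ _) ?_
          have h3 : (MvPolynomial.monomial v c).totalDegree ≤ Finsupp.degree v :=
            MvPolynomial.totalDegree_monomial_le v c
          omega
  choose! A B hA hB hAB using key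
  refine ⟨∑ u ∈ w.support, A u, ∑ u ∈ w.support, B u, ?_, ?_, ?_⟩
  · exact MvPolynomial.totalDegree_finsetSum_le fun u hu => hA u hu
  · exact MvPolynomial.totalDegree_finsetSum_le fun u hu => hB u hu
  · have e : w - (a * ∑ u ∈ w.support, A u + b * ∑ u ∈ w.support, B u) =
        ∑ u ∈ w.support, (MvPolynomial.monomial u (MvPolynomial.coeff u w) - (a * A u + b * B u)) := by
      rw [Finset.sum_sub_distrib, Finset.sum_add_distrib, ← Finset.mul_sum, ← Finset.mul_sum,
        MvPolynomial.support_sum_monomial_coeff]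
    rw [e]
    exact MvPolynomial.totalDegree_finsetSum_le fun u hu => hAB u hu

/-- reduction to degree `2 D - 2` -/
lemma red (D : ℕ) (hD : 1 ≤ D) (a b : R2)
    (ha : (a - MvPolynomial.X 0 ^ D).totalDegree ≤ D - 1)
    (hb : (b - MvPolynomial.X 1 ^ D).totalDegree ≤ D - 1) (N : ℕ) :
    ∀ w : R2, w.totalDegree ≤ N →
      ∃ A B : R2, (w - (a * A + b * B)).totalDegree ≤ 2 * D - 2 := by
  induction N with
  | zero =>
    intro w hw
    refine ⟨0, 0, ?_⟩
    rw [mul_zero, mul_zero, add_zero, sub_zero]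
    omega
  | succ N ih =>
    intro w hw
    by_cases h : 2 * D - 1 ≤ N + 1
    · obtain ⟨A, B, _, _, h3⟩ := red1 D hD a b ha hb (N + 1) h w hw
      obtain ⟨A', B', h4⟩ := ih _ h3
      refine ⟨A + A', B + B', ?_⟩
      have e : w - (a * (A + A') + b * (B + B')) =
          w - (a * A + b * B) - (a * A' + b * B') := by ring
      rw [e]
      exact h4
    · refine ⟨0, 0, ?_⟩
      rw [mul_zero, mul_zero, add_zero, sub_zero]
      omega

lemma Sur.mono {P : ℕ → ℂ × ℂ} {s : Finset ℕ} {m m' : ℕ → ℕ} {d d' : ℕ} (h : Sur P s m d)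
    (hm : ∀ k ∈ s, m' k ≤ m k) (hd : d ≤ d') : Sur P s m' d' := by
  intro g
  obtain ⟨f, hf, hf2⟩ := h g
  exact ⟨f, le_trans hf hd, fun k hk => Jp_anti (hm k hk) (hf2 k hk)⟩

/-- the key lemma -/
theorem key {P : ℕ → ℂ × ℂ} {s : Finset ℕ} (hP : Set.InjOn P (s : Set ℕ)) {m m0 : ℕ → ℕ} {d D : ℕ}
    (hD : 1 ≤ D) (h0 : Sur P s m0 (D - 1)) (h : Sur P s m d) (hd : D ≤ d + 2) :
    Sur P s (fun k => m k + m0 k) (d + D) := by
  intro g
  obtain ⟨a', ha', ha2⟩ := h0 (fun _ => -MvPolynomial.X 0 ^ D)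
  obtain ⟨b', hb', hb2⟩ := h0 (fun _ => -MvPolynomial.X 1 ^ D)
  set a := a' + MvPolynomial.X 0 ^ D with ha
  set b := b' + MvPolynomial.X 1 ^ D with hb
  have ha3 : (a - MvPolynomial.X 0 ^ D).totalDegree ≤ D - 1 := by
    rw [ha, add_sub_cancel_right]; exact ha'
  have hb3 : (b - MvPolynomial.X 1 ^ D).totalDegree ≤ D - 1 := by
    rw [hb, add_sub_cancel_right]; exact hb'
  have ha4 : ∀ k ∈ s, a ∈ Jp (P k) (m0 k) := by
    intro k hk
    have := ha2 k hk
    rw [sub_neg_eq_add] at this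
    exact this
  have hb4 : ∀ k ∈ s, b ∈ Jp (P k) (m0 k) := by
    intro k hk
    have := hb2 k hk
    rw [sub_neg_eq_add] at this
    exact this
  have haD : a.totalDegree ≤ D := by
    rw [ha]
    refine le_trans (MvPolynomial.totalDegree_add _ _) (max_le (by omega) ?_)
    exact le_of_eq (MvPolynomial.totalDegree_X_pow _ _)
  have hbD : b.totalDegree ≤ D := by
    rw [hb]
    refine le_trans (MvPolynomial.totalDegree_add _ _) (max_le (by omega) ?_)
    exact le_of_eq (MvPolynomial.totalDegree_X_pow _ _)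
  obtain ⟨w, hw⟩ := crt P s hP (fun k => m k + m0 k) g
  obtain ⟨A', B', hv⟩ := red D hD a b ha3 hb3 w.totalDegree w le_rfl
  obtain ⟨A, hA, hA2⟩ := h (fun _ => A')
  obtain ⟨B, hB, hB2⟩ := h (fun _ => B')
  refine ⟨(w - (a * A' + b * B')) + (a * A + b * B), ?_, ?_⟩
  · refine le_trans (MvPolynomial.totalDegree_add _ _) (max_le (by omega) ?_)
    refine le_trans (MvPolynomial.totalDegree_add _ _) (max_le ?_ ?_)
    · refine le_trans (MvPolynomial.totalDegree_mul _ _) ?_
      omega
    · refine le_trans (MvPolynomial.totalDegree_mul _ _) ?_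
      omega
  · intro k hk
    have e : (w - (a * A' + b * B')) + (a * A + b * B) - g k =
        (w - g k) + ((A - A') * a + (B - B') * b) := by ring
    rw [e]
    apply Ideal.add_mem
    · exact hw k hk
    · apply Ideal.add_mem
      · exact Jp_mul (hA2 k hk) (ha4 k hk)
      · exact Jp_mul (hB2 k hk) (hb4 k hk)

/-- iteration of the key lemma -/
theorem iter {P : ℕ → ℂ × ℂ} {s : Finset ℕ} (hP : Set.InjOn P (s : Set ℕ)) {m m0 : ℕ → ℕ} {d D : ℕ}
    (hD : 1 ≤ D) (h0 : Sur P s m0 (D - 1)) (h : Sur P s m d) (hd : D ≤ d + 2) (q : ℕ) :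
    Sur P s (fun k => m k + q * m0 k) (d + q * D) := by
  induction q with
  | zero =>
    have e1 : (fun k => m k + 0 * m0 k) = m := by funext k; rw [zero_mul, add_zero]
    rw [e1, zero_mul, add_zero]
    exact h
  | succ q ih =>
    have h1 := key hP hD h0 ih (by omega)
    have e1 : (fun k => m k + q * m0 k + m0 k) = (fun k => m k + (q + 1) * m0 k) := by
      funext k; ring
    have e2 : d + q * D + D = d + (q + 1) * D := by ring
    rw [e1, e2] at h1
    exact h1

end Pool.Agent.Helper94.AM
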