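import Pool.Agent.Helper94.AM.Alg

/-!
# All multiplicities (MP_d3128a_ag): translation between matrices and polynomials
-/

set_option autoImplicit false

namespace Pool.Agent.Helper94.AM

open Finset Pool.Agent.Lead.Sh

lemma e2_eta (u : Fin 2 →₀ ℕ) : e2 (u 0) (u 1) = u := by
  ext i
  fin_cases i
  · exact e2_0 _ _
  · exact e2_1 _ _

lemma tau_X0 (p : ℂ × ℂ) : tau p (MvPolynomial.X 0) = MvPolynomial.X 0 + MvPolynomial.C p.1 := by
  unfold tau
  rw [MvPolynomial.aeval_X, if_pos rfl]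

lemma tau_X1 (p : ℂ × ℂ) : tau p (MvPolynomial.X 1) = MvPolynomial.X 1 + MvPolynomial.C p.2 := by
  unfold tau
  rw [MvPolynomial.aeval_X, if_neg (by decide)]

/-- the coefficients of a translated monomial -/
lemma coeff_tau (p : ℂ × ℂ) (a b i j : ℕ) (t : ℂ) :
    MvPolynomial.coeff (e2 i j) (tau p (MvPolynomial.monomial (e2 a b) t)) =
      t * E (i, j) (a, b) p.1 p.2 := by
  classical
  have h1 : tau p (MvPolynomial.monomial (e2 a b) t) =
      ∑ k ∈ range (a + 1), ∑ l ∈ range (b + 1),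
        MvPolynomial.monomial (e2 k l) (t * E (k, l) (a, b) p.1 p.2) := by
    have hC : tau p (MvPolynomial.C t) = MvPolynomial.C t := by
      unfold tau
      rw [MvPolynomial.aeval_C, MvPolynomial.algebraMap_eq]
    rw [monomial_e2, map_mul, map_mul, map_pow, map_pow, tau_X0, tau_X1, hC, add_pow, add_pow,
      Finset.sum_mul_sum, Finset.mul_sum]
    apply sum_congr rfl
    intro k _
    rw [Finset.mul_sum]
    apply sum_congr rfl
    intro l _
    rw [monomial_e2]
    unfold E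
    simp only [map_mul, map_pow, map_natCast]
    ring
  rw [h1, MvPolynomial.coeff_sum]
  by_cases hij : i ∈ range (a + 1) ∧ j ∈ range (b + 1)
  · rw [sum_eq_single i, MvPolynomial.coeff_sum, sum_eq_single j]
    · rw [MvPolynomial.coeff_monomial, if_pos rfl]
    · intro j' _ hj'
      rw [MvPolynomial.coeff_monomial, if_neg]
      intro he; exact hj' (e2_inj he).2
    · intro hn; exact absurd hij.2 hn
    · intro i' _ hi'
      rw [MvPolynomial.coeff_sum]
      apply sum_eq_zero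
      intro j' _
      rw [MvPolynomial.coeff_monomial, if_neg]
      intro he; exact hi' (e2_inj he).1
    · intro hn; exact absurd hij.1 hn
  · rw [mem_range, mem_range] at hij
    have hz : E (i, j) (a, b) p.1 p.2 = 0 := by
      unfold E
      by_cases hi : i < a + 1
      · rw [Nat.choose_eq_zero_of_lt (show b < j by omega)]; simp
      · rw [Nat.choose_eq_zero_of_lt (show a < i by omega)]; simp
    rw [hz, mul_zero]
    apply sum_eq_zero
    intro i' hi'
    rw [MvPolynomial.coeff_sum]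
    apply sum_eq_zero
    intro j' hj'
    rw [MvPolynomial.coeff_monomial, if_neg]
    intro he
    obtain ⟨e1, e2'⟩ := e2_inj he
    rw [mem_range] at hi' hj'
    omega

/-- the polynomial with given coefficients -/
noncomputable def Pl (d : ℕ) (c : ℕ × ℕ → ℂ) : R2 :=
  ∑ q ∈ triD 0 d, MvPolynomial.monomial (e2 q.1 q.2) (c q)

lemma coeff_tau_Pl (p : ℂ × ℂ) (d : ℕ) (c : ℕ × ℕ → ℂ) (o : ℕ × ℕ) :
    MvPolynomial.coeff (e2 o.1 o.2) (tau p (Pl d c)) = ∑ q ∈ triD 0 d, c q * E o q p.1 p.2 := by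
  unfold Pl
  rw [map_sum, MvPolynomial.coeff_sum]
  apply sum_congr rfl
  intro q _
  exact coeff_tau p q.1 q.2 o.1 o.2 (c q)

lemma totalDegree_Pl (d : ℕ) (c : ℕ × ℕ → ℂ) : (Pl d c).totalDegree ≤ d := by
  unfold Pl
  apply MvPolynomial.totalDegree_finsetSum_le
  intro q hq
  rw [mem_triD] at hq
  have h : (MvPolynomial.monomial (e2 q.1 q.2) (c q)).totalDegree ≤ Finsupp.degree (e2 q.1 q.2) :=
    MvPolynomial.totalDegree_monomial_le _ _
  rw [e2_degree] at h
  omega

lemma coeff_Pl (d : ℕ) (c : ℕ × ℕ → ℂ) {q : ℕ × ℕ} (hq : q ∈ triD 0 d) :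
    MvPolynomial.coeff (e2 q.1 q.2) (Pl d c) = c q := by
  classical
  unfold Pl
  rw [MvPolynomial.coeff_sum, sum_eq_single q]
  · rw [MvPolynomial.coeff_monomial, if_pos rfl]
  · intro q' _ hq'
    rw [MvPolynomial.coeff_monomial, if_neg]
    intro he
    obtain ⟨h1, h2⟩ := e2_inj he
    exact hq' (Prod.ext h1 h2)
  · intro hn; exact absurd hq hn

lemma eq_Pl {d : ℕ} {f : R2} (hf : f.totalDegree ≤ d) :
    f = Pl d (fun q => MvPolynomial.coeff (e2 q.1 q.2) f) := by
  classical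
  ext u
  obtain ⟨q, rfl⟩ : ∃ q : ℕ × ℕ, u = e2 q.1 q.2 := ⟨(u 0, u 1), (e2_eta u).symm⟩
  by_cases hq : q ∈ triD 0 d
  · rw [coeff_Pl d _ hq]
  · have h0 : MvPolynomial.coeff (e2 q.1 q.2) f = 0 := by
      by_contra hne
      have h1 : e2 q.1 q.2 ∈ f.support := MvPolynomial.mem_support_iff.mpr hne
      have h2 : Finsupp.degree (e2 q.1 q.2) ≤ f.totalDegree := by
        rw [MvPolynomial.totalDegree]
        exact Finset.le_sup (f := fun s : Fin 2 →₀ ℕ => s.sum fun _ e => e) h1
      rw [e2_degree] at h2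
      apply hq
      rw [mem_triD]
      omega
    rw [h0]
    unfold Pl
    rw [MvPolynomial.coeff_sum]
    symm
    apply sum_eq_zero
    intro q' hq'
    rw [MvPolynomial.coeff_monomial, if_neg]
    intro he
    obtain ⟨h1, h2⟩ := e2_inj he
    exact hq ((Prod.ext h1 h2 : q' = q) ▸ hq')

lemma mem_Jp2 (p : ℂ × ℂ) (n : ℕ) (f : R2) :
    f ∈ Jp p n ↔ ∀ o : ℕ × ℕ, o.1 + o.2 < n → MvPolynomial.coeff (e2 o.1 o.2) (tau p f) = 0 := by
  rw [mem_Jp]
  constructor
  · intro h o ho
    apply h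
    rw [e2_degree]
    exact ho
  · intro h u hu
    rw [← e2_eta u] at hu ⊢
    rw [e2_degree] at hu
    exact h (u 0, u 1) hu

/-- rank of the matrix with independent rows -/
lemma rank_of_ind {d : ℕ} {R : Finset Row} {P : ℕ → ℂ × ℂ} (hI : IndAt (triD 0 d) R P) :
    (Mx d R P).rank = R.card := by
  rw [← Matrix.rank_transpose]
  set M := Mx d R P with hM
  have hinj : Function.Injective M.transpose.mulVecLin := by
    rw [injective_iff_map_eq_zero]
    intro l hl
    set l' : Row → ℂ := fun r => if h : r ∈ R then l ⟨r, h⟩ else 0 with hl'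
    have hl2 : ∀ r : ↥R, l' r = l r := by
      intro r; simp only [hl']; rw [dif_pos r.2]
    have := hI l' (by
      intro p hp
      have h3 := congrFun hl ⟨p, hp⟩
      rw [Matrix.mulVecLin_apply, Matrix.mulVec, dotProduct, Pi.zero_apply] at h3
      refine Eq.trans ?_ h3
      rw [← sum_coe_sort R]
      apply sum_congr rfl
      intro r _
      rw [hl2, mul_comm]; rfl)
    funext r
    rw [← hl2, this r r.2]; rfl
  rw [Matrix.rank, LinearMap.finrank_range_of_inj hinj, Module.finrank_fintype_fun_eq_card,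
    Fintype.card_coe]

/-- independent conditions take all values -/
lemma surj_of_ind {d : ℕ} {R : Finset Row} {P : ℕ → ℂ × ℂ} (hI : IndAt (triD 0 d) R P)
    (v : Row → ℂ) :
    ∃ c : ℕ × ℕ → ℂ, ∀ r ∈ R, ∑ q ∈ triD 0 d, c q * E r.2 q (P r.1).1 (P r.1).2 = v r := by
  have hr := rank_of_ind hI
  have htop : LinearMap.range (Mx d R P).mulVecLin = ⊤ := by
    apply Submodule.eq_top_of_finrank_eq
    rw [Module.finrank_fintype_fun_eq_card, Fintype.card_coe]
    exact hr
  have hs : Function.Surjective (Mx d R P).mulVecLin := LinearMap.range_eq_top.mp htop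
  obtain ⟨c, hc⟩ := hs (fun r => v r)
  refine ⟨ext0 d c, ?_⟩
  intro r hrR
  have h3 := congrFun hc ⟨r, hrR⟩
  rw [Matrix.mulVecLin_apply, Matrix.mulVec, dotProduct] at h3
  rw [← h3, ← sum_coe_sort (triD 0 d)]
  apply sum_congr rfl
  intro p _
  rw [ext0_coe, mul_comm]; rfl

theorem sur_of_ind {P : ℕ → ℂ × ℂ} {s : Finset ℕ} {m : ℕ → ℕ} {d : ℕ}
    (hI : IndAt (triD 0 d) (rows m s) P) : Sur P s m d := by
  intro g
  obtain ⟨c, hc⟩ := surj_of_ind hI
    (fun r => MvPolynomial.coeff (e2 r.2.1 r.2.2) (tau (P r.1) (g r.1)))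
  refine ⟨Pl d c, totalDegree_Pl d c, ?_⟩
  intro k hk
  rw [mem_Jp2]
  intro o ho
  rw [map_sub, MvPolynomial.coeff_sub, coeff_tau_Pl, sub_eq_zero]
  exact hc (k, o) (by rw [mem_rows]; exact ⟨hk, ho⟩)

theorem ind_of_sur {P : ℕ → ℂ × ℂ} {s : Finset ℕ} {m : ℕ → ℕ} {d : ℕ} (hS : Sur P s m d) :
    IndAt (triD 0 d) (rows m s) P := by
  classical
  intro l hl r0 hr0
  obtain ⟨f, hf, hf2⟩ := hS (fun k => if k = r0.1 then
    (MvPolynomial.X 0 - MvPolynomial.C (P k).1) ^ r0.2.1 *
      (MvPolynomial.X 1 - MvPolynomial.C (P k).2) ^ r0.2.2 else 0)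
  have hr0' := hr0
  rw [mem_rows] at hr0'
  set c : ℕ × ℕ → ℂ := fun q => MvPolynomial.coeff (e2 q.1 q.2) f with hc
  have hfc : f = Pl d c := eq_Pl hf
  have hval : ∀ r ∈ rows m s, ∑ q ∈ triD 0 d, c q * E r.2 q (P r.1).1 (P r.1).2 =
      if r = r0 then 1 else 0 := by
    intro r hr
    rw [mem_rows] at hr
    have h1 := hf2 r.1 hr.1
    rw [mem_Jp2] at h1
    have h2 := h1 r.2 hr.2
    rw [map_sub, MvPolynomial.coeff_sub, sub_eq_zero, hfc, coeff_tau_Pl] at h2
    rw [h2]
    by_cases hk : r.1 = r0.1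
    · rw [if_pos hk, map_mul, map_pow, map_pow, map_sub, map_sub, tau_X0, tau_X1]
      have hC : ∀ t : ℂ, tau (P r.1) (MvPolynomial.C t) = MvPolynomial.C t := by
        intro t
        unfold tau
        rw [MvPolynomial.aeval_C, MvPolynomial.algebraMap_eq]
      rw [hC, hC, add_sub_cancel_right, add_sub_cancel_right]
      have e : MvPolynomial.X 0 ^ r0.2.1 * MvPolynomial.X 1 ^ r0.2.2 =
          (MvPolynomial.monomial (e2 r0.2.1 r0.2.2) 1 : R2) := by
        rw [monomial_e2, map_one, one_mul]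
      rw [e, MvPolynomial.coeff_monomial]
      by_cases hr2 : r = r0
      · rw [if_pos hr2, hr2, if_pos rfl]
      · rw [if_neg hr2, if_neg]
        intro he
        obtain ⟨h3, h4⟩ := e2_inj he
        exact hr2 (Prod.ext hk (Prod.ext h3.symm h4.symm))
    · rw [if_neg hk, map_zero, MvPolynomial.coeff_zero, if_neg]
      intro h
      exact hk (congrArg Prod.fst h)
  have h5 : ∑ r ∈ rows m s, l r * (∑ q ∈ triD 0 d, c q * E r.2 q (P r.1).1 (P r.1).2) = 0 := by
    have h6 : ∑ r ∈ rows m s, l r * (∑ q ∈ triD 0 d, c q * E r.2 q (P r.1).1 (P r.1).2) =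
        ∑ q ∈ triD 0 d, c q * (∑ r ∈ rows m s, l r * E r.2 q (P r.1).1 (P r.1).2) := by
      simp_rw [Finset.mul_sum]
      rw [Finset.sum_comm]
      apply sum_congr rfl
      intro q _
      apply sum_congr rfl
      intro r _
      ring
    rw [h6]
    apply sum_eq_zero
    intro q hq
    rw [hl q hq, mul_zero]
  rw [sum_congr rfl (fun r hr => by rw [hval r hr])] at h5
  simp only [mul_ite, mul_one, mul_zero] at h5
  rw [sum_ite_eq', if_pos hr0] at h5
  exact h5

/-- injectivity in terms of polynomials -/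
theorem injAt_iff {P : ℕ → ℂ × ℂ} {s : Finset ℕ} {m : ℕ → ℕ} {d : ℕ} :
    InjAt (triD 0 d) (rows m s) P ↔
      ∀ f : R2, f.totalDegree ≤ d → (∀ k ∈ s, f ∈ Jp (P k) (m k)) → f = 0 := by
  constructor
  · intro h f hf hf2
    have hfc : f = Pl d (fun q => MvPolynomial.coeff (e2 q.1 q.2) f) := eq_Pl hf
    have h1 := h (fun q => MvPolynomial.coeff (e2 q.1 q.2) f) (by
      intro r hr
      rw [mem_rows] at hr
      have h2 := hf2 r.1 hr.1
      rw [mem_Jp2] at h2
      have h3 := h2 r.2 hr.2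
      rw [hfc, coeff_tau_Pl] at h3
      exact h3)
    rw [hfc]
    unfold Pl
    apply sum_eq_zero
    intro q hq
    show (MvPolynomial.monomial (e2 q.1 q.2)) (MvPolynomial.coeff (e2 q.1 q.2) f) = 0
    rw [h1 q hq, map_zero]
  · intro h c hc q hq
    have h1 := h (Pl d c) (totalDegree_Pl d c) (by
      intro k hk
      rw [mem_Jp2]
      intro o ho
      rw [coeff_tau_Pl]
      exact hc (k, o) (by rw [mem_rows]; exact ⟨hk, ho⟩))
    rw [← coeff_Pl d c hq, h1, MvPolynomial.coeff_zero]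

end Pool.Agent.Helper94.AM
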