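import Pool.Agent.Helper94.AM.Main

/-!
# Arbitrary multiplicities (MP_d3128a_ag): clusters of points

A point of multiplicity `a` may be replaced by a cluster of points whose conditions are independent in
degree `a - 1` (or which admits no curve of degree `a - 1`).
-/

set_option autoImplicit false

namespace Pool.Agent.Helper94.AM

open Finset Pool.Agent.Lead.Sh

/-! ## Translations -/

lemma tau_tau (p v : ℂ × ℂ) (f : R2) : tau p (tau v f) = tau (p + v) f := by
  have : (tau p).comp (tau v) = tau (p + v) := by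
    apply MvPolynomial.algHom_ext
    intro i
    rw [AlgHom.comp_apply]
    unfold tau
    rw [MvPolynomial.aeval_X, map_add, MvPolynomial.aeval_X, MvPolynomial.aeval_C,
      MvPolynomial.algebraMap_eq, MvPolynomial.aeval_X, add_assoc, ← map_add]
    congr 2
    fin_cases i
    · simp
    · simp
  exact DFunLike.congr_fun this f

lemma tau_zero (f : R2) : tau 0 f = f := by
  have : tau 0 = AlgHom.id ℂ R2 := by
    apply MvPolynomial.algHom_ext
    intro i
    unfold tau
    rw [MvPolynomial.aeval_X]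
    simp
  rw [this]; rfl

lemma mem_Jp_tau (p v : ℂ × ℂ) (n : ℕ) (f : R2) : tau v f ∈ Jp p n ↔ f ∈ Jp (p + v) n := by
  rw [mem_Jp, mem_Jp, tau_tau]

lemma totalDegree_tau_le (v : ℂ × ℂ) {f : R2} {d : ℕ} (hf : f.totalDegree ≤ d) :
    (tau v f).totalDegree ≤ d := by
  rw [MvPolynomial.as_sum f, map_sum]
  apply MvPolynomial.totalDegree_finsetSum_le
  intro u hu
  have hu' : Finsupp.degree u ≤ d := le_trans (MvPolynomial.le_totalDegree hu) hf
  unfold tau
  rw [MvPolynomial.aeval_monomial, MvPolynomial.algebraMap_eq]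
  refine le_trans (MvPolynomial.totalDegree_mul _ _) ?_
  rw [MvPolynomial.totalDegree_C, zero_add]
  refine le_trans (MvPolynomial.totalDegree_finset_prod _ _) ?_
  refine le_trans ?_ hu'
  rw [Finsupp.degree_apply]
  apply sum_le_sum
  intro i _
  refine le_trans (MvPolynomial.totalDegree_pow _ _) ?_
  have h1 : (MvPolynomial.X i + MvPolynomial.C (if i = 0 then v.1 else v.2) : R2).totalDegree ≤ 1 := by
    refine le_trans (MvPolynomial.totalDegree_add _ _) ?_
    rw [MvPolynomial.totalDegree_X, MvPolynomial.totalDegree_C]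
    simp
  calc u i * _ ≤ u i * 1 := Nat.mul_le_mul_left _ h1
    _ = u i := mul_one _

/-- translation of the points -/
lemma Sur.translate {P : ℕ → ℂ × ℂ} {s : Finset ℕ} {m : ℕ → ℕ} {d : ℕ} (h : Sur P s m d) (v : ℂ × ℂ) :
    Sur (fun k => P k - v) s m d := by
  intro g
  obtain ⟨f, hf, hf2⟩ := h (fun k => tau (-v) (g k))
  refine ⟨tau v f, totalDegree_tau_le v hf, ?_⟩
  intro k hk
  have h1 := hf2 k hk
  have e : tau v f - g k = tau v (f - tau (-v) (g k)) := by
    rw [map_sub, tau_tau, add_neg_cancel, tau_zero]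
  rw [e, mem_Jp_tau, sub_add_cancel]
  exact h1

lemma injAt_translate {P : ℕ → ℂ × ℂ} {s : Finset ℕ} {m : ℕ → ℕ} {d : ℕ}
    (h : InjAt (triD 0 d) (rows m s) P) (v : ℂ × ℂ) :
    InjAt (triD 0 d) (rows m s) (fun k => P k - v) := by
  rw [injAt_iff] at h ⊢
  intro f hf hf2
  have h1 := h (tau (-v) f) (totalDegree_tau_le _ hf) (by
    intro k hk
    rw [mem_Jp_tau, ← sub_eq_add_neg]
    exact hf2 k hk)
  have h2 : tau v (tau (-v) f) = f := by rw [tau_tau, add_neg_cancel, tau_zero]
  rw [← h2, h1, map_zero]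

/-! ## A point at the origin removes a corner -/

lemma E_origin (o p : ℕ × ℕ) : E o p 0 0 = if o = p then 1 else 0 := by
  unfold E
  by_cases h : o = p
  · subst h
    simp
  · rw [if_neg h]
    by_cases h1 : o.1 = p.1
    · have h2 : o.2 ≠ p.2 := fun h2 => h (Prod.ext h1 h2)
      rcases lt_or_gt_of_ne h2 with h3 | h3
      · rw [zero_pow (by omega : p.2 - o.2 ≠ 0), mul_zero]
      · rw [Nat.choose_eq_zero_of_lt h3]
        simp
    · rcases lt_or_gt_of_ne h1 with h3 | h3
      · rw [zero_pow (by omega : p.1 - o.1 ≠ 0)]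
        simp
      · rw [Nat.choose_eq_zero_of_lt h3]
        simp

lemma mem_corner {a d : ℕ} (ha : 1 ≤ a) (p : ℕ × ℕ) :
    p ∈ triD 0 d \ triD 0 (a - 1) ↔ p.1 + p.2 ≤ d ∧ a ≤ p.1 + p.2 := by
  rw [mem_sdiff, mem_triD, mem_triD]
  omega

theorem corner_inj {s : Finset ℕ} {m : ℕ → ℕ} {d k : ℕ} (hk : k ∈ s) (ha : 1 ≤ m k)
    (h : Inj (triD 0 d) (rows m s)) :
    Inj (triD 0 d \ triD 0 (m k - 1)) (rows m (s.erase k)) := by
  obtain ⟨P0, hP0⟩ := h
  have hP := injAt_translate hP0 (P0 k)
  set P : ℕ → ℂ × ℂ := fun j => P0 j - P0 k with hPdef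
  have hPk : P k = 0 := sub_self _
  refine ⟨P, ?_⟩
  intro c hc p hp
  have hp' := (mem_corner ha p).mp hp
  have key := hP (fun q => if q ∈ triD 0 d \ triD 0 (m k - 1) then c q else 0) ?_ p
    (mem_sdiff.mp hp).1
  · rw [if_pos hp] at key
    exact key
  · intro r hr
    rw [mem_rows] at hr
    have hsum : ∑ q ∈ triD 0 d, (if q ∈ triD 0 d \ triD 0 (m k - 1) then c q else 0) *
        E r.2 q (P r.1).1 (P r.1).2 =
        ∑ q ∈ triD 0 d \ triD 0 (m k - 1), c q * E r.2 q (P r.1).1 (P r.1).2 := by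
      rw [← sum_subset (sdiff_subset (s := triD 0 d) (t := triD 0 (m k - 1)))]
      · apply sum_congr rfl
        intro q hq
        rw [if_pos hq]
      · intro q _ hq
        rw [if_neg hq, zero_mul]
    rw [hsum]
    by_cases h1 : r.1 = k
    · rw [h1, hPk]
      apply sum_eq_zero
      intro q hq
      have hq' := (mem_corner ha q).mp hq
      show c q * E r.2 q 0 0 = 0
      rw [E_origin, if_neg, mul_zero]
      intro h2
      rw [← h2] at hq'
      have h3 := hr.2
      rw [h1] at h3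
      omega
    · apply hc
      rw [mem_rows, mem_erase]
      exact ⟨⟨h1, hr.1⟩, hr.2⟩

theorem corner_ind {s : Finset ℕ} {m : ℕ → ℕ} {d k : ℕ} (hk : k ∈ s) (ha : 1 ≤ m k)
    (h : Ind (triD 0 d) (rows m s)) :
    Ind (triD 0 d \ triD 0 (m k - 1)) (rows m (s.erase k)) := by
  classical
  obtain ⟨P0, hP0⟩ := h
  have hP := ind_of_sur ((sur_of_ind hP0).translate (P0 k))
  set P : ℕ → ℂ × ℂ := fun j => P0 j - P0 k with hPdef
  have hPk : P k = 0 := sub_self _
  refine ⟨P, ?_⟩
  intro l hl r hr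
  have hr' := hr
  rw [mem_rows, mem_erase] at hr'
  set R' := rows m (s.erase k) with hR'
  have hRk : ∀ r : Row, r ∈ rows m s ↔ (r.1 = k ∧ r.2.1 + r.2.2 < m k) ∨ r ∈ R' := by
    intro r
    rw [hR', mem_rows, mem_rows, mem_erase]
    constructor
    · rintro ⟨h1, h2⟩
      by_cases h3 : r.1 = k
      · left
        rw [h3] at h2
        exact ⟨h3, h2⟩
      · right
        exact ⟨⟨h3, h1⟩, h2⟩
    · rintro (⟨h1, h2⟩ | ⟨⟨h1, h2⟩, h3⟩)
      · rw [h1]
        exact ⟨hk, h2⟩
      · exact ⟨h2, h3⟩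
  -- the extension of `l`
  set L : Row → ℂ := fun r => if r.1 = k then
    -(∑ r' ∈ R', l r' * E r'.2 r.2 (P r'.1).1 (P r'.1).2) else l r with hL
  have key := hP L ?_ r (by rw [mem_rows]; exact ⟨hr'.1.2, hr'.2⟩)
  · rw [hL] at key
    simp only at key
    rw [if_neg hr'.1.1] at key
    exact key
  · intro p hp
    -- the rows of the point `k`
    have hsplit : rows m s = (rows m s).filter (fun r => r.1 = k) ∪ R' := by
      ext r
      rw [mem_union, mem_filter, hRk]
      constructor
      · rintro (h1 | h1)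
        · left
          exact ⟨Or.inl h1, h1.1⟩
        · right
          exact h1
      · rintro (h1 | h1)
        · exact h1.1
        · right
          exact h1
    have hdisj : Disjoint ((rows m s).filter (fun r => r.1 = k)) R' := by
      rw [disjoint_left]
      intro r h1 h2
      rw [mem_filter] at h1
      rw [hR', mem_rows, mem_erase] at h2
      exact h2.1.1 h1.2
    rw [hsplit, sum_union hdisj]
    have h1 : ∑ r ∈ R', L r * E r.2 p (P r.1).1 (P r.1).2 =
        ∑ r ∈ R', l r * E r.2 p (P r.1).1 (P r.1).2 := by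
      apply sum_congr rfl
      intro r hr
      rw [hR', mem_rows, mem_erase] at hr
      rw [hL]
      simp only
      rw [if_neg hr.1.1]
    have h2 : ∑ r ∈ (rows m s).filter (fun r => r.1 = k), L r * E r.2 p (P r.1).1 (P r.1).2 =
        if p.1 + p.2 < m k then L (k, p) else 0 := by
      have h3 : ∀ r ∈ (rows m s).filter (fun r => r.1 = k), L r * E r.2 p (P r.1).1 (P r.1).2 =
          if r = (k, p) then L (k, p) else 0 := by
        intro r hr
        rw [mem_filter] at hr
        rw [hr.2, hPk]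
        show L r * E r.2 p 0 0 = _
        rw [E_origin]
        by_cases h4 : r.2 = p
        · have h5 : r = (k, p) := Prod.ext hr.2 h4
          rw [if_pos h4, if_pos h5, mul_one, h5]
        · rw [if_neg h4, mul_zero, if_neg]
          intro h5
          exact h4 (by rw [h5])
      rw [sum_congr rfl h3, sum_ite_eq']
      by_cases h4 : p.1 + p.2 < m k
      · rw [if_pos h4, if_pos]
        rw [mem_filter, mem_rows]
        exact ⟨⟨hk, h4⟩, rfl⟩
      · rw [if_neg h4, if_neg]
        rw [mem_filter, mem_rows]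
        rintro ⟨⟨_, h5⟩, _⟩
        exact h4 h5
    rw [h1, h2]
    by_cases h4 : p.1 + p.2 < m k
    · rw [if_pos h4, hL]
      simp only [if_true]
      exact neg_add_cancel _
    · rw [if_neg h4, zero_add]
      apply hl
      rw [mem_corner ha]
      rw [mem_triD] at hp
      omega

/-! ## Clusters -/

lemma wt_one (p : ℕ × ℕ) : wt (1, 1) p = p.1 + p.2 := by
  unfold wt
  omega

lemma rows_update {m : ℕ → ℕ} {k a : ℕ} {s : Finset ℕ} (hk : k ∉ s) :
    rows (Function.update m k a) s = rows m s := by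
  ext r
  rw [mem_rows, mem_rows]
  constructor
  · rintro ⟨h1, h2⟩
    rw [Function.update_of_ne (fun h => hk (by rw [← h]; exact h1))] at h2
    exact ⟨h1, h2⟩
  · rintro ⟨h1, h2⟩
    refine ⟨h1, ?_⟩
    rw [Function.update_of_ne (fun h => hk (by rw [← h]; exact h1))]
    exact h2

lemma triD_union {a d : ℕ} (ha : a ≤ d + 1) :
    triD 0 (a - 1) ∪ (triD 0 d \ triD 0 (a - 1)) = triD 0 d := by
  apply union_sdiff_of_subset
  intro p hp
  rw [mem_triD] at hp ⊢
  omega

theorem cluster_ind {s B : Finset ℕ} {m : ℕ → ℕ} {d a k : ℕ} (hB : B ⊆ s) (hk : k ∈ B) (ha : 1 ≤ a)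
    (had : a ≤ d + 1) (h1 : Ind (triD 0 (a - 1)) (rows m B))
    (h2 : Ind (triD 0 d) (rows (Function.update m k a) (insert k (s \ B)))) :
    Ind (triD 0 d) (rows m s) := by
  have hkn : k ∉ s \ B := fun h => (mem_sdiff.mp h).2 hk
  have hm : Function.update m k a k = a := Function.update_self _ _ _
  have h3 := corner_ind (mem_insert_self k (s \ B)) (by rw [hm]; exact ha) h2
  rw [hm, erase_insert hkn, rows_update hkn] at h3
  have h4 := Ind.glue (w := (1, 1)) (c' := a - 1) h1 h3 (by
      intro p hp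
      rw [mem_triD] at hp
      rw [wt_one]
      exact hp.2) (by
      intro p hp
      rw [mem_corner ha] at hp
      rw [wt_one]
      omega) (by
      intro r hr r' hr'
      rw [mem_rows] at hr hr'
      intro h
      rw [h] at hr
      exact (mem_sdiff.mp hr'.1).2 hr.1)
  rw [triD_union had, ← rows_union, union_sdiff_of_subset hB] at h4
  exact h4

theorem cluster_inj {s B : Finset ℕ} {m : ℕ → ℕ} {d a k : ℕ} (hB : B ⊆ s) (hk : k ∈ B) (ha : 1 ≤ a)
    (had : a ≤ d + 1) (h1 : Inj (triD 0 (a - 1)) (rows m B))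
    (h2 : Inj (triD 0 d) (rows (Function.update m k a) (insert k (s \ B)))) :
    Inj (triD 0 d) (rows m s) := by
  have hkn : k ∉ s \ B := fun h => (mem_sdiff.mp h).2 hk
  have hm : Function.update m k a k = a := Function.update_self _ _ _
  have h3 := corner_inj (mem_insert_self k (s \ B)) (by rw [hm]; exact ha) h2
  rw [hm, erase_insert hkn, rows_update hkn] at h3
  have h4 := Inj.glue (w := (1, 1)) (c' := a - 1) h1 h3 (by
      intro p hp
      rw [mem_triD] at hp
      rw [wt_one]
      exact hp.2) (by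
      intro p hp
      rw [mem_corner ha] at hp
      rw [wt_one]
      omega) (by
      intro r hr r' hr'
      rw [mem_rows] at hr hr'
      intro h
      rw [h] at hr
      exact (mem_sdiff.mp hr'.1).2 hr.1)
  rw [triD_union had, ← rows_union, union_sdiff_of_subset hB] at h4
  exact h4

/-! ## Multiples and the theorem of Bézout -/

theorem ind_mul {s : Finset ℕ} {m0 : ℕ → ℕ} {D : ℕ} (hD : 1 ≤ D)
    (h0 : Ind (triD 0 (D - 1)) (rows m0 s)) (h1 : ∀ k ∈ s, 1 ≤ m0 k) {q : ℕ} (hq : 1 ≤ q) :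
    Ind (triD 0 (q * D - 1)) (rows (fun k => q * m0 k) s) := by
  obtain ⟨P, hP⟩ := h0
  have s0 := sur_of_ind hP
  have hinj := inj_of_sur s0 h1
  have h2 := ind_of_sur (iter hinj hD s0 s0 (by omega) (q - 1))
  refine ⟨P, ?_⟩
  obtain ⟨q', rfl⟩ : ∃ q', q = q' + 1 := ⟨q - 1, by omega⟩
  have e1 : D - 1 + (q' + 1 - 1) * D = (q' + 1) * D - 1 := by
    rw [Nat.add_sub_cancel]
    have : (q' + 1) * D = q' * D + D := by ring
    omega
  have e2 : (fun k => m0 k + (q' + 1 - 1) * m0 k) = fun k => (q' + 1) * m0 k := by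
    funext k
    rw [Nat.add_sub_cancel]
    ring
  rw [e1, e2] at h2
  exact h2

theorem inj_bez {s : Finset ℕ} {m m0 : ℕ → ℕ} {d D : ℕ} (hD : 1 ≤ D)
    (h0 : Ind (triD 0 (D - 1)) (rows m0 s)) (h1 : ∀ k ∈ s, 1 ≤ m0 k)
    (h : D * d < ∑ k ∈ s, m0 k * m k) : Inj (triD 0 d) (rows m s) := by
  obtain ⟨P, hP⟩ := h0
  have s0 := sur_of_ind hP
  have hinj := inj_of_sur s0 h1
  refine ⟨P, injAt_iff.mpr ?_⟩
  intro f hf hf2
  by_contra hne
  have := bez hinj hD s0 hne (show f ∈ W P s m d from ⟨hf, hf2⟩)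
  omega

end Pool.Agent.Helper94.AM
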