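import Pool.Agent.Helper94.AM.Bridge

/-!
# All multiplicities (MP_d3128a_ag): emptiness below the ray of a nef class, by counting dimensions
-/

set_option autoImplicit false

namespace Pool.Agent.Helper94.AM

open Finset Pool.Agent.Lead.Sh

/-- the polynomials of degree at most `t` with multiplicity at least `m k` at `P k` -/
noncomputable def W (P : ℕ → ℂ × ℂ) (s : Finset ℕ) (m : ℕ → ℕ) (t : ℕ) : Submodule ℂ R2 where
  carrier := {f | f.totalDegree ≤ t ∧ ∀ k ∈ s, f ∈ Jp (P k) (m k)}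
  add_mem' := by
    rintro a b ⟨ha, ha2⟩ ⟨hb, hb2⟩
    refine ⟨le_trans (MvPolynomial.totalDegree_add _ _) (max_le ha hb), ?_⟩
    intro k hk
    exact Ideal.add_mem _ (ha2 k hk) (hb2 k hk)
  zero_mem' := ⟨by simp, fun k _ => Ideal.zero_mem _⟩
  smul_mem' := by
    rintro c a ⟨ha, ha2⟩
    refine ⟨le_trans (MvPolynomial.totalDegree_smul_le _ _) ha, ?_⟩
    intro k hk
    rw [MvPolynomial.smul_eq_C_mul]
    exact Ideal.mul_mem_left _ _ (ha2 k hk)

lemma mem_W {P : ℕ → ℂ × ℂ} {s : Finset ℕ} {m : ℕ → ℕ} {t : ℕ} {f : R2} :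
    f ∈ W P s m t ↔ f.totalDegree ≤ t ∧ ∀ k ∈ s, f ∈ Jp (P k) (m k) := Iff.rfl

/-- parametrisation of the polynomials -/
noncomputable def T2 (d : ℕ) : (↥(triD 0 d) → ℂ) →ₗ[ℂ] R2 where
  toFun c := Pl d (ext0 d c)
  map_add' a b := by
    unfold Pl
    rw [← sum_add_distrib]
    apply sum_congr rfl
    intro p hp
    rw [← map_add]
    congr 1
    unfold ext0
    rw [dif_pos hp, dif_pos hp, dif_pos hp]; rfl
  map_smul' a b := by
    unfold Pl
    rw [RingHom.id_apply, smul_sum]
    apply sum_congr rfl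
    intro p hp
    rw [← map_smul]
    congr 1
    unfold ext0
    rw [dif_pos hp, dif_pos hp]; rfl

lemma T2_inj (d : ℕ) : Function.Injective (T2 d) := by
  rw [injective_iff_map_eq_zero]
  intro c hc
  funext p
  have h1 := coeff_Pl d (ext0 d c) p.2
  have h2 : Pl d (ext0 d c) = 0 := hc
  rw [h2, ext0_coe] at h1
  rw [← h1]; simp

lemma W_eq (P : ℕ → ℂ × ℂ) (s : Finset ℕ) (m : ℕ → ℕ) (d : ℕ) :
    W P s m d = Submodule.map (T2 d) (LinearMap.ker (Mx d (rows m s) P).mulVecLin) := by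
  have key : ∀ c : ↥(triD 0 d) → ℂ, c ∈ LinearMap.ker (Mx d (rows m s) P).mulVecLin ↔
      Pl d (ext0 d c) ∈ W P s m d := by
    intro c
    rw [LinearMap.mem_ker, Matrix.mulVecLin_apply, mem_W]
    constructor
    · intro h
      refine ⟨totalDegree_Pl d _, ?_⟩
      intro k hk
      rw [mem_Jp2]
      intro o ho
      have hr : ((k, o) : Row) ∈ rows m s := by rw [mem_rows]; exact ⟨hk, ho⟩
      have h3 := congrFun h ⟨(k, o), hr⟩
      rw [Matrix.mulVec, dotProduct, Pi.zero_apply] at h3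
      rw [coeff_tau_Pl]
      refine Eq.trans ?_ h3
      rw [← sum_coe_sort (triD 0 d)]
      apply sum_congr rfl
      intro p _
      rw [ext0_coe, mul_comm]; rfl
    · rintro ⟨_, h⟩
      funext r
      rw [Matrix.mulVec, dotProduct, Pi.zero_apply]
      have hr := r.2
      rw [mem_rows] at hr
      have h4 := h (r : Row).1 hr.1
      rw [mem_Jp2] at h4
      have h5 := h4 (r : Row).2 hr.2
      rw [coeff_tau_Pl] at h5
      refine Eq.trans ?_ h5
      rw [← sum_coe_sort (triD 0 d)]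
      apply sum_congr rfl
      intro p _
      rw [ext0_coe, mul_comm]; rfl
  ext F
  rw [Submodule.mem_map]
  constructor
  · intro hF
    have h3 := eq_Pl hF.1
    set c : ↥(triD 0 d) → ℂ := fun p => MvPolynomial.coeff (e2 (p : ℕ × ℕ).1 (p : ℕ × ℕ).2) F with hc
    have h4 : Pl d (ext0 d c) = F := by
      conv_rhs => rw [h3]
      unfold Pl
      apply sum_congr rfl
      intro p hp
      congr 1
      unfold ext0
      rw [dif_pos hp]
    refine ⟨c, ?_, h4⟩
    rw [key, h4]
    exact hF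
  · rintro ⟨c, hc, rfl⟩
    exact (key c).1 hc

lemma finrank_W (P : ℕ → ℂ × ℂ) (s : Finset ℕ) (m : ℕ → ℕ) (d : ℕ) :
    Module.finrank ℂ ↥(W P s m d) + (Mx d (rows m s) P).rank = Nat.choose (d + 2) 2 := by
  rw [W_eq]
  have h1 : Module.finrank ℂ ↥(Submodule.map (T2 d)
      (LinearMap.ker (Mx d (rows m s) P).mulVecLin)) =
      Module.finrank ℂ ↥(LinearMap.ker (Mx d (rows m s) P).mulVecLin) :=
    (LinearEquiv.finrank_eq (Submodule.equivMapOfInjective (T2 d) (T2_inj d) _)).symm
  rw [h1, add_comm]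
  have := LinearMap.finrank_range_add_finrank_ker (Mx d (rows m s) P).mulVecLin
  rw [Matrix.rank, this, Module.finrank_fintype_fun_eq_card, Fintype.card_coe, card_triD]

instance fin_W (P : ℕ → ℂ × ℂ) (s : Finset ℕ) (m : ℕ → ℕ) (d : ℕ) :
    Module.Finite ℂ ↥(W P s m d) := by
  rw [W_eq]
  infer_instance

/-- multiplication by `f` -/
lemma mul_le {P : ℕ → ℂ × ℂ} {s : Finset ℕ} {m m' : ℕ → ℕ} {t d : ℕ} {f : R2} (hf0 : f ≠ 0)
    (hf : f ∈ W P s m' d) :
    Module.finrank ℂ ↥(W P s m t) ≤ Module.finrank ℂ ↥(W P s (fun k => m k + m' k) (t + d)) := by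
  have hmem : ∀ g : ↥(W P s m t), (LinearMap.mulLeft ℂ f) (g : R2) ∈
      W P s (fun k => m k + m' k) (t + d) := by
    intro g
    rw [LinearMap.mulLeft_apply, mem_W]
    refine ⟨?_, ?_⟩
    · refine le_trans (MvPolynomial.totalDegree_mul _ _) ?_
      have h1 := g.2.1
      have h2 := hf.1
      omega
    · intro k hk
      rw [mul_comm]
      exact Jp_mul (g.2.2 k hk) (hf.2 k hk)
  set φ : ↥(W P s m t) →ₗ[ℂ] ↥(W P s (fun k => m k + m' k) (t + d)) :=
    ((LinearMap.mulLeft ℂ f).comp (W P s m t).subtype).codRestrict _ hmem with hφ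
  apply LinearMap.finrank_le_finrank_of_injective (f := φ)
  intro a b hab
  have h1 : f * (a : R2) = f * (b : R2) := congrArg Subtype.val hab
  exact Subtype.ext (mul_left_cancel₀ hf0 h1)

/-- some degree suffices -/
lemma exists_sur (P : ℕ → ℂ × ℂ) (s : Finset ℕ) (hP : Set.InjOn P (s : Set ℕ)) (m : ℕ → ℕ) :
    ∃ A : ℕ, Sur P s m A := by
  classical
  have h1 : ∀ r : Row, ∃ w : R2, ∀ k ∈ s, w - (if k = r.1 then
      (MvPolynomial.X 0 - MvPolynomial.C (P k).1) ^ r.2.1 *
        (MvPolynomial.X 1 - MvPolynomial.C (P k).2) ^ r.2.2 else 0) ∈ Jp (P k) (m k) := by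
    intro r
    exact crt P s hP m (fun k => if k = r.1 then
      (MvPolynomial.X 0 - MvPolynomial.C (P k).1) ^ r.2.1 *
        (MvPolynomial.X 1 - MvPolynomial.C (P k).2) ^ r.2.2 else 0)
  choose w hw using h1
  refine ⟨(rows m s).sup (fun r => (w r).totalDegree), ?_⟩
  intro g
  refine ⟨∑ r ∈ rows m s, MvPolynomial.C
    (MvPolynomial.coeff (e2 r.2.1 r.2.2) (tau (P r.1) (g r.1))) * w r, ?_, ?_⟩
  · apply MvPolynomial.totalDegree_finsetSum_le
    intro r hr
    refine le_trans (MvPolynomial.totalDegree_mul _ _) ?_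
    rw [MvPolynomial.totalDegree_C, zero_add]
    exact Finset.le_sup (f := fun r => (w r).totalDegree) hr
  · intro k hk
    rw [mem_Jp2]
    intro o ho
    have hko : ((k, o) : Row) ∈ rows m s := by rw [mem_rows]; exact ⟨hk, ho⟩
    have hC : ∀ (p : ℂ × ℂ) (t : ℂ), tau p (MvPolynomial.C t) = MvPolynomial.C t := by
      intro p t
      unfold tau
      rw [MvPolynomial.aeval_C, MvPolynomial.algebraMap_eq]
    have hval : ∀ r ∈ rows m s, MvPolynomial.coeff (e2 o.1 o.2) (tau (P k) (w r)) =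
        if r = (k, o) then 1 else 0 := by
      intro r _
      have h2 := hw r k hk
      rw [mem_Jp2] at h2
      have h3 := h2 o ho
      rw [map_sub, MvPolynomial.coeff_sub, sub_eq_zero] at h3
      rw [h3]
      by_cases hkr : k = r.1
      · rw [if_pos hkr, map_mul, map_pow, map_pow, map_sub, map_sub, tau_X0, tau_X1, hC, hC,
          add_sub_cancel_right, add_sub_cancel_right]
        have e : MvPolynomial.X 0 ^ r.2.1 * MvPolynomial.X 1 ^ r.2.2 =
            (MvPolynomial.monomial (e2 r.2.1 r.2.2) 1 : R2) := by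
          rw [monomial_e2, map_one, one_mul]
        rw [e, MvPolynomial.coeff_monomial]
        by_cases hr2 : r = (k, o)
        · rw [if_pos hr2, hr2, if_pos rfl]
        · rw [if_neg hr2, if_neg]
          intro he
          obtain ⟨h4, h5⟩ := e2_inj he
          exact hr2 (Prod.ext hkr.symm (Prod.ext h4 h5))
      · rw [if_neg hkr, map_zero, MvPolynomial.coeff_zero, if_neg]
        intro h
        exact hkr (by rw [h])
    rw [map_sub, MvPolynomial.coeff_sub, map_sum, MvPolynomial.coeff_sum, sub_eq_zero]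
    have h6 : ∀ r ∈ rows m s, MvPolynomial.coeff (e2 o.1 o.2) (tau (P k) (MvPolynomial.C
        (MvPolynomial.coeff (e2 r.2.1 r.2.2) (tau (P r.1) (g r.1))) * w r)) =
        if r = (k, o) then MvPolynomial.coeff (e2 r.2.1 r.2.2) (tau (P r.1) (g r.1)) else 0 := by
      intro r hr
      rw [map_mul, hC, MvPolynomial.coeff_C_mul, hval r hr]
      by_cases hr2 : r = (k, o)
      · rw [if_pos hr2, if_pos hr2, mul_one]
      · rw [if_neg hr2, if_neg hr2, mul_zero]
    rw [sum_congr rfl h6, sum_ite_eq', if_pos hko]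

lemma two_choose_succ (n : ℕ) : 2 * Nat.choose (n + 1) 2 = n * (n + 1) := two_choose n

/-- the intersection number with the class `(D; m₀)` is not negative -/
theorem bez {P : ℕ → ℂ × ℂ} {s : Finset ℕ} (hP : Set.InjOn P (s : Set ℕ)) {m0 : ℕ → ℕ} {D : ℕ}
    (hD : 1 ≤ D) (h0 : Sur P s m0 (D - 1)) {m : ℕ → ℕ} {d : ℕ} {f : R2} (hf0 : f ≠ 0)
    (hf : f ∈ W P s m d) : ∑ k ∈ s, m0 k * m k ≤ D * d := by
  obtain ⟨A, hA⟩ := exists_sur P s hP m
  set a := A + D with ha
  -- the inequality for every q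
  have hq : ∀ q : ℕ, Nat.choose (a + q * D + 2) 2 +
      ∑ k ∈ s, Nat.choose (q * m0 k + m k + 1) 2 ≤
      Nat.choose (a + q * D + d + 2) 2 + ∑ k ∈ s, Nat.choose (q * m0 k + 1) 2 := by
    intro q
    have h1 : Sur P s (fun k => m k + q * m0 k) (a + d + q * D) :=
      iter hP hD h0 (hA.mono (fun k _ => le_rfl) (by omega : A ≤ a + d)) (by omega) q
    have h2 := ind_of_sur h1
    have h3 := rank_of_ind h2
    have h4 := finrank_W P s (fun k => m k + q * m0 k) (a + d + q * D)
    have h5 := finrank_W P s (fun k => q * m0 k) (a + q * D)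
    have h6 : (Mx (a + q * D) (rows (fun k => q * m0 k) s) P).rank ≤
        (rows (fun k => q * m0 k) s).card := by
      refine le_trans (Matrix.rank_le_card_height _) ?_
      rw [Fintype.card_coe]
    have h7 := mul_le (m := fun k => q * m0 k) (t := a + q * D) hf0 hf
    have e1 : (fun k => q * m0 k + m k) = (fun k => m k + q * m0 k) := by funext k; ring
    have e2 : a + q * D + d = a + d + q * D := by ring
    rw [e1, e2] at h7
    rw [card_rows] at h3 h6
    rw [h3] at h4
    have e3 : ∑ k ∈ s, Nat.choose (q * m0 k + m k + 1) 2 =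
        ∑ k ∈ s, Nat.choose (m k + q * m0 k + 1) 2 := by
      apply sum_congr rfl
      intro k _
      rw [add_comm (q * m0 k) (m k)]
    rw [e3, e2]
    omega
  -- expand
  have hq2 : ∀ q : ℕ, (2 * q) * ∑ k ∈ s, m0 k * m k ≤
      (2 * q) * (D * d) + d * (2 * a + 3 + d) := by
    intro q
    have h1 := hq q
    have h2 : 2 * Nat.choose (a + q * D + 2) 2 = (a + q * D + 1) * (a + q * D + 2) :=
      two_choose (a + q * D + 1)
    have h3 : 2 * Nat.choose (a + q * D + d + 2) 2 =
        (a + q * D + d + 1) * (a + q * D + d + 2) := two_choose (a + q * D + d + 1)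
    have h4 : 2 * ∑ k ∈ s, Nat.choose (q * m0 k + m k + 1) 2 =
        2 * ∑ k ∈ s, Nat.choose (q * m0 k + 1) 2 + ((2 * q) * ∑ k ∈ s, m0 k * m k +
          ∑ k ∈ s, m k * (m k + 1)) := by
      rw [mul_sum, mul_sum, mul_sum, ← sum_add_distrib, ← sum_add_distrib]
      apply sum_congr rfl
      intro k _
      rw [two_choose, two_choose]
      ring
    have h5 : (a + q * D + d + 1) * (a + q * D + d + 2) =
        (a + q * D + 1) * (a + q * D + 2) + ((2 * q) * (D * d) + d * (2 * a + 3 + d)) := by ring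
    have h6 : 0 ≤ ∑ k ∈ s, m k * (m k + 1) := Nat.zero_le _
    nlinarith
  by_contra hcon
  push Not at hcon
  have h1 := hq2 (d * (2 * a + 3 + d) + 1)
  have h2 : D * d + 1 ≤ ∑ k ∈ s, m0 k * m k := hcon
  have h3 : (2 * (d * (2 * a + 3 + d) + 1)) * (D * d + 1) ≤
      (2 * (d * (2 * a + 3 + d) + 1)) * ∑ k ∈ s, m0 k * m k := Nat.mul_le_mul_left _ h2
  nlinarith

end Pool.Agent.Helper94.AM
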