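import Pool.Agent.Helper94.AM.WinC

/-!
# Arbitrary multiplicities (MP_d3128a_ag): all degrees, outside an exponentially small window
-/

set_option autoImplicit false

namespace Pool.Agent.Helper94.AM

open Finset Pool.Agent.Lead.Sh

/-- arbitrary multiplicities -/
theorem genA {K : ℝ} (hK1 : 1 ≤ K) (hK : WinK K) (s : ℕ) (m : ℕ → ℕ) (d : ℕ) (hm : Antitone m)
    (N R x y : ℝ) (hN : N = (UU m (range s) : ℝ)) (hR : R = d + √N) (hx : x = R / m 0)
    (hy : y = x ^ (1 / 3 : ℝ)) (hC : 2 ^ 32 * K * m 0 ≤ R)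
    (h : (m 0 : ℝ) ≤ Real.exp (1 / (6 * K) * y) ∨
      Real.exp (-(1 / (6 * K) * y)) * R ^ 2 ≤ |((d : ℝ) + 1) * (d + 2) - N|) : Fill s m d := by
  rcases Nat.eq_zero_or_pos (m 0) with h0 | hM
  · apply fill_zero
    intro i
    have := hm (Nat.zero_le i)
    omega
  generalize hMM : m 0 = M at hM hx hC h
  have hMr : (1 : ℝ) ≤ M := by exact_mod_cast hM
  set A : Finset ℕ := (range s).filter (fun k => 1 ≤ m k) with hA
  have hA2 : ∀ k ∈ A, 1 ≤ m k ∧ m k ≤ M := by
    intro k hk
    refine ⟨(mem_filter.mp hk).2, ?_⟩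
    rw [← hMM]
    exact hm (Nat.zero_le k)
  have hrows : rows m A = rows m (range s) := rows_supp m (range s)
  have hUU : (UU m A : ℝ) = N := by
    rw [hN, hA, UU_supp]
  have hd0 : (0 : ℝ) ≤ d := Nat.cast_nonneg d
  have hN0 : 0 ≤ N := by rw [hN]; exact Nat.cast_nonneg _
  have hS0 : 0 ≤ √N := Real.sqrt_nonneg N
  have hSS : √N * √N = N := Real.mul_self_sqrt hN0
  have hR0 : 0 ≤ R := by rw [hR]; linarith
  have hKM : 1 ≤ K * M := one_le_mul_of_one_le_of_one_le hK1 hMr
  have hC2 : 4294967296 * (K * M) ≤ R := by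
    refine le_trans (le_of_eq ?_) hC
    ring
  rcases le_or_gt (√N) (2 * d) with hcase | hcase
  · -- the degree is not small
    have hR3 : R ≤ 3 * d := by rw [hR]; linarith
    obtain ⟨t, ht0, ht3⟩ : ∃ t : ℝ, 0 ≤ t ∧ t ^ 3 = d / (K * M) :=
      ⟨((d : ℝ) / (K * M)) ^ (1 / 3 : ℝ), Real.rpow_nonneg (by positivity) _,
        cube_cbrt (by positivity)⟩
    have hKt : K * t ^ 3 * M = d := by
      rw [ht3]
      field_simp
    have ht : 1024 ≤ t := by
      apply le_of_cube ht0
      rw [ht3, le_div_iff₀ (by linarith)]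
      linarith
    have hx3 : x ≤ 3 * K * t ^ 3 := by
      rw [hx, div_le_iff₀ (by linarith)]
      calc R ≤ 3 * d := hR3
        _ = 3 * K * t ^ 3 * M := by rw [← hKt]; ring
    have hx0 : 0 ≤ x := by rw [hx]; positivity
    have hy3 : y ^ 3 = x := by rw [hy]; exact cube_cbrt hx0
    have hyt : y ≤ 3 * K * t := by
      apply le_of_cube (by positivity)
      rw [hy3]
      refine hx3.trans ?_
      have e : (3 * K * t) ^ 3 = 27 * K ^ 3 * t ^ 3 := by ring
      rw [e]
      apply mul_le_mul_of_nonneg_right _ (by positivity)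
      have : K ≤ K ^ 3 := by
        calc K = K ^ 1 := (pow_one K).symm
          _ ≤ K ^ 3 := pow_le_pow_right₀ hK1 (by norm_num)
      linarith
    have hcy : 1 / (6 * K) * y ≤ t / 2 := by
      calc 1 / (6 * K) * y ≤ 1 / (6 * K) * (3 * K * t) :=
            mul_le_mul_of_nonneg_left hyt (by positivity)
        _ = t / 2 := by
            field_simp
            norm_num
    obtain ⟨w1, w2, w3⟩ := hK A m M d t hM hA2 ht hKt.le
    rw [hrows] at w1 w2 w3
    rw [hUU] at w1 w2
    have hd4 : (4 : ℝ) ≤ d := by linarith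
    rcases h with h1 | h1
    · have h2 := w3 (h1.trans (Real.exp_le_exp.mpr (by linarith)))
      rcases le_total (UU m A) ((d + 1) * (d + 2)) with h3 | h3
      · exact fill_ind (h2.1 h3)
      · exact fill_inj (h2.2 h3)
    · have e1 : Real.exp (-t) * (((d : ℝ) + 1) * (d + 2)) ≤ |((d : ℝ) + 1) * (d + 2) - N| := by
        refine le_trans ?_ h1
        have e2 : Real.exp (-t) = Real.exp (-(t / 2)) * Real.exp (-(t / 2)) := by
          rw [← Real.exp_add]
          congr 1
          ring
        have e3 : Real.exp (-(t / 2)) ≤ 1 / 2 := by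
          have e4 : (2 : ℝ) ≤ Real.exp (t / 2) := by
            have := Real.add_one_le_exp (t / 2)
            linarith
          rw [Real.exp_neg, ← one_div]
          exact one_div_le_one_div_of_le (by norm_num) e4
        have e5 : Real.exp (-(t / 2)) ≤ Real.exp (-(1 / (6 * K) * y)) :=
          Real.exp_le_exp.mpr (by linarith)
        have e6 : ((d : ℝ) + 1) * (d + 2) ≤ 2 * R ^ 2 := by
          have e7 : (d : ℝ) ≤ R := by rw [hR]; linarith
          nlinarith
        have e8 : 0 < Real.exp (-(t / 2)) := Real.exp_pos _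
        have e9 : 0 ≤ ((d : ℝ) + 1) * (d + 2) := by positivity
        calc Real.exp (-t) * (((d : ℝ) + 1) * (d + 2))
            ≤ (Real.exp (-(t / 2)) * (1 / 2)) * (((d : ℝ) + 1) * (d + 2)) := by
              rw [e2]
              apply mul_le_mul_of_nonneg_right _ e9
              exact mul_le_mul_of_nonneg_left e3 e8.le
          _ ≤ (Real.exp (-(t / 2)) * (1 / 2)) * (2 * R ^ 2) := by
              apply mul_le_mul_of_nonneg_left e6
              linarith
          _ = Real.exp (-(t / 2)) * R ^ 2 := by ring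
          _ ≤ _ := mul_le_mul_of_nonneg_right e5 (by positivity)
      rcases le_abs.mp e1 with h2 | h2
      · exact fill_ind (w1 (by linarith))
      · exact fill_inj (w2 (by linarith))
  · -- the degree is small
    set d1 : ℕ := ⌊√N / 2⌋₊ with hd1
    have f1 : (d1 : ℝ) ≤ √N / 2 := Nat.floor_le (by linarith)
    have f2 : √N / 2 < d1 + 1 := Nat.lt_floor_add_one _
    have hdd1 : d ≤ d1 := by
      have : (d : ℝ) < d1 + 1 := by linarith
      have h2 : d < d1 + 1 := by exact_mod_cast this
      omega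
    have hS : 2863311530 * (K * M) ≤ √N := by
      have : R ≤ 3 / 2 * √N := by rw [hR]; linarith
      linarith
    obtain ⟨_, w2, _⟩ := hK A m M d1 1024 hM hA2 le_rfl (by
      have e : K * (1024 : ℝ) ^ 3 * M = 1073741824 * (K * M) := by ring
      rw [e]
      linarith)
    rw [hrows, hUU] at w2
    apply fill_inj
    have hd10 : (0 : ℝ) ≤ d1 := Nat.cast_nonneg d1
    have g1 : Inj (triD 0 d1) (rows m (range s)) := by
      apply w2
      have e1 : Real.exp (-1024) ≤ 1 := Real.exp_le_one_iff.mpr (by norm_num)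
      have e2 : ((d1 : ℝ) + 1) * (d1 + 2) ≤ (√N / 2 + 1) * (√N / 2 + 2) :=
        mul_le_mul (by linarith) (by linarith) (by linarith) (by linarith)
      have e3 : 0 ≤ ((d1 : ℝ) + 1) * (d1 + 2) := by positivity
      calc (1 + Real.exp (-1024)) * (((d1 : ℝ) + 1) * (d1 + 2))
          ≤ 2 * (((d1 : ℝ) + 1) * (d1 + 2)) := mul_le_mul_of_nonneg_right (by linarith) e3
        _ ≤ 2 * ((√N / 2 + 1) * (√N / 2 + 2)) := by linarith
        _ ≤ √N * √N := by nlinarith
        _ = N := hSS
    apply g1.mono _ subset_rfl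
    intro p hp
    rw [mem_triD] at hp ⊢
    omega

end Pool.Agent.Helper94.AM
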