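import Pool.Agent.Helper94.AM.Main

/-!
# All multiplicities (MP_d3128a_ag): the theorems, from the full theorem for `n ≥ C (1 + log m)³`
-/

set_option autoImplicit false

namespace Pool.Agent.Helper94.AM

open Finset Pool.Agent.Lead.Sh
open Pool.Agent.Helper43.Hw (NS)

/-- the full theorem for `n ≥ C (1 + log m)³` (project EW) -/
def Full : Prop := ∃ C : ℝ, 0 < C ∧ ∀ n m d : ℕ, 1 ≤ m → C * (1 + Real.log m) ^ 3 ≤ n → NS n m d

/-- the choice of the parameters -/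
lemma params (hEW : Full) : ∃ c : ℝ, 0 < c ∧ ∃ n₀ : ℕ, ∀ n : ℕ, n₀ ≤ n →
    1 ≤ n ∧ ∃ m0 : ℕ, 1 ≤ m0 ∧ Real.exp (c * (n : ℝ) ^ (1 / 3 : ℝ)) ≤ m0 ∧
      ∀ r d : ℕ, 1 ≤ r → r ≤ 2 * m0 → NS n r d := by
  obtain ⟨C, hC, hNS⟩ := hEW
  set γ : ℝ := C ^ (1 / 3 : ℝ) with hγ
  have hγ0 : 0 < γ := Real.rpow_pos_of_pos hC _
  have hγ3 : γ ^ 3 = C := by
    rw [hγ, ← Real.rpow_natCast, ← Real.rpow_mul hC.le]
    norm_num
  refine ⟨1 / (2 * γ), by positivity, ⌈216 * C⌉₊ + 1, ?_⟩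
  intro n hn
  have hn1 : 1 ≤ n := by omega
  refine ⟨hn1, ?_⟩
  have hnr : 216 * C ≤ (n : ℝ) := by
    refine le_trans (Nat.le_ceil _) ?_
    exact_mod_cast (by omega : ⌈216 * C⌉₊ ≤ n)
  have hn0 : (0 : ℝ) ≤ n := Nat.cast_nonneg n
  set y : ℝ := (n : ℝ) ^ (1 / 3 : ℝ) with hy
  have hy0 : 0 ≤ y := Real.rpow_nonneg hn0 _
  have hy3 : y ^ 3 = n := by
    rw [hy, ← Real.rpow_natCast, ← Real.rpow_mul hn0]
    norm_num
  have hyγ : 6 * γ ≤ y := by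
    by_contra hcon
    push Not at hcon
    have h1 : y ^ 3 < (6 * γ) ^ 3 := pow_lt_pow_left₀ hcon hy0 (by norm_num)
    rw [hy3, mul_pow, hγ3] at h1
    linarith
  set x : ℝ := y / γ - 1 with hx
  have hx5 : 5 ≤ x := by
    have : 6 ≤ y / γ := by
      rw [le_div_iff₀ hγ0]
      exact hyγ
    linarith
  have hexp1 : 2 ≤ Real.exp 1 := by
    have := Real.add_one_le_exp (1 : ℝ)
    linarith
  have hexp2 : 4 ≤ Real.exp 2 := by
    have e : Real.exp 2 = Real.exp 1 * Real.exp 1 := by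
      rw [← Real.exp_add]
      norm_num
    rw [e]
    nlinarith
  have hsplit : Real.exp x = Real.exp ((x + 1) / 2) * Real.exp ((x - 1) / 2) := by
    rw [← Real.exp_add]
    congr 1
    ring
  have hb : 4 ≤ Real.exp ((x - 1) / 2) :=
    le_trans hexp2 (Real.exp_le_exp.mpr (by linarith))
  have ha1 : 1 ≤ Real.exp ((x + 1) / 2) := Real.one_le_exp (by linarith)
  have hx4 : 4 * Real.exp ((x + 1) / 2) ≤ Real.exp x := by
    rw [hsplit]
    nlinarith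
  set μ : ℕ := ⌊Real.exp x⌋₊ with hμ
  have hμ1 : Real.exp x < μ + 1 := Nat.lt_floor_add_one _
  have hμ2 : (μ : ℝ) ≤ Real.exp x := Nat.floor_le (Real.exp_pos x).le
  set m0 : ℕ := μ / 2 with hm0
  have hm0a : 2 * m0 ≤ μ := by omega
  have hm0b : μ ≤ 2 * m0 + 1 := by omega
  have hm0r : (μ : ℝ) ≤ 2 * m0 + 1 := by exact_mod_cast hm0b
  have hm0c : Real.exp ((x + 1) / 2) ≤ m0 := by linarith
  have hm01 : 1 ≤ m0 := by
    have : (1 : ℝ) ≤ m0 := le_trans ha1 hm0c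
    exact_mod_cast this
  refine ⟨m0, hm01, ?_, ?_⟩
  · have e : 1 / (2 * γ) * y = (x + 1) / 2 := by
      rw [hx]
      field_simp
      ring
    rw [e]
    exact hm0c
  · intro r d hr1 hr2
    apply hNS n r d hr1
    have hrr : (1 : ℝ) ≤ r := by exact_mod_cast hr1
    have hlog : Real.log r ≤ x := by
      rw [Real.log_le_iff_le_exp (by linarith)]
      refine le_trans ?_ hμ2
      exact_mod_cast le_trans hr2 hm0a
    have hlog0 : 0 ≤ Real.log r := Real.log_nonneg hrr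
    have h3 : (1 + Real.log r) ^ 3 ≤ (y / γ) ^ 3 := by
      apply pow_le_pow_left₀ (by linarith)
      linarith
    calc C * (1 + Real.log r) ^ 3 ≤ C * (y / γ) ^ 3 := mul_le_mul_of_nonneg_left h3 hC.le
      _ = n := by
        rw [div_pow, hy3, hγ3]
        field_simp

/-- Theorem A. -/
theorem mainA (hEW : Full) : ∃ c : ℝ, 0 < c ∧ ∃ n₀ : ℕ, ∀ n : ℕ, n₀ ≤ n → ∀ m d : ℕ, 1 ≤ m →
    ((m : ℝ) ≤ Real.exp (c * (n : ℝ) ^ (1 / 3 : ℝ)) ∨
      Real.exp (-(c * (n : ℝ) ^ (1 / 3 : ℝ))) * (√(n : ℝ) * m) ≤ |(d : ℝ) - √(n : ℝ) * m|) →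
    NS n m d := by
  obtain ⟨c, hc, n₀, h⟩ := params hEW
  refine ⟨c, hc, n₀, ?_⟩
  intro n hn m d hm hcase
  obtain ⟨hn1, m0, hm0, hexp, hNS⟩ := h n hn
  by_cases hm2 : m ≤ 2 * m0
  · exact hNS m d hm hm2
  push Not at hm2
  have hm0r : (1 : ℝ) ≤ m0 := by exact_mod_cast hm0
  rcases hcase with h1 | h1
  · exfalso
    have h2 : (m : ℝ) ≤ m0 := le_trans h1 hexp
    have h3 : m ≤ m0 := by exact_mod_cast h2
    omega
  · apply window hn1 hm0 hNS m d hm2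
    refine le_trans ?_ h1
    have h4 : (0 : ℝ) ≤ √(n : ℝ) * m := by positivity
    rw [div_eq_inv_mul]
    apply mul_le_mul_of_nonneg_right _ h4
    rw [Real.exp_neg]
    exact inv_anti₀ (Real.exp_pos _) hexp

/-- Theorem B, in terms of matrices. -/
theorem mainB (hEW : Full) : ∃ c : ℝ, 0 < c ∧ ∃ n₀ : ℕ, ∀ n : ℕ, n₀ ≤ n → ∀ (m : ℕ → ℕ) (d : ℕ),
    (1 + Real.exp (-(c * (n : ℝ) ^ (1 / 3 : ℝ)))) * √(n : ℝ) * d < ∑ i ∈ range n, (m i : ℝ) →
    Inj (triD 0 d) (rows m (range n)) := by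
  obtain ⟨c, hc, n₀, h⟩ := params hEW
  refine ⟨c, hc, n₀, ?_⟩
  intro n hn m d hd
  obtain ⟨hn1, m0, hm0, hexp, hNS⟩ := h n hn
  have hm0r : (1 : ℝ) ≤ m0 := by exact_mod_cast hm0
  have hn1r : (1 : ℝ) ≤ n := by exact_mod_cast hn1
  have hs1 : 1 ≤ √(n : ℝ) := Real.one_le_sqrt.mpr hn1r
  have h0 : Ind (triD 0 (K n m0 + 1 - 1)) (rows (fun _ => m0) (range n)) := by
    rw [Nat.add_sub_cancel]
    exact ind_of_ns (hNS m0 (K n m0) hm0 (by omega))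
      ((choose_le_iff n m0 (K n m0)).mpr (K_spec n m0))
  apply inj_below (D := K n m0 + 1) (by omega) h0 (fun _ _ => hm0)
  rw [← mul_sum]
  have h2 := K_real n m0 hn1
  have h3 : ((K n m0 + 1 : ℕ) : ℝ) ≤ √(n : ℝ) * (m0 + 1) := by
    push_cast
    nlinarith
  have h4 : (1 : ℝ) / m0 ≤ Real.exp (-(c * (n : ℝ) ^ (1 / 3 : ℝ))) := by
    rw [Real.exp_neg, one_div]
    exact inv_anti₀ (Real.exp_pos _) hexp
  have hd0 : (0 : ℝ) ≤ d := Nat.cast_nonneg d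
  have h5 : (((K n m0 + 1) * d : ℕ) : ℝ) < ((m0 * ∑ i ∈ range n, m i : ℕ) : ℝ) := by
    rw [Nat.cast_mul, Nat.cast_mul, Nat.cast_sum]
    calc ((K n m0 + 1 : ℕ) : ℝ) * d ≤ (√(n : ℝ) * (m0 + 1)) * d :=
          mul_le_mul_of_nonneg_right h3 hd0
      _ = m0 * ((1 + 1 / m0) * √(n : ℝ) * d) := by
          field_simp
      _ ≤ m0 * ((1 + Real.exp (-(c * (n : ℝ) ^ (1 / 3 : ℝ)))) * √(n : ℝ) * d) := by
          apply mul_le_mul_of_nonneg_left _ (by linarith)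
          apply mul_le_mul_of_nonneg_right _ hd0
          apply mul_le_mul_of_nonneg_right _ (by linarith)
          linarith
      _ < m0 * ∑ i ∈ range n, (m i : ℝ) := mul_lt_mul_of_pos_left hd (by linarith)
  exact_mod_cast h5

end Pool.Agent.Helper94.AM
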