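import Pool.Agent.Helper94.AM.Cluster

/-!
# Arbitrary multiplicities (MP_d3128a_ag): partition of the small points into clusters
-/

set_option autoImplicit false

namespace Pool.Agent.Helper94.AM

open Finset Pool.Agent.Lead.Sh

lemma greedy (f : ℕ → ℕ) (w T : ℕ) (S : Finset ℕ) (hf : ∀ k ∈ S, f k ≤ w) (hT : T ≤ ∑ k ∈ S, f k) :
    ∃ B ⊆ S, T ≤ ∑ k ∈ B, f k ∧ ∑ k ∈ B, f k ≤ T + w := by
  classical
  induction S using Finset.induction_on with
  | empty =>
    refine ⟨∅, subset_rfl, hT, ?_⟩
    simp
  | insert k S hk ih =>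
    by_cases h : T ≤ ∑ j ∈ S, f j
    · obtain ⟨B, hB, h1, h2⟩ := ih (fun j hj => hf j (mem_insert_of_mem hj)) h
      exact ⟨B, hB.trans (subset_insert _ _), h1, h2⟩
    · refine ⟨insert k S, subset_rfl, hT, ?_⟩
      rw [sum_insert hk]
      have := hf k (mem_insert_self k S)
      omega

lemma UU_update {m : ℕ → ℕ} {k a : ℕ} {s : Finset ℕ} (hk : k ∉ s) :
    UU (Function.update m k a) s = UU m s := by
  unfold UU
  apply sum_congr rfl
  intro j hj
  rw [Function.update_of_ne (fun h => hk (by rw [← h]; exact hj))]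

lemma UU_insert {m : ℕ → ℕ} {k a : ℕ} {s : Finset ℕ} (hk : k ∉ s) :
    UU (Function.update m k a) (insert k s) = a * (a + 1) + UU m s := by
  have h := UU_update (m := m) (a := a) hk
  unfold UU at h ⊢
  rw [sum_insert hk, h, Function.update_self]

/-- the small and the large points after a cluster has been replaced -/
lemma filters {m : ℕ → ℕ} {k a L0 : ℕ} {A B : Finset ℕ} (haL : L0 ≤ a)
    (hB : B ⊆ A.filter (fun i => m i < L0)) (hk : k ∈ B) :
    (insert k (A \ B)).filter (fun i => Function.update m k a i < L0) =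
      A.filter (fun i => m i < L0) \ B ∧
    (insert k (A \ B)).filter (fun i => L0 ≤ Function.update m k a i) =
      insert k (A.filter (fun i => L0 ≤ m i)) ∧
    k ∉ A.filter (fun i => L0 ≤ m i) ∧ k ∉ A.filter (fun i => m i < L0) \ B := by
  have hkA := mem_filter.mp (hB hk)
  refine ⟨?_, ?_, ?_, ?_⟩
  · ext i
    rw [mem_filter, mem_insert, mem_sdiff, mem_sdiff, mem_filter]
    by_cases hi : i = k
    · subst hi
      rw [Function.update_self]
      constructor
      · rintro ⟨_, h⟩
        omega
      · rintro ⟨_, h⟩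
        exact absurd hk h
    · rw [Function.update_of_ne hi]
      constructor
      · rintro ⟨h1 | h1, h2⟩
        · exact absurd h1 hi
        · exact ⟨⟨h1.1, h2⟩, h1.2⟩
      · rintro ⟨⟨h1, h2⟩, h3⟩
        exact ⟨Or.inr ⟨h1, h3⟩, h2⟩
  · ext i
    rw [mem_filter, mem_insert, mem_insert, mem_sdiff, mem_filter]
    by_cases hi : i = k
    · subst hi
      rw [Function.update_self]
      simp [haL]
    · rw [Function.update_of_ne hi]
      constructor
      · rintro ⟨h1 | h1, h2⟩
        · exact absurd h1 hi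
        · exact Or.inr ⟨h1.1, h2⟩
      · rintro (h1 | ⟨h1, h2⟩)
        · exact absurd h1 hi
        · refine ⟨Or.inr ⟨h1, ?_⟩, h2⟩
          intro h3
          have := (mem_filter.mp (hB h3)).2
          omega
  · rw [mem_filter]
    rintro ⟨_, h⟩
    omega
  · rw [mem_sdiff]
    rintro ⟨_, h⟩
    exact h hk

lemma UU_sdiff {m : ℕ → ℕ} {S B : Finset ℕ} (hB : B ⊆ S) : UU m (S \ B) + UU m B = UU m S := by
  unfold UU
  exact sum_sdiff hB

lemma UU_mono {m : ℕ → ℕ} {S B : Finset ℕ} (hB : B ⊆ S) : UU m B ≤ UU m S := by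
  have := UU_sdiff (m := m) hB
  omega

lemma UU_filter (m : ℕ → ℕ) (A : Finset ℕ) (L0 : ℕ) :
    UU m (A.filter (fun i => L0 ≤ m i)) + UU m (A.filter (fun i => m i < L0)) = UU m A := by
  unfold UU
  have := sum_filter_add_sum_filter_not A (fun i => L0 ≤ m i) (fun i => m i * (m i + 1))
  simp only [not_le] at this
  exact this

theorem clusters_ind {a L0 W w M d : ℕ} (ha : 1 ≤ a) (haL : L0 ≤ a) (haM : a ≤ M)
    (hw : ∀ j < L0, j * (j + 1) ≤ w) (hwW : w < W) (had : a ≤ d + 1)
    (hcl : ∀ (B : Finset ℕ) (m : ℕ → ℕ), (∀ k ∈ B, 1 ≤ m k ∧ m k < L0) → UU m B ≤ W →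
      Ind (triD 0 (a - 1)) (rows m B))
    (X : ℕ) (hX : ∀ (A : Finset ℕ) (m : ℕ → ℕ), (∀ k ∈ A, L0 ≤ m k ∧ 1 ≤ m k ∧ m k ≤ M) →
      (W - w) * UU m A ≤ X + (W - w) * (a * (a + 1)) → Ind (triD 0 d) (rows m A)) :
    ∀ (A : Finset ℕ) (m : ℕ → ℕ), (∀ k ∈ A, 1 ≤ m k ∧ m k ≤ M) →
      (W - w) * UU m (A.filter (fun i => L0 ≤ m i)) +
        a * (a + 1) * UU m (A.filter (fun i => m i < L0)) ≤ X →
      Ind (triD 0 d) (rows m A) := by
  suffices H : ∀ (c : ℕ) (A : Finset ℕ) (m : ℕ → ℕ), (A.filter (fun i => m i < L0)).card = c →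
      (∀ k ∈ A, 1 ≤ m k ∧ m k ≤ M) →
      (W - w) * UU m (A.filter (fun i => L0 ≤ m i)) +
        a * (a + 1) * UU m (A.filter (fun i => m i < L0)) ≤ X →
      Ind (triD 0 d) (rows m A) from fun A m => H _ A m rfl
  intro c
  induction c using Nat.strong_induction_on with
  | _ c ih =>
    intro A m hc hA hΦ
    set S := A.filter (fun i => m i < L0) with hS
    set Lg := A.filter (fun i => L0 ≤ m i) with hLg
    have hSA : S ⊆ A := filter_subset _ _
    rcases S.eq_empty_or_nonempty with h0 | ⟨k0, hk0⟩
    · -- no small points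
      have hall : ∀ k ∈ A, L0 ≤ m k := by
        intro k hk
        by_contra h
        have : k ∈ S := mem_filter.mpr ⟨hk, by omega⟩
        rw [h0] at this
        exact absurd this (notMem_empty k)
      have hLA : Lg = A := filter_true_of_mem hall
      apply hX A m (fun k hk => ⟨hall k hk, hA k hk⟩)
      rw [hLA] at hΦ
      omega
    · have hAS : ∀ k ∈ A \ S, L0 ≤ m k := by
        intro k hk
        rw [mem_sdiff] at hk
        by_contra h
        exact hk.2 (mem_filter.mpr ⟨hk.1, by omega⟩)
      by_cases hW : UU m S ≤ W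
      · -- one cluster
        have hkn : k0 ∉ A \ S := fun h => (mem_sdiff.mp h).2 hk0
        apply cluster_ind hSA hk0 ha had
          (hcl S m (fun k hk => ⟨(hA k (hSA hk)).1, (mem_filter.mp hk).2⟩) hW)
        apply hX
        · intro k hk
          rcases mem_insert.mp hk with h | h
          · rw [h, Function.update_self]
            exact ⟨haL, ha, haM⟩
          · rw [Function.update_of_ne (fun h' => hkn (by rw [← h']; exact h))]
            exact ⟨hAS k h, hA k (mem_sdiff.mp h).1⟩
        · rw [UU_insert hkn]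
          have e : A \ S = Lg := by
            ext i
            rw [mem_sdiff, hS, hLg, mem_filter, mem_filter]
            constructor
            · rintro ⟨h1, h2⟩
              refine ⟨h1, ?_⟩
              by_contra h3
              exact h2 ⟨h1, by omega⟩
            · rintro ⟨h1, h2⟩
              exact ⟨h1, fun h3 => by omega⟩
          rw [e, mul_add]
          have : (W - w) * UU m Lg ≤ X := le_trans (Nat.le_add_right _ _) hΦ
          omega
      · -- a full cluster
        push Not at hW
        obtain ⟨B, hBS, hB1, hB2⟩ := greedy (fun j => m j * (m j + 1)) w (W - w) S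
          (fun k hk => hw (m k) (mem_filter.mp hk).2) (by
            show W - w ≤ UU m S
            omega)
        change W - w ≤ UU m B at hB1
        change UU m B ≤ W - w + w at hB2
        have hBne : B.Nonempty := by
          rw [nonempty_iff_ne_empty]
          rintro rfl
          have : UU m ∅ = 0 := by simp [UU]
          omega
        obtain ⟨k, hk⟩ := hBne
        have hBA : B ⊆ A := hBS.trans hSA
        obtain ⟨f1, f2, f3, f4⟩ := filters haL hBS hk
        have hkn : k ∉ A \ B := fun h => (mem_sdiff.mp h).2 hk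
        apply cluster_ind hBA hk ha had
          (hcl B m (fun k hk => ⟨(hA k (hBA hk)).1, (mem_filter.mp (hBS hk)).2⟩) (by omega))
        apply ih (S \ B).card _ _ _ (by rw [f1]) _ _
        · rw [← hc]
          apply card_lt_card
          exact ⟨sdiff_subset, fun h => (mem_sdiff.mp (h (hBS hk))).2 hk⟩
        · intro i hi
          rcases mem_insert.mp hi with h | h
          · rw [h, Function.update_self]
            exact ⟨ha, haM⟩
          · rw [Function.update_of_ne (fun h' => hkn (by rw [← h']; exact h))]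
            exact hA i (mem_sdiff.mp h).1
        · rw [f1, f2, UU_insert f3, UU_update f4]
          have h3 := UU_sdiff (m := m) hBS
          have h4 : a * (a + 1) * UU m S = a * (a + 1) * UU m (S \ B) + a * (a + 1) * UU m B := by
            rw [← h3, mul_add]
          have h5 : (W - w) * (a * (a + 1)) ≤ a * (a + 1) * UU m B := by
            rw [mul_comm]
            exact Nat.mul_le_mul_left _ hB1
          rw [mul_add]
          change (W - w) * (a * (a + 1)) + (W - w) * UU m Lg + a * (a + 1) * UU m (S \ B) ≤ X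
          omega

theorem clusters_inj {a L0 W w M d : ℕ} (ha : 1 ≤ a) (haL : L0 ≤ a) (haM : a ≤ M)
    (hw : ∀ j < L0, j * (j + 1) ≤ w) (hW1 : 1 ≤ W) (had : a ≤ d + 1)
    (hcl : ∀ (B : Finset ℕ) (m : ℕ → ℕ), (∀ k ∈ B, 1 ≤ m k ∧ m k < L0) → W ≤ UU m B →
      Inj (triD 0 (a - 1)) (rows m B))
    (X : ℕ) (hX : ∀ (A : Finset ℕ) (m : ℕ → ℕ), (∀ k ∈ A, L0 ≤ m k ∧ 1 ≤ m k ∧ m k ≤ M) →
      X ≤ (W + w) * UU m A + a * (a + 1) * W → Inj (triD 0 d) (rows m A)) :
    ∀ (A : Finset ℕ) (m : ℕ → ℕ), (∀ k ∈ A, 1 ≤ m k ∧ m k ≤ M) →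
      X ≤ (W + w) * UU m (A.filter (fun i => L0 ≤ m i)) +
        a * (a + 1) * UU m (A.filter (fun i => m i < L0)) →
      Inj (triD 0 d) (rows m A) := by
  suffices H : ∀ (c : ℕ) (A : Finset ℕ) (m : ℕ → ℕ), (A.filter (fun i => m i < L0)).card = c →
      (∀ k ∈ A, 1 ≤ m k ∧ m k ≤ M) →
      X ≤ (W + w) * UU m (A.filter (fun i => L0 ≤ m i)) +
        a * (a + 1) * UU m (A.filter (fun i => m i < L0)) →
      Inj (triD 0 d) (rows m A) from fun A m => H _ A m rfl
  intro c
  induction c using Nat.strong_induction_on with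
  | _ c ih =>
    intro A m hc hA hΦ
    set S := A.filter (fun i => m i < L0) with hS
    set Lg := A.filter (fun i => L0 ≤ m i) with hLg
    have hSA : S ⊆ A := filter_subset _ _
    by_cases hW : UU m S ≤ W
    · -- drop the small points
      have h1 : Inj (triD 0 d) (rows m Lg) := by
        apply hX Lg m
        · intro k hk
          have := mem_filter.mp hk
          exact ⟨this.2, hA k this.1⟩
        · have : a * (a + 1) * UU m S ≤ a * (a + 1) * W := Nat.mul_le_mul_left _ hW
          omega
      exact h1.mono subset_rfl (rows_mono (filter_subset _ _))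
    · push Not at hW
      obtain ⟨B, hBS, hB1, hB2⟩ := greedy (fun j => m j * (m j + 1)) w W S
        (fun k hk => hw (m k) (mem_filter.mp hk).2) (by
          show W ≤ UU m S
          omega)
      change W ≤ UU m B at hB1
      change UU m B ≤ W + w at hB2
      have hBne : B.Nonempty := by
        rw [nonempty_iff_ne_empty]
        rintro rfl
        have : UU m ∅ = 0 := by simp [UU]
        omega
      obtain ⟨k, hk⟩ := hBne
      have hBA : B ⊆ A := hBS.trans hSA
      obtain ⟨f1, f2, f3, f4⟩ := filters haL hBS hk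
      have hkn : k ∉ A \ B := fun h => (mem_sdiff.mp h).2 hk
      apply cluster_inj hBA hk ha had
        (hcl B m (fun k hk => ⟨(hA k (hBA hk)).1, (mem_filter.mp (hBS hk)).2⟩) hB1)
      apply ih (S \ B).card _ _ _ (by rw [f1]) _ _
      · rw [← hc]
        apply card_lt_card
        exact ⟨sdiff_subset, fun h => (mem_sdiff.mp (h (hBS hk))).2 hk⟩
      · intro i hi
        rcases mem_insert.mp hi with h | h
        · rw [h, Function.update_self]
          exact ⟨ha, haM⟩
        · rw [Function.update_of_ne (fun h' => hkn (by rw [← h']; exact h))]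
          exact hA i (mem_sdiff.mp h).1
      · rw [f1, f2, UU_insert f3, UU_update f4]
        have h3 := UU_sdiff (m := m) hBS
        have h4 : a * (a + 1) * UU m S = a * (a + 1) * UU m (S \ B) + a * (a + 1) * UU m B := by
          rw [← h3, mul_add]
        have h5 : a * (a + 1) * UU m B ≤ (W + w) * (a * (a + 1)) := by
          rw [mul_comm (W + w)]
          exact Nat.mul_le_mul_left _ hB2
        rw [mul_add]
        change X ≤ (W + w) * (a * (a + 1)) + (W + w) * UU m Lg + a * (a + 1) * UU m (S \ B)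
        omega

end Pool.Agent.Helper94.AM
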