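import Pool.Agent.Helper94.AM.Final

/-!
# All multiplicities (MP_d3128a_ag): the statement of the hand-in
-/

set_option autoImplicit false

namespace Pool.Agent.Helper94.AM

open Finset Pool.Agent.Lead.Sh
open Pool.Agent.Helper43.Hw (NS)

/-- from matrices to curves -/
lemma bot_of_inj {s : ℕ} {m : ℕ → ℕ} {d : ℕ} (h : Inj (triD 0 d) (rows m (range s))) :
    ∃ G : MvPolynomial (Fin s × Fin 3) ℂ, G ≠ 0 ∧
      ∀ P : Fin s → Fin 3 → ℂ, (∀ i, P i ≠ 0) →
        MvPolynomial.eval (fun ij : Fin s × Fin 3 => P ij.1 ij.2) G ≠ 0 →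
        Vsp s m d P = ⊥ := by
  obtain ⟨G, hG, hG2⟩ := generic_inj h
  refine ⟨G, hG, ?_⟩
  intro P _ hP
  obtain ⟨h2, hI⟩ := hG2 P hP
  rw [Submodule.eq_bot_iff]
  intro F hF
  have hh : F.IsHomogeneous d := by
    unfold Vsp at hF
    exact (Submodule.mem_inf.1 hF).1
  have h3 := hom_eq_Fc hh
  rw [h3] at hF
  have h4 := hI _ ((Fc_mem h2 _).1 hF)
  rw [h3, Fc_eq]
  apply sum_eq_zero
  intro p hp
  rw [h4 p hp]; simp

theorem mainAB (hEW : Full) : ∃ c : ℝ, 0 < c ∧ ∃ n₀ : ℕ, ∀ n : ℕ, n₀ ≤ n →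
    (∀ m d : ℕ, 1 ≤ m →
      ((m : ℝ) ≤ Real.exp (c * (n : ℝ) ^ (1 / 3 : ℝ)) ∨
        Real.exp (-(c * (n : ℝ) ^ (1 / 3 : ℝ))) * (√(n : ℝ) * m) ≤ |(d : ℝ) - √(n : ℝ) * m|) →
      NS n m d) ∧
    (∀ (m : Fin n → ℕ) (d : ℕ),
      (1 + Real.exp (-(c * (n : ℝ) ^ (1 / 3 : ℝ)))) * √(n : ℝ) * d < ∑ i, (m i : ℝ) →
      ∃ G : MvPolynomial (Fin n × Fin 3) ℂ, G ≠ 0 ∧
        ∀ P : Fin n → Fin 3 → ℂ, (∀ i, P i ≠ 0) →
          MvPolynomial.eval (fun ij : Fin n × Fin 3 => P ij.1 ij.2) G ≠ 0 →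
          MvPolynomial.homogeneousSubmodule (Fin 3) ℂ d ⊓
            ⨅ i : Fin n, Submodule.restrictScalars ℂ
              ((Ideal.span {g : MvPolynomial (Fin 3) ℂ |
                  g.IsHomogeneous 1 ∧ MvPolynomial.eval (P i) g = 0}) ^ (m i)
                : Ideal (MvPolynomial (Fin 3) ℂ)) = ⊥) := by
  obtain ⟨c1, hc1, n1, h1⟩ := mainA hEW
  obtain ⟨c2, hc2, n2, h2⟩ := mainB hEW
  refine ⟨min c1 c2, lt_min hc1 hc2, max n1 n2, ?_⟩
  intro n hn
  have hn1 : n1 ≤ n := le_trans (le_max_left _ _) hn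
  have hn2 : n2 ≤ n := le_trans (le_max_right _ _) hn
  have hx : (0 : ℝ) ≤ (n : ℝ) ^ (1 / 3 : ℝ) := Real.rpow_nonneg (Nat.cast_nonneg n) _
  have e1 : min c1 c2 * (n : ℝ) ^ (1 / 3 : ℝ) ≤ c1 * (n : ℝ) ^ (1 / 3 : ℝ) :=
    mul_le_mul_of_nonneg_right (min_le_left _ _) hx
  have e2 : min c1 c2 * (n : ℝ) ^ (1 / 3 : ℝ) ≤ c2 * (n : ℝ) ^ (1 / 3 : ℝ) :=
    mul_le_mul_of_nonneg_right (min_le_right _ _) hx
  constructor
  · intro m d hm h
    apply h1 n hn1 m d hm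
    rcases h with h | h
    · left
      exact le_trans h (Real.exp_le_exp.mpr e1)
    · right
      refine le_trans ?_ h
      apply mul_le_mul_of_nonneg_right _ (by positivity)
      exact Real.exp_le_exp.mpr (by linarith)
  · intro m d h
    set m' : ℕ → ℕ := fun i => if hi : i < n then m ⟨i, hi⟩ else 0 with hm'
    have hmm : ∀ i : Fin n, m' i = m i := by
      intro i
      rw [hm']
      simp only
      rw [dif_pos i.2]
    have hsum : ∑ i ∈ range n, (m' i : ℝ) = ∑ i, (m i : ℝ) := by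
      rw [← Fin.sum_univ_eq_sum_range (fun i => (m' i : ℝ)) n]
      apply sum_congr rfl
      intro i _
      rw [hmm]
    have h3 : Inj (triD 0 d) (rows m' (range n)) := by
      apply h2 n hn2 m' d
      rw [hsum]
      refine lt_of_le_of_lt ?_ h
      apply mul_le_mul_of_nonneg_right _ (Nat.cast_nonneg d)
      apply mul_le_mul_of_nonneg_right _ (Real.sqrt_nonneg _)
      have : Real.exp (-(c2 * (n : ℝ) ^ (1 / 3 : ℝ))) ≤
          Real.exp (-(min c1 c2 * (n : ℝ) ^ (1 / 3 : ℝ))) := Real.exp_le_exp.mpr (by linarith)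
      linarith
    obtain ⟨G, hG, hG2⟩ := bot_of_inj h3
    refine ⟨G, hG, ?_⟩
    intro P hP hPG
    have h4 := hG2 P hP hPG
    unfold Vsp at h4
    have e : (fun i : Fin n => Submodule.restrictScalars ℂ
              ((Ideal.span {g : MvPolynomial (Fin 3) ℂ |
                  g.IsHomogeneous 1 ∧ MvPolynomial.eval (P i) g = 0}) ^ (m' (i : ℕ))
                : Ideal (MvPolynomial (Fin 3) ℂ))) =
        (fun i : Fin n => Submodule.restrictScalars ℂ
              ((Ideal.span {g : MvPolynomial (Fin 3) ℂ |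
                  g.IsHomogeneous 1 ∧ MvPolynomial.eval (P i) g = 0}) ^ (m i)
                : Ideal (MvPolynomial (Fin 3) ℂ))) := by
      funext i
      rw [hmm]
    rw [e] at h4
    exact h4

end Pool.Agent.Helper94.AM
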