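import Pool.Agent.Helper94.AM.Dim
import Pool.Agent.Helper46.EW.Fin

/-!
# All multiplicities (MP_d3128a_ag): generic statements and numbers
-/

set_option autoImplicit false

namespace Pool.Agent.Helper94.AM

open Finset Pool.Agent.Lead.Sh
open Pool.Agent.Helper43.Hw (NS)

/-- the points are distinct -/
lemma inj_of_sur {P : ℕ → ℂ × ℂ} {s : Finset ℕ} {m : ℕ → ℕ} {d : ℕ} (h : Sur P s m d)
    (hm : ∀ k ∈ s, 1 ≤ m k) : Set.InjOn P (s : Set ℕ) := by
  classical
  intro k hk l hl hkl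
  by_contra hne
  obtain ⟨f, _, hf⟩ := h (fun i => if i = k then 0 else 1)
  have h1 := hf k hk
  have h2 := hf l hl
  rw [if_pos rfl] at h1
  rw [if_neg (fun h => hne h.symm), ← hkl] at h2
  have h3 : f - 0 ∈ Jp (P k) 1 := Jp_anti (hm k hk) h1
  have h4 : f - 1 ∈ Jp (P k) 1 := Jp_anti (hm l hl) h2
  have h5 : (1 : R2) ∈ Jp (P k) 1 := by
    have := Ideal.sub_mem _ h3 h4
    have e : f - 0 - (f - 1) = 1 := by ring
    rw [e] at this
    exact this
  rw [mem_Jp] at h5
  have h6 := h5 0 (by simp)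
  rw [map_one, MvPolynomial.coeff_zero_one] at h6
  exact one_ne_zero h6

/-- points good for two systems -/
lemma common {n : ℕ} {m m' : ℕ → ℕ} {d d' : ℕ} (h : Ind (triD 0 d) (rows m (range n)))
    (h' : Ind (triD 0 d') (rows m' (range n))) :
    ∃ P : ℕ → ℂ × ℂ, IndAt (triD 0 d) (rows m (range n)) P ∧
      IndAt (triD 0 d') (rows m' (range n)) P := by
  obtain ⟨G, hG, hG2⟩ := generic_ind h
  obtain ⟨G', hG', hG2'⟩ := generic_ind h'
  have hne : G * G' ≠ 0 := mul_ne_zero hG hG'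
  obtain ⟨x, hx⟩ : ∃ x : Fin n × Fin 3 → ℂ, MvPolynomial.eval x (G * G') ≠ 0 := by
    by_contra hcon
    push Not at hcon
    exact hne (MvPolynomial.funext (fun x => by rw [hcon x, map_zero]))
  rw [map_mul] at hx
  exact ⟨aff (fun i j => x (i, j)), (hG2 (fun i j => x (i, j)) (left_ne_zero_of_mul hx)).2,
    (hG2' (fun i j => x (i, j)) (right_ne_zero_of_mul hx)).2⟩

/-- adding a system, generic version -/
theorem ind_add {n : ℕ} {m m0 : ℕ → ℕ} {d D : ℕ} (hD : 1 ≤ D)
    (h0 : Ind (triD 0 (D - 1)) (rows m0 (range n))) (h1 : ∀ k < n, 1 ≤ m0 k)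
    (h : Ind (triD 0 d) (rows m (range n))) (hd : D ≤ d + 2) (q : ℕ) :
    Ind (triD 0 (d + q * D)) (rows (fun k => m k + q * m0 k) (range n)) := by
  obtain ⟨P, hP, hP'⟩ := common h0 h
  have s0 := sur_of_ind hP
  have s1 := sur_of_ind hP'
  have hinj := inj_of_sur s0 (fun k hk => h1 k (mem_range.mp hk))
  exact ⟨P, ind_of_sur (iter hinj hD s0 s1 hd q)⟩

/-- emptiness, generic version -/
theorem inj_below {n : ℕ} {m m0 : ℕ → ℕ} {d D : ℕ} (hD : 1 ≤ D)
    (h0 : Ind (triD 0 (D - 1)) (rows m0 (range n))) (h1 : ∀ k < n, 1 ≤ m0 k)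
    (h : D * d < ∑ k ∈ range n, m0 k * m k) : Inj (triD 0 d) (rows m (range n)) := by
  obtain ⟨P, hP⟩ := h0
  have s0 := sur_of_ind hP
  have hinj := inj_of_sur s0 (fun k hk => h1 k (mem_range.mp hk))
  refine ⟨P, injAt_iff.mpr ?_⟩
  intro f hf hf2
  by_contra hne
  have := bez hinj hD s0 hne (show f ∈ W P (range n) m d from ⟨hf, hf2⟩)
  omega

/-- rank and independence -/
lemma ind_of_rank {d : ℕ} {R : Finset Row} {P : ℕ → ℂ × ℂ} (h : (Mx d R P).rank = R.card) :
    IndAt (triD 0 d) R P := by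
  rw [← Matrix.rank_transpose] at h
  set M := (Mx d R P).transpose with hM
  have h1 := LinearMap.finrank_range_add_finrank_ker M.mulVecLin
  rw [Module.finrank_fintype_fun_eq_card, Fintype.card_coe] at h1
  have h2 : Module.finrank ℂ ↥(LinearMap.range M.mulVecLin) = R.card := h
  have h3 : Module.finrank ℂ ↥(LinearMap.ker M.mulVecLin) = 0 := by omega
  have h4 : LinearMap.ker M.mulVecLin = ⊥ := Submodule.finrank_eq_zero.mp h3
  intro l hl r hr
  have h5 : (fun r : ↥R => l r) ∈ LinearMap.ker M.mulVecLin := by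
    rw [LinearMap.mem_ker, Matrix.mulVecLin_apply]
    funext p
    rw [Matrix.mulVec, dotProduct, Pi.zero_apply]
    refine Eq.trans ?_ (hl p p.2)
    rw [← sum_coe_sort R]
    apply sum_congr rfl
    intro r _
    rw [mul_comm]; rfl
  rw [h4, Submodule.mem_bot] at h5
  exact congrFun h5 ⟨r, hr⟩

/-- from the dimension to independence -/
lemma ind_of_ns {n m d : ℕ} (h : NS n m d) (hle : n * (m + 1).choose 2 ≤ (d + 2).choose 2) :
    Ind (triD 0 d) (rows (fun _ => m) (range n)) := by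
  obtain ⟨G, hG, h2⟩ := h
  have hne : G * ∏ i : Fin n, MvPolynomial.X (i, (2 : Fin 3)) ≠ 0 := by
    apply mul_ne_zero hG
    rw [prod_ne_zero_iff]
    intro i _; exact MvPolynomial.X_ne_zero _
  obtain ⟨x, hx⟩ : ∃ x : Fin n × Fin 3 → ℂ,
      MvPolynomial.eval x (G * ∏ i : Fin n, MvPolynomial.X (i, (2 : Fin 3))) ≠ 0 := by
    by_contra hcon
    push Not at hcon
    exact hne (MvPolynomial.funext (fun x => by rw [hcon x, map_zero]))
  rw [map_mul, map_prod] at hx
  set P : Fin n → Fin 3 → ℂ := fun i j => x (i, j) with hP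
  have hz : ∀ i, P i 2 ≠ 0 := by
    intro i
    have := (prod_ne_zero_iff.1 (right_ne_zero_of_mul hx)) i (mem_univ i)
    rwa [MvPolynomial.eval_X] at this
  have h3 := h2 P (fun i h0 => hz i (by rw [h0]; rfl)) (left_ne_zero_of_mul hx)
  have h4 := finrank_Vsp (s := n) (m := fun _ => m) (d := d) (P := P) hz
  have h5 : (Module.finrank ℂ ↥(Vsp n (fun _ => m) d P) : ℤ) =
      max ((Nat.choose (d + 2) 2 : ℤ) - n * (Nat.choose (m + 1) 2 : ℤ)) 0 := h3
  have h6 : (n * (m + 1).choose 2 : ℤ) ≤ ((d + 2).choose 2 : ℤ) := by exact_mod_cast hle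
  rw [max_eq_left (by linarith)] at h5
  refine ⟨aff P, ind_of_rank ?_⟩
  rw [card_rows]
  have h7 : ∑ k ∈ range n, Nat.choose (m + 1) 2 = n * Nat.choose (m + 1) 2 := by simp
  rw [h7]
  have h8 : (n * (m + 1).choose 2 : ℤ) = ((n * (m + 1).choose 2 : ℕ) : ℤ) := by push_cast; rfl
  rw [h8] at h5
  omega

/-! ### numbers -/

/-- the least degree in which the conditions can be independent -/
noncomputable def K (n r : ℕ) : ℕ := by
  classical
  exact Nat.find (p := fun d => n * (r * (r + 1)) ≤ (d + 1) * (d + 2))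
    ⟨n * (r * (r + 1)), le_trans (Nat.le_succ _) (Nat.le_mul_of_pos_right _ (by omega))⟩

lemma K_spec (n r : ℕ) : n * (r * (r + 1)) ≤ (K n r + 1) * (K n r + 2) := by
  classical
  unfold K
  exact Nat.find_spec (p := fun d => n * (r * (r + 1)) ≤ (d + 1) * (d + 2)) _

lemma K_min (n r d : ℕ) (h : n * (r * (r + 1)) ≤ (d + 1) * (d + 2)) : K n r ≤ d := by
  classical
  unfold K
  exact Nat.find_min' (p := fun d => n * (r * (r + 1)) ≤ (d + 1) * (d + 2)) _ h

lemma K_mono (n r r' : ℕ) (h : r ≤ r') : K n r ≤ K n r' := by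
  apply K_min
  refine le_trans (Nat.mul_le_mul_left n (Nat.mul_le_mul h (by omega))) (K_spec n r')

lemma K_real (n r : ℕ) (hn : 1 ≤ n) : (K n r : ℝ) + 1 / 2 ≤ √(n : ℝ) * (r + 1 / 2) := by
  have hn1 : (1 : ℝ) ≤ n := by exact_mod_cast hn
  have hs1 : 1 ≤ √(n : ℝ) := Real.one_le_sqrt.mpr hn1
  have hr0 : (0 : ℝ) ≤ r := Nat.cast_nonneg r
  rcases Nat.eq_zero_or_pos (K n r) with h | h
  · rw [h]
    push_cast
    nlinarith
  · obtain ⟨d, hd⟩ : ∃ d, K n r = d + 1 := ⟨K n r - 1, by omega⟩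
    have h1 : ¬ n * (r * (r + 1)) ≤ (d + 1) * (d + 2) := by
      intro h2
      have := K_min n r d h2
      omega
    push Not at h1
    have h2 : ((d : ℝ) + 1) * (d + 2) < n * (r * (r + 1)) := by exact_mod_cast h1
    rw [hd]
    push_cast
    have h3 : ((d : ℝ) + 1 + 1 / 2) ^ 2 ≤ (√(n : ℝ) * (r + 1 / 2)) ^ 2 := by
      rw [mul_pow, Real.sq_sqrt (by linarith)]
      nlinarith
    exact le_of_sq_le_sq h3 (by positivity)
  where
  le_of_sq_le_sq {a b : ℝ} (h : a ^ 2 ≤ b ^ 2) (hb : 0 ≤ b) : a ≤ b := by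
    by_contra hc
    push Not at hc
    nlinarith

lemma choose_le_iff (n m d : ℕ) : n * (m + 1).choose 2 ≤ (d + 2).choose 2 ↔
    n * (m * (m + 1)) ≤ (d + 1) * (d + 2) := by
  have h1 := two_choose m
  have h2 := two_choose (d + 1)
  have h3 : 2 * (n * (m + 1).choose 2) = n * (m * (m + 1)) := by
    rw [← h1]; ring
  have h4 : 2 * (d + 2).choose 2 = (d + 1) * (d + 2) := h2
  omega

/-- the assembly for one value of `m₀` -/
theorem window {n m0 : ℕ} (hn : 1 ≤ n) (hm0 : 1 ≤ m0)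
    (hNS : ∀ r d : ℕ, 1 ≤ r → r ≤ 2 * m0 → NS n r d) (m d : ℕ) (hm : 2 * m0 < m)
    (h : √(n : ℝ) * m / m0 ≤ |(d : ℝ) - √(n : ℝ) * m|) : NS n m d := by
  have hn1 : (1 : ℝ) ≤ n := by exact_mod_cast hn
  have hs1 : 1 ≤ √(n : ℝ) := Real.one_le_sqrt.mpr hn1
  have hss : √(n : ℝ) * √(n : ℝ) = n := Real.mul_self_sqrt (by linarith)
  have hm0r : (1 : ℝ) ≤ m0 := by exact_mod_cast hm0
  have hmr : (2 : ℝ) * m0 ≤ m := by exact_mod_cast hm.le
  have hInd : ∀ r, 1 ≤ r → r ≤ 2 * m0 →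
      Ind (triD 0 (K n r)) (rows (fun _ => r) (range n)) := by
    intro r hr1 hr2
    exact ind_of_ns (hNS r (K n r) hr1 hr2) ((choose_le_iff n r (K n r)).mpr (K_spec n r))
  set D := K n m0 + 1 with hD
  have h0 : Ind (triD 0 (D - 1)) (rows (fun _ => m0) (range n)) := by
    rw [hD, Nat.add_sub_cancel]
    exact hInd m0 hm0 (by omega)
  have hDr : (D : ℝ) ≤ √(n : ℝ) * (m0 + 1 / 2) + 1 / 2 := by
    have := K_real n m0 hn
    rw [hD]
    push_cast
    linarith
  rcases le_abs.mp h with h2 | h2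
  · -- independence
    obtain ⟨q, r, hqr, hr1, hr2⟩ : ∃ q r : ℕ, m = r + q * m0 ∧ m0 ≤ r ∧ r < 2 * m0 := by
      have h3 := Nat.div_add_mod m m0
      have h4 := Nat.mod_lt m hm0
      have h5 : 1 ≤ m / m0 := (Nat.one_le_div_iff hm0).mpr (by omega)
      refine ⟨m / m0 - 1, m % m0 + m0, ?_, by omega, by omega⟩
      obtain ⟨t, ht⟩ : ∃ t, m / m0 = t + 1 := ⟨m / m0 - 1, by omega⟩
      rw [ht] at h3 ⊢
      rw [Nat.add_sub_cancel]
      calc m = m0 * (t + 1) + m % m0 := h3.symm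
        _ = m % m0 + m0 + t * m0 := by ring
    have h6 := ind_add (q := q) (by omega : 1 ≤ D) h0 (fun _ _ => hm0)
      (hInd r (by omega) (by omega)) (by
        have := K_mono n m0 r hr1
        omega)
    have e1 : (fun _ : ℕ => r + q * m0) = (fun _ : ℕ => m) := by rw [← hqr]
    rw [e1] at h6
    have h7 : ((K n r + q * D : ℕ) : ℝ) ≤ d := by
      have h8 := K_real n r hn
      have h9 : ((q : ℝ) + 1) * m0 ≤ m := by
        have h10 : (q + 1) * m0 ≤ m := by
          rw [hqr, add_mul, one_mul, add_comm]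
          exact Nat.add_le_add_right hr1 _
        exact_mod_cast h10
      have h11 : ((q : ℝ) + 1) * √(n : ℝ) ≤ √(n : ℝ) * m / m0 := by
        rw [le_div_iff₀ (by linarith)]
        calc ((q : ℝ) + 1) * √(n : ℝ) * m0 = √(n : ℝ) * (((q : ℝ) + 1) * m0) := by ring
          _ ≤ √(n : ℝ) * m := mul_le_mul_of_nonneg_left h9 (by linarith)
      have h12 : (m : ℝ) = r + q * m0 := by exact_mod_cast hqr
      have hq0 : (0 : ℝ) ≤ q := Nat.cast_nonneg q
      push_cast
      have h13 : (q : ℝ) * D ≤ q * (√(n : ℝ) * (m0 + 1 / 2) + 1 / 2) :=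
        mul_le_mul_of_nonneg_left hDr hq0
      have h14 : (K n r : ℝ) + q * D ≤ √(n : ℝ) * m + ((q : ℝ) + 1) * √(n : ℝ) := by
        rw [h12]
        nlinarith
      linarith
    have h15 : K n r + q * D ≤ d := by exact_mod_cast h7
    have h16 : Ind (triD 0 d) (rows (fun _ => m) (range n)) := by
      refine h6.mono ?_ (Finset.Subset.refl _)
      intro p hp
      rw [mem_triD] at hp ⊢
      omega
    apply Pool.Agent.Helper46.EW.ns_of_fill
    left
    refine ⟨?_, h16⟩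
    rw [choose_le_iff]
    have h17 : (√(n : ℝ) * m) + 2 ≤ (d : ℝ) + 2 * 1 := by
      have : 0 ≤ √(n : ℝ) * m / m0 := by positivity
      linarith
    have h18 : (n : ℝ) * (m * (m + 1)) ≤ (d + 1) * (d + 2) := by
      have h19 : √(n : ℝ) * m + 2 * √(n : ℝ) ≤ d := by
        have h20 : 2 * √(n : ℝ) ≤ √(n : ℝ) * m / m0 := by
          rw [le_div_iff₀ (by linarith)]
          nlinarith
        linarith
      have h21 : (√(n : ℝ) * (m + 2)) ^ 2 ≤ (d : ℝ) ^ 2 := by
        apply pow_le_pow_left₀ (by positivity)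
        linarith
      rw [mul_pow, Real.sq_sqrt (by linarith)] at h21
      have hm0' : (0 : ℝ) ≤ m := Nat.cast_nonneg m
      have hd0' : (0 : ℝ) ≤ d := Nat.cast_nonneg d
      nlinarith
    exact_mod_cast h18
  · -- emptiness
    have h22 : √(n : ℝ) * m / m0 + d ≤ √(n : ℝ) * m := by linarith
    have hm0' : (0 : ℝ) < m := by linarith
    have h23 : Inj (triD 0 d) (rows (fun _ => m) (range n)) := by
      apply inj_below (by omega : 1 ≤ D) h0 (fun _ _ => hm0)
      have h24 : ∑ _k ∈ range n, m0 * m = n * (m0 * m) := by simp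
      rw [h24]
      have h25 : (D : ℝ) * d < n * (m0 * m) := by
        have h26 : (D : ℝ) ≤ √(n : ℝ) * (m0 + 1) := by nlinarith
        have h27 : (d : ℝ) * m0 ≤ √(n : ℝ) * m * (m0 - 1) := by
          have h28 : (d : ℝ) ≤ √(n : ℝ) * m - √(n : ℝ) * m / m0 := by linarith
          calc (d : ℝ) * m0 ≤ (√(n : ℝ) * m - √(n : ℝ) * m / m0) * m0 :=
                mul_le_mul_of_nonneg_right h28 (by linarith)
            _ = √(n : ℝ) * m * (m0 - 1) := by
                field_simp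
        have hd0' : (0 : ℝ) ≤ d := Nat.cast_nonneg d
        have h29 : (D : ℝ) * d * m0 < n * (m0 * m) * m0 := by
          calc (D : ℝ) * d * m0 = D * (d * m0) := by ring
            _ ≤ (√(n : ℝ) * (m0 + 1)) * (√(n : ℝ) * m * (m0 - 1)) :=
                mul_le_mul h26 h27 (by positivity) (by positivity)
            _ = (√(n : ℝ) * √(n : ℝ)) * m * (m0 ^ 2 - 1) := by ring
            _ = n * m * (m0 ^ 2 - 1) := by rw [hss]
            _ < n * m * m0 ^ 2 := by
                apply mul_lt_mul_of_pos_left (by linarith)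
                positivity
            _ = n * (m0 * m) * m0 := by ring
        exact lt_of_mul_lt_mul_right h29 (by linarith)
      exact_mod_cast h25
    apply Pool.Agent.Helper46.EW.ns_of_fill
    right
    refine ⟨?_, h23⟩
    have h30 : ((d : ℝ) + 1) * (d + 2) ≤ n * (m * (m + 1)) := by
      have h31 : 2 * √(n : ℝ) ≤ √(n : ℝ) * m / m0 := by
        rw [le_div_iff₀ (by linarith)]
        nlinarith
      have h32 : (d : ℝ) + 2 ≤ √(n : ℝ) * m := by linarith
      have hd0' : (0 : ℝ) ≤ d := Nat.cast_nonneg d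
      have h33 : ((d : ℝ) + 2) ^ 2 ≤ (√(n : ℝ) * m) ^ 2 := pow_le_pow_left₀ (by positivity) h32 2
      rw [mul_pow, Real.sq_sqrt (by linarith)] at h33
      nlinarith
    have h34 : (d + 1) * (d + 2) ≤ n * (m * (m + 1)) := by exact_mod_cast h30
    have h1 := two_choose m
    have h2' : 2 * (d + 2).choose 2 = (d + 1) * (d + 2) := two_choose (d + 1)
    have h3 : 2 * (n * (m + 1).choose 2) = n * (m * (m + 1)) := by
      rw [← h1]; ring
    omega

end Pool.Agent.Helper94.AM
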