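import Pool.Agent.Helper94.AM.UWI
import Pool.Agent.Helper94.AM.Cluster

/-!
# Arbitrary multiplicities (MP_d3128a_ag): large points, numbers
-/

set_option autoImplicit false

namespace Pool.Agent.Helper94.AM

open Finset Pool.Agent.Lead.Sh
open Pool.Agent.Helper18.UW (lg CoreC)

/-- all multiplicities are at least `L`: division by `q` -/
theorem large_ind (hU : UWI) {A : Finset ℕ} {m : ℕ → ℕ} {L d q M0 : ℕ} (hq : 1 ≤ q) (hL : 1 ≤ L)
    (hm : ∀ k ∈ A, L ≤ m k ∧ m k ≤ q * M0) (hM0 : 1 ≤ M0)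
    (hUW : q * (2 ^ 400 * lg M0 ^ 3 * M0 + 1) ≤ d + 1) {e : ℝ} (he : 6 * (q : ℝ) ≤ e * L)
    (hLd : L ≤ d) (hN : (UU m A : ℝ) ≤ (1 - e) * (((d : ℝ) + 1) * (d + 2))) :
    Ind (triD 0 d) (rows m A) := by
  set m0 : ℕ → ℕ := fun k => (m k + (q - 1)) / q with hm0
  have f1 : ∀ k, m k ≤ q * m0 k ∧ q * m0 k ≤ m k + (q - 1) := by
    intro k
    have h1 := Nat.div_add_mod (m k + (q - 1)) q
    have h2 := Nat.mod_lt (m k + (q - 1)) (show 0 < q by omega)
    show m k ≤ q * ((m k + (q - 1)) / q) ∧ q * ((m k + (q - 1)) / q) ≤ m k + (q - 1)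
    omega
  have f2 : ∀ k ∈ A, 1 ≤ m0 k ∧ m0 k ≤ M0 := by
    intro k hk
    obtain ⟨h1, h2⟩ := f1 k
    obtain ⟨h3, h4⟩ := hm k hk
    constructor
    · by_contra h
      have : m0 k = 0 := by omega
      rw [this, mul_zero] at h1
      omega
    · by_contra h
      have h5 : q * (M0 + 1) ≤ q * m0 k := Nat.mul_le_mul_left q (by omega)
      rw [mul_add, mul_one] at h5
      omega
  set D : ℕ := (d + 1) / q with hD
  have hD1 : q * D ≤ d + 1 := Nat.mul_div_le (d + 1) q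
  have hD2 : d + 1 < q * D + q := by
    have h1 := Nat.div_add_mod (d + 1) q
    have h2 := Nat.mod_lt (d + 1) (show 0 < q by omega)
    rw [← hD] at h1
    omega
  have hD3 : 2 ^ 400 * lg M0 ^ 3 * M0 + 1 ≤ D := by
    rw [hD, Nat.le_div_iff_mul_le (by omega), mul_comm]
    exact hUW
  have hDpos : 1 ≤ D := by omega
  -- the number of conditions
  have hqr : (1 : ℝ) ≤ q := by exact_mod_cast hq
  have hLr : (1 : ℝ) ≤ L := by exact_mod_cast hL
  have hL0 : (0 : ℝ) < L := by linarith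
  set η : ℝ := 2 * q / L with hη
  have hη0 : 0 ≤ η := by positivity
  have hηe : 3 * η ≤ e := by
    rw [hη, ← mul_div_assoc, div_le_iff₀ hL0]
    linarith
  have hηL : η * L = 2 * q := by
    rw [hη]
    field_simp
  have hterm : ∀ k ∈ A, (q : ℝ) ^ 2 * (m0 k * (m0 k + 1)) ≤ (1 + η) ^ 2 * (m k * (m k + 1)) := by
    intro k hk
    obtain ⟨_, h2⟩ := f1 k
    have hqm : (q : ℝ) * m0 k ≤ m k + q := by
      have : q * m0 k ≤ m k + q := by omega
      exact_mod_cast this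
    have hmL : (L : ℝ) ≤ m k := by exact_mod_cast (hm k hk).1
    have hmk : (0 : ℝ) ≤ m k := by linarith
    have hm0k : (0 : ℝ) ≤ m0 k := Nat.cast_nonneg _
    have h3 : 2 * (q : ℝ) ≤ η * m k := by
      rw [← hηL]
      exact mul_le_mul_of_nonneg_left hmL hη0
    have h4 : (q : ℝ) * m0 k ≤ (1 + η) * m k := by linarith
    have h5 : (q : ℝ) * (m0 k + 1) ≤ (1 + η) * (m k + 1) := by
      have : (q : ℝ) * (m0 k + 1) = q * m0 k + q := by ring
      rw [this]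
      nlinarith
    calc (q : ℝ) ^ 2 * (m0 k * (m0 k + 1)) = (q * m0 k) * (q * (m0 k + 1)) := by ring
      _ ≤ ((1 + η) * m k) * ((1 + η) * (m k + 1)) := by
          apply mul_le_mul h4 h5 (by positivity) (by positivity)
      _ = (1 + η) ^ 2 * (m k * (m k + 1)) := by ring
  have hsum : (q : ℝ) ^ 2 * (UU m0 A : ℝ) ≤ (1 + η) ^ 2 * (UU m A : ℝ) := by
    unfold UU
    push_cast
    rw [mul_sum, mul_sum]
    exact sum_le_sum hterm
  have hd0 : (0 : ℝ) ≤ d := Nat.cast_nonneg d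
  have hdd : (0 : ℝ) ≤ ((d : ℝ) + 1) * (d + 2) := by positivity
  have hLdr : (L : ℝ) ≤ d := by exact_mod_cast hLd
  have h6 : (1 + η) ^ 2 * ((1 - e) * (((d : ℝ) + 1) * (d + 2))) ≤
      (1 - η) * (((d : ℝ) + 1) * (d + 2)) := by
    rw [← mul_assoc]
    apply mul_le_mul_of_nonneg_right _ hdd
    calc (1 + η) ^ 2 * (1 - e) ≤ (1 + η) ^ 2 * (1 - 3 * η) := by
          apply mul_le_mul_of_nonneg_left (by linarith) (by positivity)
      _ ≤ 1 - η := by nlinarith [sq_nonneg η, mul_nonneg hη0 (sq_nonneg η)]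
  have h7 : (1 - η) * (((d : ℝ) + 1) * (d + 2)) ≤ (d + 2 - q) * (d + 2) := by
    rw [← mul_assoc]
    apply mul_le_mul_of_nonneg_right _ (by positivity)
    have h8 : 2 * (q : ℝ) ≤ η * (d + 1) := by
      rw [← hηL]
      apply mul_le_mul_of_nonneg_left _ hη0
      linarith
    nlinarith
  have h9 : ((d : ℝ) + 2 - q) * (d + 2) ≤ (q : ℝ) ^ 2 * (D * (D + 1)) := by
    have hD2r : (d : ℝ) + 2 ≤ q * D + q := by
      have : d + 2 ≤ q * D + q := by omega
      exact_mod_cast this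
    have hqD : (0 : ℝ) ≤ q * D := by positivity
    calc ((d : ℝ) + 2 - q) * (d + 2) ≤ (q * D) * (d + 2) := by
          apply mul_le_mul_of_nonneg_right _ (by positivity)
          linarith
      _ ≤ (q * D) * (q * D + q) := mul_le_mul_of_nonneg_left hD2r hqD
      _ = (q : ℝ) ^ 2 * (D * (D + 1)) := by ring
  have h10 : (q : ℝ) ^ 2 * (UU m0 A : ℝ) ≤ (q : ℝ) ^ 2 * (D * (D + 1)) := by
    calc (q : ℝ) ^ 2 * (UU m0 A : ℝ) ≤ (1 + η) ^ 2 * (UU m A : ℝ) := hsum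
      _ ≤ (1 + η) ^ 2 * ((1 - e) * (((d : ℝ) + 1) * (d + 2))) :=
          mul_le_mul_of_nonneg_left hN (by positivity)
      _ ≤ _ := (h6.trans h7).trans h9
  have h11 : (UU m0 A : ℝ) ≤ D * (D + 1) := le_of_mul_le_mul_left h10 (by positivity)
  have h12 : UU m0 A ≤ D * (D + 1) := by exact_mod_cast h11
  have h13 : Ind (triD 0 (D - 1)) (rows m0 A) := by
    apply (hU A m0 M0 (D - 1) f2 hM0 (by omega)).1
    have e1 : (D - 1 + 1) * (D - 1 + 2) = D * (D + 1) := by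
      have h14 : D - 1 + 1 = D := by omega
      have h15 : D - 1 + 2 = D + 1 := by omega
      rw [h14, h15]
    rw [e1]
    exact h12
  have h14 := ind_mul hDpos h13 (fun k hk => (f2 k hk).1) hq
  apply h14.mono
  · intro p hp
    rw [mem_triD] at hp ⊢
    omega
  · intro r hr
    rw [mem_rows] at hr ⊢
    have := (f1 r.1).1
    exact ⟨hr.1, by omega⟩

lemma two_le_exp_one : (2 : ℝ) ≤ Real.exp 1 := by
  have := Real.add_one_le_exp (1 : ℝ)
  linarith

lemma exp_three : (16 : ℝ) ≤ Real.exp 3 := by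
  have h1 := Real.exp_one_gt_d9
  have h2 : Real.exp 3 = Real.exp 1 ^ 3 := by
    rw [← Real.exp_nat_mul]
    norm_num
  rw [h2]
  have h3 : (2.7 : ℝ) ≤ Real.exp 1 := by linarith
  calc (16 : ℝ) ≤ 2.7 ^ 3 := by norm_num
    _ ≤ Real.exp 1 ^ 3 := pow_le_pow_left₀ (by norm_num) h3 3

lemma big {t : ℝ} (ht : 1024 ≤ t) : 2 ^ 430 * (t + 3) ^ 3 ≤ Real.exp t := by
  set y : ℝ := t / 2 with hy
  have hy0 : 512 ≤ y := by linarith
  have h1 : Real.exp t = Real.exp y * Real.exp y := by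
    rw [← Real.exp_add]
    congr 1
    linarith
  have h2 : (2 : ℝ) ^ 430 ≤ Real.exp y := by
    calc (2 : ℝ) ^ 430 ≤ 2 ^ 512 := pow_le_pow_right₀ (by norm_num) (by norm_num)
      _ ≤ Real.exp 1 ^ 512 := pow_le_pow_left₀ (by norm_num) two_le_exp_one 512
      _ = Real.exp 512 := by
          rw [← Real.exp_nat_mul]
          norm_num
      _ ≤ Real.exp y := Real.exp_le_exp.mpr hy0
  have h3 : (t + 3) ^ 3 ≤ Real.exp y := by
    have h4 : y ^ 5 / (Nat.factorial 5 : ℝ) ≤ Real.exp y := Real.pow_div_factorial_le_exp y (by linarith) 5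
    have h5 : t + 3 ≤ 3 * y := by linarith
    have h6 : (t + 3) ^ 3 ≤ (3 * y) ^ 3 := pow_le_pow_left₀ (by linarith) h5 3
    have h7 : (Nat.factorial 5 : ℝ) = 120 := by norm_num [Nat.factorial]
    rw [h7] at h4
    have h8 : (3 * y) ^ 3 ≤ y ^ 5 / 120 := by
      rw [le_div_iff₀ (by norm_num)]
      have h9 : (3240 : ℝ) ≤ y ^ 2 := by nlinarith
      have h10 : 0 ≤ y ^ 3 := by positivity
      nlinarith
    linarith
  rw [h1]
  exact mul_le_mul h2 h3 (by positivity) (Real.exp_pos _).le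

lemma big2 {t : ℝ} (ht : 1024 ≤ t) : (2 : ℝ) ^ 430 ≤ Real.exp t := by
  refine le_trans ?_ (big ht)
  have h1 : (1 : ℝ) ≤ (t + 3) ^ 3 := one_le_pow₀ (by linarith)
  exact le_mul_of_one_le_right (by positivity) h1

lemma big3 {t : ℝ} (ht : 1024 ≤ t) : (1024 : ℝ) ≤ Real.exp t := by
  refine le_trans ?_ (big2 ht)
  calc (1024 : ℝ) = 2 ^ 10 := by norm_num
    _ ≤ 2 ^ 430 := pow_le_pow_right₀ (by norm_num) (by norm_num)

/-- the logarithm -/
lemma lg_le {M : ℕ} {t : ℝ} (hM1 : 1 ≤ M) (ht : 1024 ≤ t) (hM : (M : ℝ) ≤ Real.exp (10 * t)) :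
    (lg M : ℝ) ≤ 21 * t := by
  unfold lg
  set l : ℕ := Nat.log 2 M with hl
  have h1 : 2 ^ l ≤ M := Nat.pow_log_le_self 2 (by omega)
  have h2 : (2 : ℝ) ^ l ≤ M := by exact_mod_cast h1
  have h3 : Real.exp (1 / 2) ≤ 2 := by
    have h4 := Real.exp_one_lt_d9
    have h5 : Real.exp (1 / 2) ^ 2 = Real.exp 1 := by
      rw [← Real.exp_nat_mul]
      norm_num
    nlinarith [Real.exp_pos (1 / 2 : ℝ)]
  have h6 : Real.exp ((l : ℝ) * (1 / 2)) ≤ 2 ^ l := by
    rw [Real.exp_nat_mul]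
    exact pow_le_pow_left₀ (Real.exp_pos _).le h3 l
  have h7 : (l : ℝ) * (1 / 2) ≤ 10 * t := Real.exp_le_exp.mp (h6.trans (h2.trans hM))
  push_cast
  linarith

/-- the base theorem applies -/
lemma base_le {M : ℕ} {t : ℝ} (hM1 : 1 ≤ M) (ht : 1024 ≤ t) (hM : (M : ℝ) ≤ Real.exp (10 * t)) :
    ((2 ^ 400 * lg M ^ 3 * M : ℕ) : ℝ) ≤ 2 ^ 414 * t ^ 3 * M := by
  have h1 := lg_le hM1 ht hM
  have h2 : (lg M : ℝ) ^ 3 ≤ (21 * t) ^ 3 := pow_le_pow_left₀ (Nat.cast_nonneg _) h1 3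
  have hM0 : (0 : ℝ) ≤ M := Nat.cast_nonneg M
  push_cast
  apply mul_le_mul_of_nonneg_right _ hM0
  calc (2 : ℝ) ^ 400 * (lg M : ℝ) ^ 3 ≤ 2 ^ 400 * (21 * t) ^ 3 := by
        apply mul_le_mul_of_nonneg_left h2 (by positivity)
    _ = 2 ^ 400 * (21 ^ 3) * t ^ 3 := by ring
    _ ≤ 2 ^ 414 * t ^ 3 := by
        apply mul_le_mul_of_nonneg_right _ (by positivity)
        have h5 : (2 : ℝ) ^ 414 = 2 ^ 400 * 2 ^ 14 := by rw [← pow_add]
        rw [h5]
        apply mul_le_mul_of_nonneg_left _ (by positivity)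
        norm_num

/-- the numbers of the induction step -/
lemma params2 {M : ℕ} {t : ℝ} (ht : 1024 ≤ t) (hM : Real.exp (10 * t) < M) :
    ∃ L0 a : ℕ, 1 ≤ L0 ∧ L0 < M ∧ 1 ≤ a ∧ L0 ≤ a ∧ a ≤ M ∧
      (M : ℝ) / Real.exp t ^ 4 ≤ L0 ∧ (L0 : ℝ) ≤ 2 * M / Real.exp t ^ 4 ∧
      (M : ℝ) / Real.exp t ^ 2 ≤ a ∧ (a : ℝ) ≤ 2 * M / Real.exp t ^ 2 ∧
      2 ^ 424 * (t + 3) ^ 3 * (L0 : ℝ) ≤ ((a - 1 : ℕ) : ℝ) := by
  set X : ℝ := Real.exp t with hX
  have hX0 : 0 < X := Real.exp_pos t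
  have hX1 : (1024 : ℝ) ≤ X := big3 ht
  have hX10 : Real.exp (10 * t) = X ^ 10 := by
    rw [hX, ← Real.exp_nat_mul]
    norm_num
  rw [hX10] at hM
  have hMX4 : 1 ≤ (M : ℝ) / X ^ 4 := by
    rw [le_div_iff₀ (by positivity), one_mul]
    refine le_trans ?_ hM.le
    exact pow_le_pow_right₀ (by linarith) (by norm_num)
  have hMX2 : 1 ≤ (M : ℝ) / X ^ 2 := by
    rw [le_div_iff₀ (by positivity), one_mul]
    refine le_trans ?_ hM.le
    exact pow_le_pow_right₀ (by linarith) (by norm_num)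
  have hM0 : (0 : ℝ) < M := lt_trans (by positivity) hM
  set L0 : ℕ := ⌈(M : ℝ) / X ^ 4⌉₊ with hL0
  set a : ℕ := ⌈(M : ℝ) / X ^ 2⌉₊ with ha
  have l1 : (M : ℝ) / X ^ 4 ≤ L0 := Nat.le_ceil _
  have l2 : (L0 : ℝ) < (M : ℝ) / X ^ 4 + 1 := Nat.ceil_lt_add_one (by positivity)
  have a1 : (M : ℝ) / X ^ 2 ≤ a := Nat.le_ceil _
  have a2 : (a : ℝ) < (M : ℝ) / X ^ 2 + 1 := Nat.ceil_lt_add_one (by positivity)
  have l3 : (L0 : ℝ) ≤ 2 * M / X ^ 4 := by
    have : 2 * (M : ℝ) / X ^ 4 = (M : ℝ) / X ^ 4 + (M : ℝ) / X ^ 4 := by ring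
    rw [this]
    linarith
  have a3 : (a : ℝ) ≤ 2 * M / X ^ 2 := by
    have : 2 * (M : ℝ) / X ^ 2 = (M : ℝ) / X ^ 2 + (M : ℝ) / X ^ 2 := by ring
    rw [this]
    linarith
  have hX2 : (4 : ℝ) ≤ X ^ 2 := by nlinarith
  have hX4 : (4 : ℝ) ≤ X ^ 4 := by nlinarith [sq_nonneg (X ^ 2 - 4)]
  have l4 : (L0 : ℝ) < M := by
    refine lt_of_le_of_lt l3 ?_
    rw [div_lt_iff₀ (by positivity)]
    nlinarith
  have a4 : (a : ℝ) ≤ M := by
    refine le_trans a3 ?_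
    rw [div_le_iff₀ (by positivity)]
    nlinarith
  refine ⟨L0, a, ?_, by exact_mod_cast l4, ?_, ?_, by exact_mod_cast a4, l1, l3, a1, a3, ?_⟩
  · have : (1 : ℝ) ≤ L0 := hMX4.trans l1
    exact_mod_cast this
  · have : (1 : ℝ) ≤ a := hMX2.trans a1
    exact_mod_cast this
  · apply Nat.ceil_mono
    apply div_le_div_of_nonneg_left hM0.le (by positivity)
    exact pow_le_pow_right₀ (by linarith) (by norm_num)
  · have ha1 : 1 ≤ a := by
      have : (1 : ℝ) ≤ a := hMX2.trans a1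
      exact_mod_cast this
    rw [Nat.cast_sub ha1, Nat.cast_one]
    have hM2X : 2 ≤ (M : ℝ) / X ^ 2 := by
      rw [le_div_iff₀ (by positivity)]
      refine le_trans ?_ hM.le
      have : X ^ 10 = X ^ 8 * X ^ 2 := by ring
      rw [this]
      apply mul_le_mul_of_nonneg_right _ (by positivity)
      have : (1 : ℝ) ≤ X := by linarith
      calc (2 : ℝ) ≤ X := by linarith
        _ = X ^ 1 := (pow_one X).symm
        _ ≤ X ^ 8 := pow_le_pow_right₀ this (by norm_num)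
    calc 2 ^ 424 * (t + 3) ^ 3 * (L0 : ℝ) ≤ 2 ^ 424 * (t + 3) ^ 3 * (2 * M / X ^ 4) := by
          apply mul_le_mul_of_nonneg_left l3 (by positivity)
      _ = (2 ^ 426 * (t + 3) ^ 3) * (M / X ^ 4) / 2 := by
          have h5 : (2 : ℝ) ^ 426 = 2 ^ 424 * 2 ^ 2 := by rw [← pow_add]
          rw [h5]
          ring
      _ ≤ X * (M / X ^ 4) / 2 := by
          have h1 : 2 ^ 426 * (t + 3) ^ 3 ≤ X := by
            refine le_trans ?_ (big ht)
            apply mul_le_mul_of_nonneg_right _ (by positivity)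
            exact pow_le_pow_right₀ (by norm_num) (by norm_num)
          have h2 : 0 ≤ M / X ^ 4 := by positivity
          have h3 := mul_le_mul_of_nonneg_right h1 h2
          linarith
      _ ≤ (M / X ^ 2) / 2 := by
          have h1 : X * (M / X ^ 4) ≤ M / X ^ 2 := by
            have h2 : X * ((M : ℝ) / X ^ 4) = (M / X ^ 2) * (1 / X) := by
              field_simp
            rw [h2]
            have h3 : 1 / X ≤ 1 := by
              rw [div_le_one hX0]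
              linarith
            have h4 : 0 ≤ (M : ℝ) / X ^ 2 := by positivity
            nlinarith
          linarith
      _ ≤ a - 1 := by linarith

end Pool.Agent.Helper94.AM
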