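import Pool.Agent.Helper18.UW.GoalsA

/-!
# Arbitrary multiplicities (MP_d3128a_ag): the base theorem for arbitrary finite sets of points
-/

set_option autoImplicit false

namespace Pool.Agent.Helper94.AM

open Finset Pool.Agent.Lead.Sh
open Pool.Agent.Helper18.UW (lg CoreC)

/-- the base theorem, both alternatives -/
def UWI : Prop := ∀ (A : Finset ℕ) (m : ℕ → ℕ) (M d : ℕ), (∀ k ∈ A, 1 ≤ m k ∧ m k ≤ M) → 1 ≤ M →
  2 ^ 400 * lg M ^ 3 * M ≤ d →
  (UU m A ≤ (d + 1) * (d + 2) → Ind (triD 0 d) (rows m A)) ∧
  ((d + 1) * (d + 2) ≤ UU m A → Inj (triD 0 d) (rows m A))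

/-- the number of conditions -/
def tt (m : ℕ → ℕ) (A : Finset ℕ) : ℕ := ∑ k ∈ A, (m k + 1).choose 2

lemma UU_tt (m : ℕ → ℕ) (A : Finset ℕ) : UU m A = 2 * tt m A := UU_eq m A

lemma two_T (d : ℕ) : (d + 1) * (d + 2) = 2 * (d + 2).choose 2 := by
  rw [two_choose (d + 1)]

/-- lowering the multiplicities -/
lemma lower {A : Finset ℕ} {M T : ℕ} : ∀ (u : ℕ) (m : ℕ → ℕ), ∑ k ∈ A, m k = u →
    (∀ k ∈ A, m k ≤ M) → T ≤ tt m A →
    ∃ m' : ℕ → ℕ, (∀ k ∈ A, m' k ≤ m k) ∧ T ≤ tt m' A ∧ tt m' A ≤ T + M := by
  classical
  intro u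
  induction u using Nat.strong_induction_on with
  | _ u ih =>
    intro m hu hM hT
    by_cases h : tt m A ≤ T + M
    · exact ⟨m, fun _ _ => le_rfl, hT, h⟩
    · push Not at h
      have hex : ∃ k ∈ A, 1 ≤ m k := by
        by_contra hcon
        push Not at hcon
        have h0 : tt m A = 0 := by
          unfold tt
          apply sum_eq_zero
          intro k hk
          have : m k = 0 := by
            have := hcon k hk
            omega
          rw [this]
          rfl
        omega
      obtain ⟨k, hk, hk1⟩ := hex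
      set m1 : ℕ → ℕ := Function.update m k (m k - 1) with hm1
      have e1 : ∑ j ∈ A, m1 j + 1 = ∑ j ∈ A, m j := by
        rw [← add_sum_erase A m1 hk, ← add_sum_erase A m hk]
        have : ∑ j ∈ A.erase k, m1 j = ∑ j ∈ A.erase k, m j := by
          apply sum_congr rfl
          intro j hj
          rw [hm1, Function.update_of_ne (mem_erase.mp hj).1]
        rw [this, hm1, Function.update_self]
        omega
      have e2 : tt m1 A + m k = tt m A := by
        unfold tt
        rw [← add_sum_erase A (fun j => (m1 j + 1).choose 2) hk,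
          ← add_sum_erase A (fun j => (m j + 1).choose 2) hk]
        have : ∑ j ∈ A.erase k, (m1 j + 1).choose 2 = ∑ j ∈ A.erase k, (m j + 1).choose 2 := by
          apply sum_congr rfl
          intro j hj
          rw [hm1, Function.update_of_ne (mem_erase.mp hj).1]
        rw [this]
        have h3 : (m1 k + 1).choose 2 + m k = (m k + 1).choose 2 := by
          rw [hm1, Function.update_self]
          obtain ⟨j, hj⟩ : ∃ j, m k = j + 1 := ⟨m k - 1, by omega⟩
          rw [hj, Nat.add_sub_cancel, Nat.choose_succ_succ (j + 1) 1, Nat.choose_one_right]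
          ring
        omega
      have hle : ∀ j ∈ A, m1 j ≤ m j := by
        intro j _
        rw [hm1]
        by_cases hj : j = k
        · rw [hj, Function.update_self]
          omega
        · rw [Function.update_of_ne hj]
      have hkM := hM k hk
      obtain ⟨m', h1, h2, h3⟩ := ih (∑ j ∈ A, m1 j) (by omega) m1 rfl
        (fun j hj => (hle j hj).trans (hM j hj)) (by omega)
      exact ⟨m', fun j hj => (h1 j hj).trans (hle j hj), h2, h3⟩

theorem uwi (hC : CoreC) : UWI := by
  classical
  intro A m M d hA hM hd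
  constructor
  · intro hle
    rw [UU_tt, two_T] at hle
    set f : ℕ := (d + 2).choose 2 - tt m A with hf
    set N0 : ℕ := A.sup id + 1 with hN0
    have hN : ∀ k ∈ A, k < N0 := fun k hk => Nat.lt_succ_of_le (le_sup (f := id) hk)
    set m' : ℕ → ℕ := fun k => if k ∈ A then m k else 1 with hm'
    set E' : Finset ℕ := Ico N0 (N0 + f) with hE
    have hdisj : Disjoint A E' := by
      rw [disjoint_left]
      intro k hk hk'
      rw [hE, mem_Ico] at hk'
      have := hN k hk
      omega
    have t1 : ∑ k ∈ A ∪ E', (m' k + 1).choose 2 = (d + 2).choose 2 := by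
      rw [sum_union hdisj]
      have e1 : ∑ k ∈ A, (m' k + 1).choose 2 = tt m A := by
        unfold tt
        apply sum_congr rfl
        intro k hk
        rw [hm']
        simp only
        rw [if_pos hk]
      have e2 : ∑ k ∈ E', (m' k + 1).choose 2 = f := by
        have : ∀ k ∈ E', (m' k + 1).choose 2 = 1 := by
          intro k hk
          rw [hm']
          simp only
          rw [if_neg (fun h => (disjoint_left.mp hdisj h) hk)]
          rfl
        rw [sum_congr rfl this, sum_const, hE, Nat.card_Ico]
        simp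
      rw [e1, e2]
      omega
    have hI := hC (A ∪ E') m' M d (by
      intro k hk
      rw [hm']
      simp only
      by_cases h : k ∈ A
      · rw [if_pos h]
        exact hA k h
      · rw [if_neg h]
        exact ⟨le_rfl, hM⟩) hM hd t1.ge (by omega)
    obtain ⟨P, hP⟩ := hI
    have hind : Ind (triD 0 d) (rows m' (A ∪ E')) := ⟨P, hP.ind (by
      rw [card_rows, card_triD, t1])⟩
    apply hind.mono subset_rfl
    intro r hr
    rw [mem_rows] at hr ⊢
    refine ⟨mem_union_left _ hr.1, ?_⟩
    rw [hm']
    simp only
    rw [if_pos hr.1]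
    exact hr.2
  · intro hle
    rw [UU_tt, two_T] at hle
    obtain ⟨m', h1, h2, h3⟩ := lower (A := A) (M := M) (T := (d + 2).choose 2) _ m rfl
      (fun k hk => (hA k hk).2) (by omega)
    have e : ∑ k ∈ A.filter (fun k => 1 ≤ m' k), (m' k + 1).choose 2 = tt m' A := by
      unfold tt
      apply sum_subset (filter_subset _ _)
      intro k hk hk'
      have : m' k = 0 := by
        by_contra h
        exact hk' (mem_filter.mpr ⟨hk, by omega⟩)
      rw [this]
      rfl
    have hI := hC (A.filter (fun k => 1 ≤ m' k)) m' M d (by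
      intro k hk
      have := mem_filter.mp hk
      exact ⟨this.2, (h1 k this.1).trans (hA k this.1).2⟩) hM hd (by rw [e]; exact h2)
      (by rw [e]; exact h3)
    apply hI.mono subset_rfl
    intro r hr
    rw [mem_rows, mem_filter] at hr
    rw [mem_rows]
    have := h1 r.1 hr.1.1
    exact ⟨hr.1.1, by omega⟩

end Pool.Agent.Helper94.AM
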