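import Pool.Agent.Helper94.AM.Num
import Pool.Agent.Helper94.AM.Greedy

/-!
# Arbitrary multiplicities (MP_d3128a_ag): independent conditions above the window
-/

set_option autoImplicit false

namespace Pool.Agent.Helper94.AM

open Finset Pool.Agent.Lead.Sh
open Pool.Agent.Helper18.UW (lg CoreC)

/-- independence above the window, multiplicities at most `M` -/
def HI (M : ℕ) : Prop := ∀ (A : Finset ℕ) (m : ℕ → ℕ) (d : ℕ) (t : ℝ),
  (∀ k ∈ A, 1 ≤ m k ∧ m k ≤ M) → 1024 ≤ t → 2 ^ 420 * t ^ 3 * M ≤ d →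
  (UU m A : ℝ) ≤ (1 - Real.exp (-t)) * (((d : ℝ) + 1) * (d + 2)) → Ind (triD 0 d) (rows m A)

/-- the division step: all multiplicities at least `L0` -/
theorem step_large (hU : UWI) {M d L0 : ℕ} {t : ℝ} (ht : 1024 ≤ t) (hM : Real.exp (10 * t) < M)
    (hd : 2 ^ 420 * t ^ 3 * M ≤ (d : ℝ)) (hL1 : 1 ≤ L0) (hLM : L0 < M)
    (hL : (M : ℝ) / Real.exp t ^ 4 ≤ L0) {A : Finset ℕ} {m : ℕ → ℕ}
    (hA : ∀ k ∈ A, L0 ≤ m k ∧ 1 ≤ m k ∧ m k ≤ M) {e : ℝ} (he : 1 / (64 * Real.exp t) ≤ e)
    (hN : (UU m A : ℝ) ≤ (1 - e) * (((d : ℝ) + 1) * (d + 2))) :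
    Ind (triD 0 d) (rows m A) := by
  have hMd : (M : ℝ) ≤ d := by
    refine le_trans ?_ hd
    have h1 : (1 : ℝ) ≤ 2 ^ 420 * t ^ 3 := by
      have h2 : (1 : ℝ) ≤ 2 ^ 420 := one_le_pow₀ (by norm_num)
      have h3 : (1 : ℝ) ≤ t ^ 3 := one_le_pow₀ (by linarith)
      exact one_le_mul_of_one_le_of_one_le h2 h3
    exact le_mul_of_one_le_left (Nat.cast_nonneg M) h1
  have hMdn : M ≤ d := by exact_mod_cast hMd
  set X : ℝ := Real.exp t with hX
  have hX0 : 0 < X := Real.exp_pos t
  have hX1 : (1024 : ℝ) ≤ X := big3 ht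
  have hX10 : Real.exp (10 * t) = X ^ 10 := by
    rw [hX, ← Real.exp_nat_mul]
    norm_num
  have hM0 : (0 : ℝ) < M := lt_trans (by positivity) hM
  set M1 : ℕ := ⌊X ^ 10⌋₊ with hM1
  have m1 : (M1 : ℝ) ≤ X ^ 10 := Nat.floor_le (by positivity)
  have m2 : X ^ 10 < M1 + 1 := Nat.lt_floor_add_one _
  have hX10' : (2 : ℝ) ≤ X ^ 10 := by
    calc (2 : ℝ) ≤ X ^ 1 := by rw [pow_one]; linarith
      _ ≤ X ^ 10 := pow_le_pow_right₀ (by linarith) (by norm_num)
  have m3 : X ^ 10 / 2 ≤ M1 := by linarith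
  have m4 : 1 ≤ M1 := by
    have : (1 : ℝ) ≤ M1 := by linarith
    exact_mod_cast this
  have m5 : M1 ≤ M := by
    have : (M1 : ℝ) ≤ M := by
      rw [hX10] at hM
      linarith
    exact_mod_cast this
  obtain ⟨q, q1⟩ : ∃ q : ℕ, M ≤ q * M1 ∧ q * M1 ≤ 2 * M := by
    refine ⟨(M + (M1 - 1)) / M1, ?_⟩
    have h1 := Nat.div_add_mod (M + (M1 - 1)) M1
    have h2 := Nat.mod_lt (M + (M1 - 1)) (show 0 < M1 by omega)
    rw [mul_comm] at h1
    omega
  have q2 : 1 ≤ q := by
    by_contra h
    have : q = 0 := by omega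
    rw [this, zero_mul] at q1
    omega
  have q3 : (q : ℝ) ≤ 4 * M / X ^ 10 := by
    rw [le_div_iff₀ (by positivity)]
    have h1 : (q : ℝ) * M1 ≤ 2 * M := by exact_mod_cast q1.2
    have h2 : (q : ℝ) * (X ^ 10 / 2) ≤ q * M1 := mul_le_mul_of_nonneg_left m3 (Nat.cast_nonneg q)
    linarith
  apply large_ind hU q2 hL1 (M0 := M1) (e := e)
  · intro k hk
    exact ⟨(hA k hk).1, (hA k hk).2.2.trans q1.1⟩
  · exact m4
  · -- the base theorem
    have h1 := base_le m4 ht (by rw [hX10]; exact m1)
    have h2 : ((q * (2 ^ 400 * lg M1 ^ 3 * M1 + 1) : ℕ) : ℝ) ≤ d + 1 := by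
      have h3 : ((q * (2 ^ 400 * lg M1 ^ 3 * M1 + 1) : ℕ) : ℝ) =
          q * ((2 ^ 400 * lg M1 ^ 3 * M1 : ℕ) : ℝ) + q := by
        rw [Nat.cast_mul, Nat.cast_add, Nat.cast_one]
        ring
      rw [h3]
      have h4 : (q : ℝ) * ((2 ^ 400 * lg M1 ^ 3 * M1 : ℕ) : ℝ) ≤ q * (2 ^ 414 * t ^ 3 * M1) :=
        mul_le_mul_of_nonneg_left h1 (Nat.cast_nonneg q)
      have h5 : (q : ℝ) * (2 ^ 414 * t ^ 3 * M1) ≤ 2 ^ 414 * t ^ 3 * (2 * M) := by
        have h6 : (q : ℝ) * M1 ≤ 2 * M := by exact_mod_cast q1.2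
        calc (q : ℝ) * (2 ^ 414 * t ^ 3 * M1) = 2 ^ 414 * t ^ 3 * (q * M1) := by ring
          _ ≤ 2 ^ 414 * t ^ 3 * (2 * M) := by
            apply mul_le_mul_of_nonneg_left h6 (by positivity)
      have h7 : (q : ℝ) ≤ 2 ^ 414 * t ^ 3 * (2 * M) := by
        have h8 : (q : ℝ) ≤ q * M1 := by
          have : (1 : ℝ) ≤ M1 := by exact_mod_cast m4
          exact le_mul_of_one_le_right (Nat.cast_nonneg q) this
        have h9 : (q : ℝ) * M1 ≤ 2 * M := by exact_mod_cast q1.2
        have h10 : (1 : ℝ) ≤ 2 ^ 414 * t ^ 3 := by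
          have h2 : (1 : ℝ) ≤ 2 ^ 414 := one_le_pow₀ (by norm_num)
          have h3 : (1 : ℝ) ≤ t ^ 3 := one_le_pow₀ (by linarith)
          exact one_le_mul_of_one_le_of_one_le h2 h3
        have h11 : 2 * (M : ℝ) ≤ 2 ^ 414 * t ^ 3 * (2 * M) :=
          le_mul_of_one_le_left (by positivity) h10
        exact (h8.trans h9).trans h11
      have h12 : (2 : ℝ) ^ 414 * t ^ 3 * (2 * M) + 2 ^ 414 * t ^ 3 * (2 * M) ≤ d := by
        refine le_trans ?_ hd
        have h13 : (2 : ℝ) ^ 420 = 2 ^ 414 * 2 ^ 6 := by rw [← pow_add]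
        rw [h13]
        have h14 : 0 ≤ (2 : ℝ) ^ 414 * t ^ 3 * M := by positivity
        have h15 : (2 : ℝ) ^ 414 * 2 ^ 6 * t ^ 3 * M = 64 * (2 ^ 414 * t ^ 3 * M) := by ring
        have h16 : (2 : ℝ) ^ 414 * t ^ 3 * (2 * M) + 2 ^ 414 * t ^ 3 * (2 * M) =
          4 * (2 ^ 414 * t ^ 3 * M) := by ring
        rw [h15, h16]
        apply mul_le_mul_of_nonneg_right _ h14
        norm_num
      have h17 := add_le_add (h4.trans h5) h7
      have h18 := h17.trans h12
      have : (d : ℝ) ≤ d + 1 := by linarith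
      exact h18.trans this
    exact_mod_cast h2
  · -- `6 q ≤ e L0`
    have h1 : 1 / (64 * X) * ((M : ℝ) / X ^ 4) ≤ e * L0 := by
      apply mul_le_mul he hL (by positivity)
      exact le_trans (by positivity) he
    refine le_trans ?_ h1
    have h2 : 6 * (q : ℝ) ≤ 6 * (4 * M / X ^ 10) := by linarith
    refine h2.trans ?_
    have h3 : 1 / (64 * X) * ((M : ℝ) / X ^ 4) = M / (64 * X ^ 5) := by field_simp
    have h4 : 6 * (4 * (M : ℝ) / X ^ 10) = 24 * M / X ^ 10 := by ring
    rw [h3, h4, div_le_div_iff₀ (by positivity) (by positivity)]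
    have h5 : (1536 : ℝ) ≤ X ^ 5 := by
      calc (1536 : ℝ) ≤ 1024 ^ 2 := by norm_num
        _ ≤ X ^ 2 := pow_le_pow_left₀ (by norm_num) hX1 2
        _ ≤ X ^ 5 := pow_le_pow_right₀ (by linarith) (by norm_num)
    have h6 : X ^ 10 = X ^ 5 * X ^ 5 := by ring
    rw [h6]
    have h7 : 0 ≤ (M : ℝ) * X ^ 5 := by positivity
    nlinarith only [h5, h7]
  · exact (hLM.le.trans hMdn)
  · exact hN

theorem hi (hU : UWI) : ∀ M : ℕ, 1 ≤ M → HI M := by
  intro M
  induction M using Nat.strong_induction_on with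
  | _ M ih =>
    intro hM1 A m d t hA ht hd hN
    have hMr : (1 : ℝ) ≤ M := by exact_mod_cast hM1
    have hMd : (M : ℝ) ≤ d := by
      refine le_trans ?_ hd
      have h1 : (1 : ℝ) ≤ 2 ^ 420 * t ^ 3 := by
        have h2 : (1 : ℝ) ≤ 2 ^ 420 := one_le_pow₀ (by norm_num)
        have h3 : (1 : ℝ) ≤ t ^ 3 := one_le_pow₀ (by linarith)
        exact one_le_mul_of_one_le_of_one_le h2 h3
      exact le_mul_of_one_le_left (Nat.cast_nonneg M) h1
    have hMdn : M ≤ d := by exact_mod_cast hMd
    have hε0 : 0 < Real.exp (-t) := Real.exp_pos _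
    have hdd : (0 : ℝ) ≤ ((d : ℝ) + 1) * (d + 2) := by positivity
    by_cases hcase : (M : ℝ) ≤ Real.exp (10 * t)
    · -- the base theorem
      have h1 := base_le hM1 ht hcase
      have h2 : ((2 ^ 400 * lg M ^ 3 * M : ℕ) : ℝ) ≤ d := by
        refine h1.trans (le_trans ?_ hd)
        apply mul_le_mul_of_nonneg_right _ (by linarith)
        apply mul_le_mul_of_nonneg_right _ (by positivity)
        exact pow_le_pow_right₀ (by norm_num) (by norm_num)
      apply (hU A m M d hA hM1 (by exact_mod_cast h2)).1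
      have h3 : (UU m A : ℝ) ≤ ((d : ℝ) + 1) * (d + 2) := by
        refine hN.trans ?_
        nlinarith only [mul_nonneg hε0.le hdd]
      exact_mod_cast h3
    push Not at hcase
    obtain ⟨L0, a, l1, l2, a1, a2, a3, l3, l4, a4, a5, hlast⟩ := params2 ht hcase
    set X : ℝ := Real.exp t with hX
    have hX0 : 0 < X := Real.exp_pos t
    have hX1 : (1024 : ℝ) ≤ X := big3 ht
    have hX10 : Real.exp (10 * t) = X ^ 10 := by
      rw [hX, ← Real.exp_nat_mul]
      norm_num
    have hεX : Real.exp (-t) = 1 / X := by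
      rw [Real.exp_neg, one_div]
    have hM0 : (0 : ℝ) < M := by linarith
    rw [hX10] at hcase
    have har : (1 : ℝ) ≤ a := by exact_mod_cast a1
    have haa : (0 : ℝ) < (a : ℝ) * (a + 1) := by positivity
    set Tr : ℝ := (1 - 1 / (16 * X)) * ((a : ℝ) * (a + 1)) with hTr
    have h16X : 1 / (16 * X) ≤ 1 / 2 := by
      apply one_div_le_one_div_of_le (by norm_num)
      linarith
    have hTr0 : 0 ≤ Tr := by
      rw [hTr]
      apply mul_nonneg _ haa.le
      linarith
    set W : ℕ := ⌊Tr⌋₊ with hW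
    have w1 : (W : ℝ) ≤ Tr := Nat.floor_le hTr0
    have w2 : Tr < W + 1 := Nat.lt_floor_add_one _
    set w : ℕ := L0 * L0 with hw
    -- sizes
    have s1 : 1 + (L0 : ℝ) * L0 ≤ 1 / (16 * X) * ((a : ℝ) * (a + 1)) := by
      have b1 : (L0 : ℝ) * L0 ≤ (2 * M / X ^ 4) * (2 * M / X ^ 4) :=
        mul_le_mul l4 l4 (Nat.cast_nonneg _) (by positivity)
      have b2 : ((M : ℝ) / X ^ 2) * (M / X ^ 2) ≤ a * (a + 1) := by
        apply mul_le_mul a4 (by linarith) (by positivity) (by linarith)
      have b3 : 1 / (16 * X) * (((M : ℝ) / X ^ 2) * (M / X ^ 2)) ≤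
          1 / (16 * X) * ((a : ℝ) * (a + 1)) := mul_le_mul_of_nonneg_left b2 (by positivity)
      refine le_trans ?_ b3
      set Y : ℝ := (M : ℝ) ^ 2 / X ^ 5 with hY
      have b4 : 1 / (16 * X) * (((M : ℝ) / X ^ 2) * (M / X ^ 2)) = Y / 16 := by
        rw [hY]; field_simp
      have b5 : (2 * (M : ℝ) / X ^ 4) * (2 * M / X ^ 4) = 4 * Y / X ^ 3 := by
        rw [hY]; field_simp; ring
      have b6 : 32 ≤ Y := by
        rw [hY, le_div_iff₀ (by positivity)]
        have c1 : (X ^ 10) ^ 2 ≤ (M : ℝ) ^ 2 := pow_le_pow_left₀ (by positivity) hcase.le 2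
        refine le_trans ?_ c1
        have c2 : (X ^ 10) ^ 2 = X ^ 15 * X ^ 5 := by ring
        rw [c2]
        apply mul_le_mul_of_nonneg_right _ (by positivity)
        calc (32 : ℝ) ≤ X ^ 1 := by rw [pow_one]; linarith
          _ ≤ X ^ 15 := pow_le_pow_right₀ (by linarith) (by norm_num)
      have b7 : 4 * Y / X ^ 3 ≤ Y / 32 := by
        rw [div_le_div_iff₀ (by positivity) (by norm_num)]
        have c1 : (128 : ℝ) ≤ X ^ 3 := by
          calc (128 : ℝ) ≤ X ^ 1 := by rw [pow_one]; linarith only [hX1]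
            _ ≤ X ^ 3 := pow_le_pow_right₀ (by linarith only [hX1]) (by norm_num)
        have c2 := mul_le_mul_of_nonneg_left c1 (show (0 : ℝ) ≤ Y by linarith only [b6])
        linarith only [c2]
      rw [b4]
      rw [b5] at b1
      linarith
    have hw' : (w : ℝ) = L0 * L0 := by rw [hw]; push_cast; ring
    have hTr2 : Tr = (a : ℝ) * (a + 1) - 1 / (16 * X) * ((a : ℝ) * (a + 1)) := by
      rw [hTr]; ring
    have s2 : (1 - 1 / (8 * X)) * ((a : ℝ) * (a + 1)) ≤ (W : ℝ) - w := by
      have e1 : (1 - 1 / (8 * X)) * ((a : ℝ) * (a + 1)) =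
          Tr - 1 / (16 * X) * ((a : ℝ) * (a + 1)) := by
        rw [hTr2]; field_simp; ring
      rw [e1, hw']
      linarith
    have h8X : 1 / (8 * X) ≤ 1 / 2 := by
      apply one_div_le_one_div_of_le (by norm_num)
      linarith
    have hwW : w < W := by
      have : (w : ℝ) < W := by
        have e1 : 0 < (1 - 1 / (8 * X)) * ((a : ℝ) * (a + 1)) := by
          apply mul_pos _ haa
          linarith
        linarith
      exact_mod_cast this
    have hWa : W ≤ a * (a + 1) := by
      have : (W : ℝ) ≤ (a : ℝ) * (a + 1) := by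
        refine w1.trans ?_
        rw [hTr2]
        have : 0 ≤ 1 / (16 * X) * ((a : ℝ) * (a + 1)) := by positivity
        linarith
      exact_mod_cast this
    apply clusters_ind a1 a2 a3 (L0 := L0) (W := W) (w := w) (M := M) (d := d) _ hwW
      (by omega) _ (a * (a + 1) * UU m A) _ A m hA
    · -- the value of the potential
      have h1 := UU_filter m A L0
      have h2 : (W - w) * UU m (A.filter (fun i => L0 ≤ m i)) ≤
          a * (a + 1) * UU m (A.filter (fun i => L0 ≤ m i)) :=
        Nat.mul_le_mul_right _ (by omega)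
      calc _ ≤ a * (a + 1) * UU m (A.filter (fun i => L0 ≤ m i)) +
            a * (a + 1) * UU m (A.filter (fun i => m i < L0)) := Nat.add_le_add_right h2 _
        _ = a * (a + 1) * UU m A := by rw [← mul_add, h1]
    · intro j hj
      calc j * (j + 1) ≤ L0 * L0 := Nat.mul_le_mul hj.le (by omega)
        _ = w := rfl
    · -- clusters
      intro B m' hB hBW
      apply ih L0 l2 l1 B m' (a - 1) (t + 3)
      · intro k hk
        exact ⟨(hB k hk).1, (hB k hk).2.le⟩
      · linarith
      · refine le_trans ?_ hlast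
        apply mul_le_mul_of_nonneg_right _ (Nat.cast_nonneg _)
        apply mul_le_mul_of_nonneg_right _ (by positivity)
        exact pow_le_pow_right₀ (by norm_num) (by norm_num)
      · have h1 : (UU m' B : ℝ) ≤ W := by exact_mod_cast hBW
        refine h1.trans (w1.trans ?_)
        rw [hTr, Nat.cast_sub a1, Nat.cast_one]
        have e1 : ((a : ℝ) - 1 + 1) * (a - 1 + 2) = a * (a + 1) := by ring
        rw [e1]
        apply mul_le_mul_of_nonneg_right _ haa.le
        have e2 : Real.exp (-(t + 3)) ≤ 1 / (16 * X) := by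
          rw [Real.exp_neg, ← one_div]
          apply one_div_le_one_div_of_le (by positivity)
          rw [Real.exp_add, mul_comm]
          exact mul_le_mul_of_nonneg_left exp_three hX0.le
        linarith
    · -- large points
      intro A' m' hA' hΦ
      apply step_large hU ht (by rw [hX10]; exact hcase) hd l1 l2 l3 hA' (e := 1 / (2 * X))
      · apply one_div_le_one_div_of_le (by positivity)
        linarith only [hX0]
      · have h1 : ((W : ℝ) - w) * UU m' A' ≤
            (a * (a + 1)) * UU m A + (W - w) * (a * (a + 1)) := by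
          have h2 : (((W - w) * UU m' A' : ℕ) : ℝ) ≤
              ((a * (a + 1) * UU m A + (W - w) * (a * (a + 1)) : ℕ) : ℝ) := by exact_mod_cast hΦ
          have h3 : ((W - w : ℕ) : ℝ) = (W : ℝ) - w := Nat.cast_sub hwW.le
          push_cast at h2
          rw [h3] at h2
          exact h2
        set N' : ℝ := (UU m' A' : ℝ) with hN'
        set N0 : ℝ := (UU m A : ℝ) with hN0
        set aa : ℝ := (a : ℝ) * (a + 1) with haa'
        set DD : ℝ := ((d : ℝ) + 1) * (d + 2) with hDD
        have hN00 : 0 ≤ N0 := Nat.cast_nonneg _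
        -- `a (a + 1)` is small
        have h4 : aa ≤ 1 / (8 * X) * DD := by
          have c1 : aa ≤ 2 * ((a : ℝ) * a) := by
            rw [haa']
            nlinarith only [har]
          have c2 : (a : ℝ) * a ≤ (2 * M / X ^ 2) * (2 * M / X ^ 2) :=
            mul_le_mul a5 a5 (by linarith) (by positivity)
          have c3 : (M : ℝ) * M ≤ DD := by
            rw [hDD]
            apply mul_le_mul (by linarith) (by linarith) (by linarith) (by linarith)
          have c4 : (2 * (M : ℝ) / X ^ 2) * (2 * M / X ^ 2) = 4 * (M * M) / X ^ 4 := by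
            field_simp
            ring
          have c5 : 4 * ((M : ℝ) * M) / X ^ 4 ≤ 1 / (16 * X) * (M * M) := by
            rw [div_le_iff₀ (by positivity)]
            have c6 : 1 / (16 * X) * ((M : ℝ) * M) * X ^ 4 = (M * M) * (X ^ 3 / 16) := by
              field_simp
            rw [c6]
            have c7 : (64 : ℝ) ≤ X ^ 3 := by
              calc (64 : ℝ) ≤ X ^ 1 := by rw [pow_one]; linarith
                _ ≤ X ^ 3 := pow_le_pow_right₀ (by linarith) (by norm_num)
            have c8 : 0 ≤ (M : ℝ) * M := by positivity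
            nlinarith only [c7, c8]
          have c6 : 1 / (16 * X) * ((M : ℝ) * M) ≤ 1 / (16 * X) * DD :=
            mul_le_mul_of_nonneg_left c3 (by positivity)
          have c7 : 2 * (1 / (16 * X) * DD) = 1 / (8 * X) * DD := by
            field_simp
            ring
          rw [c4] at c2
          linarith
        -- the main estimate
        have h5 : N' - aa ≤ (1 - 7 / (8 * X)) * DD := by
          by_cases h6 : N' ≤ aa
          · have : 0 ≤ (1 - 7 / (8 * X)) * DD := by
              apply mul_nonneg _ hdd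
              rw [sub_nonneg, div_le_one (by positivity)]
              linarith
            linarith
          · push Not at h6
            have h7 : (1 - 1 / (8 * X)) * aa * (N' - aa) ≤ aa * N0 := by
              calc (1 - 1 / (8 * X)) * aa * (N' - aa) ≤ ((W : ℝ) - w) * (N' - aa) := by
                    apply mul_le_mul_of_nonneg_right s2
                    linarith
                _ ≤ aa * N0 := by
                    rw [mul_sub]
                    linarith
            have h8 : (1 - 1 / (8 * X)) * (N' - aa) ≤ N0 := by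
              have h9 : aa * ((1 - 1 / (8 * X)) * (N' - aa)) ≤ aa * N0 := by
                calc aa * ((1 - 1 / (8 * X)) * (N' - aa)) = (1 - 1 / (8 * X)) * aa * (N' - aa) := by
                      ring
                  _ ≤ _ := h7
              exact le_of_mul_le_mul_left h9 haa
            have h9 : N0 ≤ (1 - 1 / (8 * X)) * ((1 - 7 / (8 * X)) * DD) := by
              rw [hεX] at hN
              have e1 : (1 - 1 / (8 * X)) * (1 - 7 / (8 * X)) = 1 - 1 / X + 7 / (64 * X ^ 2) := by
                field_simp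
                ring
              have e2 : 0 ≤ 7 / (64 * X ^ 2) := by positivity
              calc N0 ≤ (1 - 1 / X) * DD := hN
                _ ≤ ((1 - 1 / (8 * X)) * (1 - 7 / (8 * X))) * DD := by
                    apply mul_le_mul_of_nonneg_right _ hdd
                    rw [e1]
                    linarith
                _ = _ := by ring
            have h10 : 0 < 1 - 1 / (8 * X) := by linarith
            exact le_of_mul_le_mul_left (h8.trans h9) h10
        have e1 : (1 - 7 / (8 * X)) * DD = DD - 7 * (1 / (8 * X) * DD) := by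
          field_simp
        have e2 : (1 - 1 / (2 * X)) * DD = DD - 4 * (1 / (8 * X) * DD) := by
          field_simp
          ring
        rw [e1] at h5
        rw [e2]
        have : 0 ≤ 1 / (8 * X) * DD := by positivity
        linarith

end Pool.Agent.Helper94.AM
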