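import Pool.Agent.Helper94.AM.WindI

/-!
# Arbitrary multiplicities (MP_d3128a_ag): emptiness below the window
-/

set_option autoImplicit false

namespace Pool.Agent.Helper94.AM

open Finset Pool.Agent.Lead.Sh
open Pool.Agent.Helper18.UW (lg CoreC)

/-- emptiness below the window, multiplicities at most `M` -/
def HJ (M : ℕ) : Prop := ∀ (A : Finset ℕ) (m : ℕ → ℕ) (d : ℕ) (t : ℝ),
  (∀ k ∈ A, 1 ≤ m k ∧ m k ≤ M) → 1024 ≤ t → 2 ^ 423 * t ^ 3 * M ≤ d →
  (1 + Real.exp (-t)) * (((d : ℝ) + 1) * (d + 2)) ≤ (UU m A : ℝ) → Inj (triD 0 d) (rows m A)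

/-- the theorem of Bézout for large multiplicities -/
theorem bez_large {M d L0 : ℕ} (hI : HI M) {t : ℝ} (ht : 1024 ≤ t) (hM : Real.exp (10 * t) < M)
    (hd : 2 ^ 423 * t ^ 3 * M ≤ (d : ℝ)) (hMd : (M : ℝ) ≤ d) (hL1 : 1 ≤ L0)
    (hL : (M : ℝ) / Real.exp t ^ 4 ≤ L0) {A : Finset ℕ} {m : ℕ → ℕ}
    (hA : ∀ k ∈ A, L0 ≤ m k ∧ 1 ≤ m k ∧ m k ≤ M)
    (hN : (1 + 1 / (2 * Real.exp t)) * (((d : ℝ) + 1) * (d + 2)) ≤ (UU m A : ℝ)) :
    Inj (triD 0 d) (rows m A) := by
  set X : ℝ := Real.exp t with hX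
  have hX0 : 0 < X := Real.exp_pos t
  have hX1 : (1024 : ℝ) ≤ X := big3 ht
  have hX10 : Real.exp (10 * t) = X ^ 10 := by
    rw [hX, ← Real.exp_nat_mul]
    norm_num
  rw [hX10] at hM
  have hM0 : (0 : ℝ) < M := lt_trans (by positivity) hM
  have hd0 : (0 : ℝ) < d := lt_of_lt_of_le hM0 hMd
  set N : ℝ := (UU m A : ℝ) with hNdef
  have hDD : (0 : ℝ) < ((d : ℝ) + 1) * (d + 2) := by positivity
  have hN0 : 0 < N := lt_of_lt_of_le (by positivity) hN
  set y : ℝ := √N with hy
  have hy0 : 0 < y := Real.sqrt_pos.mpr hN0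
  have hyy : y * y = N := Real.mul_self_sqrt hN0.le
  set r : ℝ := 1 / (16 * X) with hr
  have hr0 : 0 < r := by positivity
  have hr1 : r ≤ 1 / 16384 := by
    rw [hr]
    apply one_div_le_one_div_of_le (by norm_num)
    linarith
  have hrX : 1 / (2 * X) = 8 * r := by
    rw [hr]; field_simp; norm_num
  rw [hrX] at hN
  -- `d ≤ y (1 - 2 r)`
  have hdy : (d : ℝ) ≤ y * (1 - 2 * r) := by
    have h1 : (0 : ℝ) ≤ y * (1 - 2 * r) := by
      apply mul_nonneg hy0.le
      linarith
    apply le_of_sq_le_sq _ h1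
    have h2 : (1 + 8 * r) * ((d : ℝ) * d) ≤ y * y := by
      rw [hyy]
      refine le_trans ?_ hN
      apply mul_le_mul_of_nonneg_left _ (by linarith)
      nlinarith only [hd0]
    have h3 : (1 : ℝ) ≤ (1 - 2 * r) ^ 2 * (1 + 8 * r) := by
      nlinarith only [hr0, hr1, sq_nonneg r, mul_pos hr0 hr0, mul_pos (mul_pos hr0 hr0) hr0]
    have h4 : 0 ≤ (1 - 2 * r) ^ 2 := sq_nonneg _
    calc (d : ℝ) ^ 2 = 1 * (d * d) := by ring
      _ ≤ ((1 - 2 * r) ^ 2 * (1 + 8 * r)) * (d * d) := by
          apply mul_le_mul_of_nonneg_right h3 (by positivity)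
      _ = (1 - 2 * r) ^ 2 * ((1 + 8 * r) * (d * d)) := by ring
      _ ≤ (1 - 2 * r) ^ 2 * (y * y) := mul_le_mul_of_nonneg_left h2 h4
      _ = (y * (1 - 2 * r)) ^ 2 := by ring
  have hdy2 : (d : ℝ) ≤ y := by nlinarith only [hdy, mul_pos hy0 hr0]
  -- the degree `e`
  set e : ℕ := ⌈y * (1 + r)⌉₊ with he
  have e1 : y * (1 + r) ≤ e := Nat.le_ceil _
  have e2 : (e : ℝ) < y * (1 + r) + 1 := Nat.ceil_lt_add_one (by positivity)
  have hind : Ind (triD 0 e) (rows m A) := by
    apply hI A m e (2 * t) (fun k hk => (hA k hk).2) (by linarith)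
    · have h1 : (2 : ℝ) ^ 420 * (2 * t) ^ 3 * M = 2 ^ 423 * t ^ 3 * M := by
        have h2 : (2 : ℝ) ^ 423 = 2 ^ 420 * 2 ^ 3 := by rw [← pow_add]
        rw [h2]
        ring
      rw [h1]
      refine hd.trans (hdy2.trans (le_trans ?_ e1))
      nlinarith only [hy0, mul_pos hy0 hr0]
    · have h1 : Real.exp (-(2 * t)) = 1 / X ^ 2 := by
        rw [Real.exp_neg, hX, ← Real.exp_nat_mul, ← one_div]
        norm_num
      rw [h1]
      have h2 : 1 / X ^ 2 ≤ r / 4 := by
        rw [hr, div_div, div_le_div_iff₀ (by positivity) (by positivity)]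
        nlinarith only [hX1, hX0]
      have h3 : y * (1 + r) * (y * (1 + r)) ≤ ((e : ℝ) + 1) * (e + 2) := by
        apply mul_le_mul (by linarith) (by linarith) (by positivity) (by positivity)
      have h4 : N * (1 + r) ^ 2 ≤ ((e : ℝ) + 1) * (e + 2) := by
        calc N * (1 + r) ^ 2 = y * (1 + r) * (y * (1 + r)) := by rw [← hyy]; ring
          _ ≤ _ := h3
      have h5 : (1 : ℝ) ≤ (1 - r / 4) * (1 + r) ^ 2 := by
        nlinarith only [hr0, hr1, sq_nonneg r, mul_pos hr0 hr0, mul_pos (mul_pos hr0 hr0) hr0]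
      calc N = 1 * N := by ring
        _ ≤ ((1 - r / 4) * (1 + r) ^ 2) * N := mul_le_mul_of_nonneg_right h5 hN0.le
        _ = (1 - r / 4) * (N * (1 + r) ^ 2) := by ring
        _ ≤ (1 - r / 4) * (((e : ℝ) + 1) * (e + 2)) := by
            apply mul_le_mul_of_nonneg_left h4
            linarith
        _ ≤ (1 - 1 / X ^ 2) * (((e : ℝ) + 1) * (e + 2)) := by
            apply mul_le_mul_of_nonneg_right _ (by positivity)
            linarith
  -- Bézout
  apply inj_bez (D := e + 1) (m0 := m) (by omega) (by rw [Nat.add_sub_cancel]; exact hind)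
    (fun k hk => (hA k hk).2.1)
  set S2 : ℝ := ((∑ k ∈ A, m k * m k : ℕ) : ℝ) with hS2
  have hLr : (1 : ℝ) ≤ L0 := by exact_mod_cast hL1
  have hS : (L0 : ℝ) * N ≤ (L0 + 1) * S2 := by
    have h1 : L0 * UU m A ≤ (L0 + 1) * ∑ k ∈ A, m k * m k := by
      unfold UU
      rw [mul_sum, mul_sum]
      apply sum_le_sum
      intro k hk
      have := (hA k hk).1
      nlinarith only [this]
    rw [hNdef, hS2]
    exact_mod_cast h1
  have hyM : X ^ 10 < y := lt_of_lt_of_le hM (hMd.trans hdy2)
  -- `2 / y ≤ r / 4`, `1 / L0 ≤ r / 4`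
  have h64 : 64 * X ≤ X ^ 2 := by nlinarith only [hX1]
  have hy4 : 2 ≤ r / 4 * y := by
    have h1 : X ^ 2 ≤ X ^ 10 := pow_le_pow_right₀ (by linarith) (by norm_num)
    have h2 : r / 4 * (128 * X) = 2 := by
      rw [hr]; field_simp; norm_num
    rw [← h2]
    apply mul_le_mul_of_nonneg_left _ (by positivity)
    nlinarith only [h1, hyM, hX1]
  have hL4 : 1 ≤ r / 4 * L0 := by
    have h1 : X ^ 6 ≤ L0 := by
      refine le_trans ?_ hL
      rw [le_div_iff₀ (by positivity)]
      have h9 : X ^ 6 * X ^ 4 = X ^ 10 := by ring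
      rw [h9]
      exact hM.le
    have h2 : X ^ 2 ≤ X ^ 6 := pow_le_pow_right₀ (by linarith) (by norm_num)
    have h3 : r / 4 * (64 * X) = 1 := by
      rw [hr]; field_simp; norm_num
    rw [← h3]
    apply mul_le_mul_of_nonneg_left _ (by positivity)
    linarith
  have hS3 : N * (1 - r / 4) ≤ S2 := by
    have h1 : (1 - r / 4) * (L0 + 1) ≤ (L0 : ℝ) := by nlinarith only [hL4, hLr, hr0, hr1]
    have h2 : (L0 + 1) * (N * (1 - r / 4)) ≤ (L0 + 1) * S2 := by
      calc (L0 + 1) * (N * (1 - r / 4)) = ((1 - r / 4) * (L0 + 1)) * N := by ring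
        _ ≤ L0 * N := mul_le_mul_of_nonneg_right h1 hN0.le
        _ ≤ _ := hS
    exact le_of_mul_le_mul_left h2 (by linarith)
  have key : ((e : ℝ) + 1) * d < S2 := by
    refine lt_of_lt_of_le ?_ hS3
    calc ((e : ℝ) + 1) * d ≤ (y * (1 + r) + 2) * d := by
          apply mul_le_mul_of_nonneg_right _ hd0.le
          linarith
      _ ≤ (y * (1 + r) + r / 4 * y) * d := by
          apply mul_le_mul_of_nonneg_right _ hd0.le
          linarith
      _ ≤ (y * (1 + r) + r / 4 * y) * (y * (1 - 2 * r)) := by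
          apply mul_le_mul_of_nonneg_left hdy (by positivity)
      _ = (y * y) * ((1 + 5 / 4 * r) * (1 - 2 * r)) := by ring
      _ = N * ((1 + 5 / 4 * r) * (1 - 2 * r)) := by rw [hyy]
      _ < N * (1 - r / 4) := by
          apply mul_lt_mul_of_pos_left _ hN0
          nlinarith only [hr0, mul_pos hr0 hr0]
  have key2 : (((e + 1) * d : ℕ) : ℝ) < S2 := by
    push_cast
    exact key
  rw [hS2] at key2
  exact_mod_cast key2

theorem hj (hU : UWI) : ∀ M : ℕ, 1 ≤ M → HJ M := by
  intro M
  induction M using Nat.strong_induction_on with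
  | _ M ih =>
    intro hM1 A m d t hA ht hd hN
    have hMr : (1 : ℝ) ≤ M := by exact_mod_cast hM1
    have hMd : (M : ℝ) ≤ d := by
      refine le_trans ?_ hd
      have h1 : (1 : ℝ) ≤ 2 ^ 423 * t ^ 3 := by
        have h2 : (1 : ℝ) ≤ 2 ^ 423 := one_le_pow₀ (by norm_num)
        have h3 : (1 : ℝ) ≤ t ^ 3 := one_le_pow₀ (by linarith)
        exact one_le_mul_of_one_le_of_one_le h2 h3
      exact le_mul_of_one_le_left (Nat.cast_nonneg M) h1
    have hMdn : M ≤ d := by exact_mod_cast hMd
    have hε0 : 0 < Real.exp (-t) := Real.exp_pos _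
    have hdd : (0 : ℝ) ≤ ((d : ℝ) + 1) * (d + 2) := by positivity
    by_cases hcase : (M : ℝ) ≤ Real.exp (10 * t)
    · -- the base theorem
      have h1 := base_le hM1 ht hcase
      have h2 : ((2 ^ 400 * lg M ^ 3 * M : ℕ) : ℝ) ≤ d := by
        refine h1.trans (le_trans ?_ hd)
        apply mul_le_mul_of_nonneg_right _ (by linarith)
        apply mul_le_mul_of_nonneg_right _ (by positivity)
        exact pow_le_pow_right₀ (by norm_num) (by norm_num)
      apply (hU A m M d hA hM1 (by exact_mod_cast h2)).2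
      have h3 : ((d : ℝ) + 1) * (d + 2) ≤ (UU m A : ℝ) := by
        refine le_trans ?_ hN
        nlinarith only [mul_nonneg hε0.le hdd]
      exact_mod_cast h3
    push Not at hcase
    obtain ⟨L0, a, l1, l2, a1, a2, a3, l3, l4, a4, a5, hlast⟩ := params2 ht hcase
    set X : ℝ := Real.exp t with hX
    have hX0 : 0 < X := Real.exp_pos t
    have hX1 : (1024 : ℝ) ≤ X := big3 ht
    have hX10 : Real.exp (10 * t) = X ^ 10 := by
      rw [hX, ← Real.exp_nat_mul]
      norm_num
    have hεX : Real.exp (-t) = 1 / X := by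
      rw [Real.exp_neg, one_div]
    have hM0 : (0 : ℝ) < M := by linarith
    rw [hX10] at hcase
    have har : (1 : ℝ) ≤ a := by exact_mod_cast a1
    have haa : (0 : ℝ) < (a : ℝ) * (a + 1) := by positivity
    set Tr : ℝ := (1 + 1 / (16 * X)) * ((a : ℝ) * (a + 1)) with hTr
    have hTr0 : 0 < Tr := by positivity
    set W : ℕ := ⌈Tr⌉₊ with hW
    have w1 : Tr ≤ (W : ℝ) := Nat.le_ceil _
    have w2 : (W : ℝ) < Tr + 1 := Nat.ceil_lt_add_one hTr0.le
    set w : ℕ := L0 * L0 with hw
    -- sizes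
    have s1 : 1 + (L0 : ℝ) * L0 ≤ 1 / (16 * X) * ((a : ℝ) * (a + 1)) := by
      have b1 : (L0 : ℝ) * L0 ≤ (2 * M / X ^ 4) * (2 * M / X ^ 4) :=
        mul_le_mul l4 l4 (Nat.cast_nonneg _) (by positivity)
      have b2 : ((M : ℝ) / X ^ 2) * (M / X ^ 2) ≤ a * (a + 1) := by
        apply mul_le_mul a4 (by linarith) (by positivity) (by linarith)
      have b3 : 1 / (16 * X) * (((M : ℝ) / X ^ 2) * (M / X ^ 2)) ≤
          1 / (16 * X) * ((a : ℝ) * (a + 1)) := mul_le_mul_of_nonneg_left b2 (by positivity)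
      refine le_trans ?_ b3
      set Y : ℝ := (M : ℝ) ^ 2 / X ^ 5 with hY
      have b4 : 1 / (16 * X) * (((M : ℝ) / X ^ 2) * (M / X ^ 2)) = Y / 16 := by
        rw [hY]; field_simp
      have b5 : (2 * (M : ℝ) / X ^ 4) * (2 * M / X ^ 4) = 4 * Y / X ^ 3 := by
        rw [hY]; field_simp; ring
      have b6 : 32 ≤ Y := by
        rw [hY, le_div_iff₀ (by positivity)]
        have c1 : (X ^ 10) ^ 2 ≤ (M : ℝ) ^ 2 := pow_le_pow_left₀ (by positivity) hcase.le 2
        refine le_trans ?_ c1
        have c2 : (X ^ 10) ^ 2 = X ^ 15 * X ^ 5 := by ring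
        rw [c2]
        apply mul_le_mul_of_nonneg_right _ (by positivity)
        calc (32 : ℝ) ≤ X ^ 1 := by rw [pow_one]; linarith
          _ ≤ X ^ 15 := pow_le_pow_right₀ (by linarith) (by norm_num)
      have b7 : 4 * Y / X ^ 3 ≤ Y / 32 := by
        rw [div_le_div_iff₀ (by positivity) (by norm_num)]
        have c1 : (128 : ℝ) ≤ X ^ 3 := by
          calc (128 : ℝ) ≤ X ^ 1 := by rw [pow_one]; linarith only [hX1]
            _ ≤ X ^ 3 := pow_le_pow_right₀ (by linarith only [hX1]) (by norm_num)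
        have c2 := mul_le_mul_of_nonneg_left c1 (show (0 : ℝ) ≤ Y by linarith only [b6])
        linarith only [c2]
      rw [b4]
      rw [b5] at b1
      linarith
    have hw' : (w : ℝ) = L0 * L0 := by rw [hw]; push_cast; ring
    have hTr2 : Tr = (a : ℝ) * (a + 1) + 1 / (16 * X) * ((a : ℝ) * (a + 1)) := by
      rw [hTr]; ring
    have s2 : (W : ℝ) + w ≤ (1 + 1 / (8 * X)) * ((a : ℝ) * (a + 1)) := by
      have e1 : (1 + 1 / (8 * X)) * ((a : ℝ) * (a + 1)) =
          Tr + 1 / (16 * X) * ((a : ℝ) * (a + 1)) := by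
        rw [hTr2]; field_simp; ring
      rw [e1, hw']
      linarith
    have h8X : 1 / (8 * X) ≤ 1 / 2 := by
      apply one_div_le_one_div_of_le (by norm_num)
      linarith
    have hWa : a * (a + 1) ≤ W := by
      have : (a : ℝ) * (a + 1) ≤ W := by
        refine le_trans ?_ w1
        rw [hTr2]
        have : 0 ≤ 1 / (16 * X) * ((a : ℝ) * (a + 1)) := by positivity
        linarith
      exact_mod_cast this
    have hW1 : 1 ≤ W := by
      exact le_trans (Nat.mul_pos a1 (Nat.succ_pos a)) hWa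

    apply clusters_inj a1 a2 a3 (L0 := L0) (W := W) (w := w) (M := M) (d := d) _ hW1
      (by omega) _ (a * (a + 1) * UU m A) _ A m hA
    · -- the value of the potential
      have h1 := UU_filter m A L0
      have h2 : a * (a + 1) * UU m (A.filter (fun i => L0 ≤ m i)) ≤
          (W + w) * UU m (A.filter (fun i => L0 ≤ m i)) :=
        Nat.mul_le_mul_right _ (by omega)
      calc a * (a + 1) * UU m A = a * (a + 1) * UU m (A.filter (fun i => L0 ≤ m i)) +
            a * (a + 1) * UU m (A.filter (fun i => m i < L0)) := by rw [← mul_add, h1]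
        _ ≤ _ := Nat.add_le_add_right h2 _
    · intro j hj
      calc j * (j + 1) ≤ L0 * L0 := Nat.mul_le_mul hj.le (by omega)
        _ = w := rfl
    · -- clusters
      intro B m' hB hBW
      apply ih L0 l2 l1 B m' (a - 1) (t + 3)
      · intro k hk
        exact ⟨(hB k hk).1, (hB k hk).2.le⟩
      · linarith
      · refine le_trans ?_ hlast
        apply mul_le_mul_of_nonneg_right _ (Nat.cast_nonneg _)
        apply mul_le_mul_of_nonneg_right _ (by positivity)
        exact pow_le_pow_right₀ (by norm_num) (by norm_num)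
      · have h1 : (W : ℝ) ≤ (UU m' B : ℝ) := by exact_mod_cast hBW
        refine le_trans ?_ (w1.trans h1)
        rw [hTr, Nat.cast_sub a1, Nat.cast_one]
        have e1 : ((a : ℝ) - 1 + 1) * (a - 1 + 2) = a * (a + 1) := by ring
        rw [e1]
        apply mul_le_mul_of_nonneg_right _ haa.le
        have e2 : Real.exp (-(t + 3)) ≤ 1 / (16 * X) := by
          rw [Real.exp_neg, ← one_div]
          apply one_div_le_one_div_of_le (by positivity)
          rw [Real.exp_add, mul_comm]
          exact mul_le_mul_of_nonneg_left exp_three hX0.le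
        linarith
    · -- large points
      intro A' m' hA' hΦ
      apply bez_large (hi hU M hM1) ht (by rw [hX10]; exact hcase) hd hMd l1 l3 hA'
      have h1 : (a * (a + 1)) * (UU m A : ℝ) ≤
          ((W : ℝ) + w) * UU m' A' + (a * (a + 1)) * W := by
        have h2 : ((a * (a + 1) * UU m A : ℕ) : ℝ) ≤
            (((W + w) * UU m' A' + a * (a + 1) * W : ℕ) : ℝ) := by exact_mod_cast hΦ
        push_cast at h2
        exact h2
      set N' : ℝ := (UU m' A' : ℝ) with hN'
      set N0 : ℝ := (UU m A : ℝ) with hN0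
      set aa : ℝ := (a : ℝ) * (a + 1) with haa'
      set DD : ℝ := ((d : ℝ) + 1) * (d + 2) with hDD
      have hN'0 : 0 ≤ N' := Nat.cast_nonneg _
      -- `a (a + 1)` is small
      have h4 : aa ≤ 1 / (64 * X) * DD := by
        have c1 : aa ≤ 2 * ((a : ℝ) * a) := by
          rw [haa']
          nlinarith only [har]
        have c2 : (a : ℝ) * a ≤ (2 * M / X ^ 2) * (2 * M / X ^ 2) :=
          mul_le_mul a5 a5 (by linarith) (by positivity)
        have c3 : (M : ℝ) * M ≤ DD := by
          rw [hDD]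
          apply mul_le_mul (by linarith) (by linarith) (by linarith) (by linarith)
        have c4 : (2 * (M : ℝ) / X ^ 2) * (2 * M / X ^ 2) = 4 * (M * M) / X ^ 4 := by
          field_simp
          ring
        have c5 : 4 * ((M : ℝ) * M) / X ^ 4 ≤ 1 / (128 * X) * (M * M) := by
          rw [div_le_iff₀ (by positivity)]
          have c6 : 1 / (128 * X) * ((M : ℝ) * M) * X ^ 4 = (M * M) * (X ^ 3 / 128) := by
            field_simp
          rw [c6]
          have c7 : (512 : ℝ) ≤ X ^ 3 := by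
            calc (512 : ℝ) ≤ X ^ 1 := by rw [pow_one]; linarith
              _ ≤ X ^ 3 := pow_le_pow_right₀ (by linarith) (by norm_num)
          have c8 : 0 ≤ (M : ℝ) * M := by positivity
          nlinarith only [c7, c8]
        have c6 : 1 / (128 * X) * ((M : ℝ) * M) ≤ 1 / (128 * X) * DD :=
          mul_le_mul_of_nonneg_left c3 (by positivity)
        have c7 : 2 * (1 / (128 * X) * DD) = 1 / (64 * X) * DD := by
          field_simp
          ring
        rw [c4] at c2
        linarith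
      have hW2 : (W : ℝ) ≤ 2 * aa := by
        have h5 : (W : ℝ) ≤ (W : ℝ) + w := by
          have : (0 : ℝ) ≤ w := Nat.cast_nonneg _
          linarith
        refine h5.trans (s2.trans ?_)
        apply mul_le_mul_of_nonneg_right _ haa.le
        linarith
      have h5 : N0 ≤ (1 + 1 / (8 * X)) * N' + W := by
        have h6 : aa * N0 ≤ aa * ((1 + 1 / (8 * X)) * N' + W) := by
          calc aa * N0 ≤ ((W : ℝ) + w) * N' + aa * W := h1
            _ ≤ ((1 + 1 / (8 * X)) * aa) * N' + aa * W := by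
                apply add_le_add_left
                exact mul_le_mul_of_nonneg_right s2 hN'0
            _ = _ := by ring
        exact le_of_mul_le_mul_left h6 haa
      have h6 : (1 + 1 / (8 * X)) * ((1 + 1 / (2 * X)) * DD) ≤ (1 + 1 / (8 * X)) * N' := by
        have e0 : (1 + 1 / X) * DD ≤ N0 := by
          rw [hεX] at hN
          exact hN
        have e1 : (1 + 1 / (8 * X)) * ((1 + 1 / (2 * X)) * DD) =
            (1 + 5 / (8 * X) + 1 / (16 * X ^ 2)) * DD := by
          field_simp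
          ring
        have e2 : (1 + 5 / (8 * X) + 1 / (16 * X ^ 2)) * DD ≤ (1 + 1 / X) * DD - 2 * (1 / (64 * X) * DD) := by
          have e3 : (1 + 1 / X) * DD - 2 * (1 / (64 * X) * DD) = (1 + 31 / (32 * X)) * DD := by
            field_simp
            ring
          rw [e3]
          apply mul_le_mul_of_nonneg_right _ hdd
          have e4 : 5 / (8 * X) = 20 / (32 * X) := by field_simp; norm_num
          have e5 : 1 / (16 * X ^ 2) ≤ 11 / (32 * X) := by
            rw [div_le_div_iff₀ (by positivity) (by positivity)]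
            nlinarith only [hX1, hX0]
          have e6 : 31 / (32 * X) = 20 / (32 * X) + 11 / (32 * X) := by field_simp; norm_num
          rw [e4, e6]
          linarith
        rw [e1]
        linarith
      exact le_of_mul_le_mul_left h6 (by positivity)

end Pool.Agent.Helper94.AM
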